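import Pool.Agent.KFE.Defs
import Pool.Agent.KFV.EXT

/-!
# KFE, row EX: the trivial module of a `p`-group is simple, with vertex the whole group and
trivial source
-/

open Representation

namespace Pool.Agent.KFE

open Pool.Agent.KFV

section

variable {F : Type*} [Field F] {G V W : Type*} [Group G] [AddCommGroup V] [Module F V]
  [AddCommGroup W] [Module F W]

private theorem ex_index_dvd (p : ℕ) [Fact p.Prime] {P : Type*} [Group P] [Finite P]
    (hP : IsPGroup p P) {R : Subgroup P} (hR : R ≠ ⊤) : p ∣ R.index := by
  obtain ⟨n, hn⟩ := hP.index R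
  rcases Nat.eq_zero_or_pos n with h0 | h0
  · exact absurd (Subgroup.index_eq_one.1 (by rw [hn, h0, pow_zero])) hR
  · rw [hn]
    exact dvd_pow_self p h0.ne'

/-- ROW EX (file Ex.lean): the trivial module of a `p`-group is simple, with vertex the whole
group and trivial source. -/
theorem trivial_vertexSource (p : ℕ) [Fact p.Prime] [CharP F p] (P : Type*) [Group P] [Finite P]
    (hP : IsPGroup p P) :
    (Representation.trivial F P F).IsIrreducible ∧
      IsVertexSource (Representation.trivial F P F) (⊤ : Subgroup P)
        (Representation.trivial F (⊤ : Subgroup P) F) := by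
  have hid : relTr (Representation.trivial F P F) (Representation.trivial F P F)
      (⊤ : Subgroup P) ((LinearMap.id : F →ₗ[F] F) ∘ₗ LinearMap.id) = LinearMap.id := by
    rw [triv_relTr, Subgroup.index_top, Nat.cast_one, one_smul]
    rfl
  refine ⟨triv_irreducible F P, ?_, triv_indec F _, ?_⟩
  · refine ⟨?_, ?_⟩
    · rw [RelProj, isSummand_ind_iff]
      refine ⟨LinearMap.id, LinearMap.id, ?_, ?_, hid⟩
      · intro g; rfl
      · intro g; rfl
    · intro R hR _
      by_contra hne
      have hR' : R ≠ ⊤ := fun h => hne (h ▸ le_rfl)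
      rw [RelProj, isSummand_ind_iff] at hR
      obtain ⟨α, β, _, _, h⟩ := hR
      rw [triv_relTr] at h
      have h0 : (R.index : F) = 0 := (CharP.cast_eq_zero_iff F p _).2 (ex_index_dvd p hP hR')
      rw [h0, zero_smul] at h
      have h1 := LinearMap.congr_fun h 1
      simp at h1
  · rw [isSummand_ind_iff]
    refine ⟨LinearMap.id, LinearMap.id, ?_, ?_, hid⟩
    · intro g; rfl
    · intro g; rfl

end

end Pool.Agent.KFE
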