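import Pool.Agent.KFE.Defs

/-!
# KFE, row ONE: a module of a `p`-group with only scalar endomorphisms is trivial
-/

open Representation

namespace Pool.Agent.KFE

open Pool.Agent.KFV

section

variable {F : Type*} [Field F]

/-- A `p`-group has a nonzero fixed vector in every nonzero module in characteristic `p`. -/
theorem exists_fixed_vector {P L : Type*} [Group P] [Finite P] [AddCommGroup L] [Module F L]
    [Nontrivial L] (p : ℕ) [Fact p.Prime] [CharP F p] (hP : IsPGroup p P)
    (σ : Representation F P L) : ∃ v : L, v ≠ 0 ∧ ∀ g, σ g v = v := by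
  obtain ⟨v, hv⟩ := exists_ne (0 : L)
  set B : AddSubgroup L := AddSubgroup.closure (Set.range fun g => σ g v) with hB
  have hp0 : ∀ x : L, p • x = 0 := by
    intro x
    rw [← Nat.cast_smul_eq_nsmul F p x, CharP.cast_eq_zero, zero_smul]
  have hpB : ∀ x : B, p • x = 0 := by
    intro x
    apply Subtype.ext
    rw [AddSubgroup.coe_nsmul, AddSubgroup.coe_zero]
    exact hp0 x
  have hp : 0 < p := (Fact.out : p.Prime).pos
  have hfg : AddGroup.FG B := by
    rw [AddGroup.fg_iff_addSubgroup_fg]
    exact (AddSubgroup.fg_iff B).2 ⟨_, rfl, Set.finite_range _⟩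
  have hfin : Finite B := AddCommGroup.finite_of_fg_isAddTorsion B (by
    intro x
    rw [isOfFinAddOrder_iff_nsmul_eq_zero]
    exact ⟨p, hp, hpB x⟩)
  have hmap : ∀ (g : P) (x : L), x ∈ B → σ g x ∈ B := by
    intro g x hx
    rw [hB] at hx
    induction hx using AddSubgroup.closure_induction with
    | mem x hx =>
      obtain ⟨k, rfl⟩ := hx
      refine AddSubgroup.subset_closure ⟨g * k, ?_⟩
      simp only [map_mul, Module.End.mul_apply]
    | zero => rw [map_zero]; exact B.zero_mem
    | add x y _ _ hx hy => rw [map_add]; exact B.add_mem hx hy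
    | neg x _ hx => rw [map_neg]; exact B.neg_mem hx
  let act : MulAction P B :=
    { smul := fun g x => ⟨σ g x, hmap g x x.2⟩
      one_smul := fun x => Subtype.ext (by
        show σ 1 (x : L) = x
        rw [map_one]; rfl)
      mul_smul := fun g k x => Subtype.ext (by
        show σ (g * k) (x : L) = σ g (σ k x)
        rw [map_mul]; rfl) }
  have hvB : v ∈ B := by
    refine AddSubgroup.subset_closure ⟨1, ?_⟩
    simp only [map_one, Module.End.one_apply]
  have hdvd : p ∣ Nat.card B := by
    have h1 : addOrderOf (⟨v, hvB⟩ : B) = p := by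
      apply addOrderOf_eq_prime (hpB _)
      intro h
      exact hv (congrArg Subtype.val h)
    rw [← h1]
    exact addOrderOf_dvd_natCard _
  have h0 : (0 : B) ∈ MulAction.fixedPoints P B := by
    intro g
    apply Subtype.ext
    show σ g ((0 : B) : L) = ((0 : B) : L)
    rw [AddSubgroup.coe_zero, map_zero]
  obtain ⟨b, hb, hb0⟩ := hP.exists_fixed_point_of_prime_dvd_card_of_fixed_point B hdvd h0
  refine ⟨b, fun h => hb0 (Subtype.ext ?_), fun g => ?_⟩
  · rw [AddSubgroup.coe_zero, h]
  · exact congrArg Subtype.val (hb g)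

/-- ROW ONE. -/
theorem finrank_eq_one {P L : Type*} [Group P] [Finite P] [AddCommGroup L] [Module F L]
    [FiniteDimensional F L] [Nontrivial L] (p : ℕ) [Fact p.Prime] [CharP F p]
    (hP : IsPGroup p P) (σ : Representation F P L)
    (h : ∀ θ : L →ₗ[F] L, Eqv σ σ θ → ∃ c : F, θ = c • LinearMap.id) :
    Module.finrank F L = 1 ∧ ∀ g x, σ g x = x := by
  obtain ⟨v, hv, hfix⟩ := exists_fixed_vector p hP σ
  obtain ⟨f, hf, hffix⟩ := exists_fixed_vector (L := Module.Dual F L) p hP σ.dual
  have hf' : ∀ g x, f (σ g x) = f x := by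
    intro g x
    have h1 := LinearMap.congr_fun (hffix g⁻¹) x
    rw [Representation.dual_apply, inv_inv] at h1
    exact h1
  obtain ⟨c, hc⟩ := h (LinearMap.smulRight f v) (by
    intro g
    ext x
    simp only [LinearMap.comp_apply, LinearMap.smulRight_apply, hf', map_smul, hfix])
  have hc' : ∀ x, f x • v = c • x := by
    intro x
    have h1 := LinearMap.congr_fun hc x
    simpa only [LinearMap.smulRight_apply, LinearMap.smul_apply, LinearMap.id_apply] using h1
  obtain ⟨x0, hx0⟩ : ∃ x, f x ≠ 0 := by
    by_contra hcon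
    push Not at hcon
    exact hf (LinearMap.ext hcon)
  have hc0 : c ≠ 0 := by
    rintro rfl
    have h1 := hc' x0
    rw [zero_smul] at h1
    rcases smul_eq_zero.1 h1 with h2 | h2
    · exact hx0 h2
    · exact hv h2
  have hspan : ∀ x, ∃ a : F, a • v = x := by
    intro x
    refine ⟨c⁻¹ * f x, ?_⟩
    rw [mul_smul, hc', inv_smul_smul₀ hc0]
  refine ⟨_root_.finrank_eq_one v hv hspan, fun g x => ?_⟩
  obtain ⟨a, rfl⟩ := hspan x
  rw [map_smul, hfix]

end

end Pool.Agent.KFE
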