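import Pool.Agent.KFE.Defs

/-!
# KFE, row SMALL: no relative traces from proper subgroups in small dimension
-/

open Representation

namespace Pool.Agent.KFE

open Pool.Agent.KFV

section

variable {F : Type*} [Field F] {G V W : Type*} [Group G] [AddCommGroup V] [Module F V]
  [AddCommGroup W] [Module F W]

open Polynomial in
private theorem sm_geom {A : Type*} [Ring A] [Algebra F A] (p : ℕ) [Fact p.Prime] [CharP F p]
    (c : A) : ∑ i ∈ Finset.range p, c ^ i = (c - 1) ^ (p - 1) := by
  have hp : p.Prime := Fact.out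
  have hne : (X - 1 : F[X]) ≠ 0 := by
    have := Polynomial.X_sub_C_ne_zero (1 : F)
    simpa using this
  have h1 : ∑ i ∈ Finset.range p, (X : F[X]) ^ i = (X - 1) ^ (p - 1) := by
    apply mul_left_cancel₀ hne
    rw [mul_geom_sum, ← pow_succ', Nat.sub_add_cancel hp.one_le, sub_pow_char_of_commute _
      (Commute.one_right _), one_pow]
  have h2 := congrArg (aeval c) h1
  simpa using h2

private theorem sm_ring {A : Type*} [Ring A] (a b r : A) (hab : Commute a b) (har : Commute a r)
    (hbr : Commute b r) (d k : ℕ) (ha : a ^ d = 0) (hb : b ^ d = 0) (h : d + d ≤ k + 1) :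
    ((a - b) * r) ^ k = 0 := by
  have hb' : (-b) ^ d = 0 := by rw [neg_pow, hb, mul_zero]
  rw [(har.sub_left hbr).mul_pow, sub_eq_add_neg,
    hab.neg_right.add_pow_eq_zero_of_add_le_succ_of_pow_eq_zero ha hb' h, zero_mul]

private theorem sm_nil {L : Type*} [AddCommGroup L] [Module F L]
    [FiniteDimensional F L] (p : ℕ) [Fact p.Prime] [CharP F p] (x y : Module.End F L)
    (hxy : x * y = 1) (hyx : y * x = 1) (k : ℕ) (hk : x ^ (p ^ k) = 1)
    (hd : 2 * Module.finrank F L ≤ p) (θ : Module.End F L) :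
    ∑ i ∈ Finset.range p, x ^ i * θ * y ^ i = 0 := by
  have hp : p.Prime := Fact.out
  set d := Module.finrank F L with hdd
  have hn : (x - 1) ^ d = 0 := by
    rcases subsingleton_or_nontrivial L with hL | hL
    · exact Subsingleton.elim _ _
    have : CharP (Module.End F L) p := charP_of_injective_algebraMap
      (algebraMap F (Module.End F L)).injective p
    have h0 : IsNilpotent (x - 1) := ⟨p ^ k, by
      rw [sub_pow_char_pow_of_commute _ _ (Commute.one_right _), hk, one_pow, sub_self]⟩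
    have h1 := IsNilpotent.charpoly_eq_X_pow_finrank h0
    have h2 := LinearMap.aeval_self_charpoly (x - 1)
    rw [h1] at h2
    simpa using h2
  set c : Module.End F (Module.End F L) := LinearMap.mulLeft F x * LinearMap.mulRight F y with hc
  have e1 : ∀ i, c ^ i = LinearMap.mulLeft F (x ^ i) * LinearMap.mulRight F (y ^ i) := by
    intro i
    rw [hc, (LinearMap.commute_mulLeft_right x y).mul_pow, LinearMap.pow_mulLeft,
      LinearMap.pow_mulRight]
  have e2 : ∑ i ∈ Finset.range p, x ^ i * θ * y ^ i = (∑ i ∈ Finset.range p, c ^ i) θ := by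
    rw [LinearMap.sum_apply]
    refine Finset.sum_congr rfl (fun i _ => ?_)
    rw [e1]
    simp [mul_assoc]
  have e3 : c - 1 = (LinearMap.mulLeft F (x - 1) - LinearMap.mulRight F (x - 1)) *
      LinearMap.mulRight F y := by
    ext1 θ
    simp only [hc, LinearMap.sub_apply, Module.End.mul_apply, Module.End.one_apply,
      LinearMap.mulLeft_apply, LinearMap.mulRight_apply]
    have : θ * y * x = θ := by rw [mul_assoc, hyx, mul_one]
    have h' : θ * y * (x - 1) = θ - θ * y := by rw [mul_sub, this, mul_one]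
    rw [h', sub_mul, one_mul]
    noncomm_ring
  have e4 : (c - 1) ^ (p - 1) = 0 := by
    rw [e3]
    refine sm_ring _ _ _ (LinearMap.commute_mulLeft_right _ _)
      (LinearMap.commute_mulLeft_right _ _) ?_ d (p - 1) ?_ ?_ ?_
    · ext1 θ
      simp only [Module.End.mul_apply, LinearMap.mulRight_apply]
      rw [mul_assoc, mul_assoc, mul_sub, sub_mul, hyx, hxy, mul_one, one_mul]
    · rw [LinearMap.pow_mulLeft, hn]
      ext1 θ
      simp
    · rw [LinearMap.pow_mulRight, hn]
      ext1 θ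
      simp
    · have := hp.one_le
      omega
  rw [e2, sm_geom (F := F) p c, e4, LinearMap.zero_apply]

private theorem sm_coset {P L : Type*} [Group P] [AddCommGroup L] [Module F L]
    (σ : Representation F P L) (R : Subgroup P) (θ : L →ₗ[F] L)
    (hθ : ∀ r ∈ R, θ ∘ₗ σ r = σ r ∘ₗ θ) (g h : P) (hgh : (g : P ⧸ R) = h) :
    σ g ∘ₗ θ ∘ₗ σ g⁻¹ = σ h ∘ₗ θ ∘ₗ σ h⁻¹ := by
  have h1 : g⁻¹ * h ∈ R := QuotientGroup.eq.1 hgh
  have h3 : h⁻¹ = (g⁻¹ * h)⁻¹ * g⁻¹ := by group
  have h2 : h = g * (g⁻¹ * h) := by group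
  generalize g⁻¹ * h = r at *
  subst h2
  rw [h3]
  have h4 := hθ _ (R.inv_mem h1)
  have h5 : σ r ∘ₗ σ r⁻¹ = LinearMap.id := by
    rw [← Module.End.mul_eq_comp, ← map_mul, mul_inv_cancel, map_one]; rfl
  have h6 : θ = σ r ∘ₗ θ ∘ₗ σ r⁻¹ := by
    rw [h4, ← LinearMap.comp_assoc, h5, LinearMap.id_comp]
  conv_lhs => rw [h6]
  rw [map_mul, map_mul]
  rfl

private theorem sm_max {P L : Type*} [Group P] [Finite P] [AddCommGroup L] [Module F L]
    [FiniteDimensional F L] (p : ℕ) [Fact p.Prime] [CharP F p] (hP : IsPGroup p P)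
    (σ : Representation F P L) (hd : 2 * Module.finrank F L ≤ p) (M : Subgroup P)
    (hM : IsCoatom M) (θ : L →ₗ[F] L) (hθ : ∀ r ∈ M, θ ∘ₗ σ r = σ r ∘ₗ θ) :
    relTr σ σ M θ = 0 := by
  have hp : p.Prime := Fact.out
  have := hP.isNilpotent
  have hnorm : M.Normal := Subgroup.NormalizerCondition.normal_of_coatom M
    Group.normalizerCondition_of_isNilpotent hM
  have hne : Nontrivial (P ⧸ M) := QuotientGroup.nontrivial_iff.2 hM.1
  have hQ : IsPGroup p (P ⧸ M) := hP.to_quotient M
  have hdvd : p ∣ Nat.card (P ⧸ M) := by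
    obtain ⟨n, hn, hn'⟩ := (hQ.nontrivial_iff_card).1 hne
    rw [hn']
    exact dvd_pow_self p (by omega)
  obtain ⟨c, hc⟩ := exists_prime_orderOf_dvd_card' p hdvd
  obtain ⟨x, rfl⟩ := QuotientGroup.mk_surjective c
  have hgen : ∀ z : P ⧸ M, z ∈ Subgroup.zpowers (x : P ⧸ M) := by
    have h1 : M ≤ (Subgroup.zpowers (x : P ⧸ M)).comap (QuotientGroup.mk' M) := by
      intro y hy
      rw [Subgroup.mem_comap]
      have : QuotientGroup.mk' M y = 1 := (QuotientGroup.eq_one_iff y).2 hy
      rw [this]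
      exact Subgroup.one_mem _
    have h2 : (Subgroup.zpowers (x : P ⧸ M)).comap (QuotientGroup.mk' M) ≠ M := by
      intro h
      have hx : x ∈ (Subgroup.zpowers (x : P ⧸ M)).comap (QuotientGroup.mk' M) := by
        rw [Subgroup.mem_comap]
        exact Subgroup.mem_zpowers _
      rw [h] at hx
      have : (x : P ⧸ M) = 1 := (QuotientGroup.eq_one_iff x).2 hx
      rw [this, orderOf_one] at hc
      exact hp.one_lt.ne hc
    have h3 := hM.2 _ (lt_of_le_of_ne h1 (Ne.symm h2))
    intro z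
    obtain ⟨y, rfl⟩ := QuotientGroup.mk_surjective z
    have : y ∈ (Subgroup.zpowers (x : P ⧸ M)).comap (QuotientGroup.mk' M) := by
      rw [h3]; trivial
    exact this
  classical
  have : Fintype (P ⧸ M) := Fintype.ofFinite _
  unfold relTr
  rw [finsum_eq_sum_of_fintype]
  rw [← IsCyclic.image_range_orderOf hgen, hc, Finset.sum_image]
  · obtain ⟨k, hk⟩ := hP x
    have key := sm_nil (F := F) p (σ x) (σ x⁻¹) (by rw [← map_mul, mul_inv_cancel, map_one])
      (by rw [← map_mul, inv_mul_cancel, map_one]) k (by rw [← map_pow, hk, map_one]) hd θ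
    rw [← key]
    refine Finset.sum_congr rfl (fun i _ => ?_)
    rw [sm_coset σ M θ hθ _ (x ^ i) (by rw [QuotientGroup.out_eq']; rfl)]
    rw [map_pow, ← inv_pow, map_pow, mul_assoc]
    rfl
  · intro i hi j hj hij
    rw [Finset.coe_range] at hi hj
    exact pow_injOn_Iio_orderOf (by rw [hc]; exact hi) (by rw [hc]; exact hj) hij

/-- ROW SMALL. -/
theorem trI_eq_bot {P L : Type*} [Group P] [Finite P] [AddCommGroup L] [Module F L]
    [FiniteDimensional F L] (p : ℕ) [Fact p.Prime] [CharP F p] (hP : IsPGroup p P)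
    (σ : Representation F P L) (hd : 2 * Module.finrank F L ≤ p) : trI σ σ = ⊥ := by
  unfold trI
  rw [Submodule.span_eq_bot]
  rintro f ⟨R, hR, θ, hθ, rfl⟩
  obtain ⟨M, hM, hRM⟩ := (eq_top_or_exists_le_coatom R).resolve_left hR
  have h1 := relTr_trans σ σ M (R.subgroupOf M) θ (by
    intro r hr
    exact hθ r hr)
  rw [Subgroup.subgroupOf_map_subtype, inf_eq_left.2 hRM] at h1
  rw [← h1]
  refine sm_max p hP σ hd M hM _ ?_
  intro r hr
  have h2 := relTr_eqv (σ.comp M.subtype) (σ.comp M.subtype) (R.subgroupOf M) θ (by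
    intro r hr
    exact hθ r hr)
  exact h2 ⟨r, hr⟩

end

end Pool.Agent.KFE
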