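import Pool.Agent.KFE.Defs

/-!
# KFE (MP_1993d0_al), row VPG: vertices are `p`-groups
-/

open Representation

namespace Pool.Agent.KFE

open Pool.Agent.KFV

variable {F : Type*} [Field F] {G V W : Type*} [Group G] [AddCommGroup V] [Module F V]
  [AddCommGroup W] [Module F W]

private theorem Vpg_relTr_id [Finite G] (σ : Representation F G V) (R : Subgroup G) :
    relTr σ σ R LinearMap.id = ((R.index : ℕ) : F) • (LinearMap.id : V →ₗ[F] V) := by
  classical
  have : Fintype (G ⧸ R) := Fintype.ofFinite _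
  unfold relTr
  rw [finsum_eq_sum_of_fintype]
  have h1 : ∀ x : G ⧸ R, σ x.out ∘ₗ LinearMap.id ∘ₗ σ x.out⁻¹ = (LinearMap.id : V →ₗ[F] V) := by
    intro x
    rw [LinearMap.id_comp]
    exact uni_comp_inv σ x.out
  rw [Finset.sum_congr rfl (fun x _ => h1 x), Finset.sum_const, Finset.card_univ,
    Subgroup.index_eq_card, Nat.card_eq_fintype_card, Nat.cast_smul_eq_nsmul]

/-- ROW VPG (file Vpg.lean). -/
theorem vertex_isPGroup [Finite G] (p : ℕ) [Fact p.Prime] [CharP F p]
    (ρ : Representation F G V) (Q : Subgroup G) (hQ : Minimal (RelProj ρ) Q) :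
    IsPGroup p Q := by
  classical
  obtain ⟨S⟩ : Nonempty (Sylow p Q) := inferInstance
  have hidx : (((S : Subgroup Q).index : ℕ) : F) ≠ 0 := by
    rw [Ne, CharP.cast_eq_zero_iff F p]
    exact S.not_dvd_index
  have hrel := hQ.1
  rw [RelProj, isSummand_ind_iff] at hrel
  obtain ⟨α, β, hα, hβ, h⟩ := hrel
  have hαβ : Eqv (res ρ Q) (res ρ Q) (α ∘ₗ β) := Eqv.comp hα hβ
  have hS : RelProj ρ ((S : Subgroup Q).map Q.subtype) := by
    rw [RelProj, isSummand_ind_iff]
    have hmem : ∀ q : ((S : Subgroup Q).map Q.subtype : Subgroup G), (q : G) ∈ Q := by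
      intro q
      exact Subgroup.map_subtype_le _ q.2
    refine ⟨(((S : Subgroup Q).index : ℕ) : F)⁻¹ • (α ∘ₗ β), LinearMap.id, ?_, ?_, ?_⟩
    · intro q
      have := hαβ ⟨q, hmem q⟩
      rw [LinearMap.smul_comp, LinearMap.comp_smul]
      exact congrArg _ this
    · intro q
      rfl
    · rw [LinearMap.comp_id]
      rw [← relTr_trans ρ ρ Q (S : Subgroup Q)]
      · rw [relTr_smul]
        have h2 : relTr (ρ.comp Q.subtype) (ρ.comp Q.subtype) (S : Subgroup Q) (α ∘ₗ β) =
            (((S : Subgroup Q).index : ℕ) : F) • (α ∘ₗ β) := by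
          have h3 := comp_relTr (ρ.comp Q.subtype) (ρ.comp Q.subtype) (ρ.comp Q.subtype)
            (S : Subgroup Q) LinearMap.id (α ∘ₗ β) hαβ
          rw [Vpg_relTr_id, LinearMap.comp_id, LinearMap.comp_smul, LinearMap.comp_id] at h3
          exact h3.symm
        rw [h2, smul_smul, inv_mul_cancel₀ hidx, one_smul]
        exact h
      · intro r _
        have := hαβ r
        rw [LinearMap.smul_comp, LinearMap.comp_smul]
        exact congrArg _ this
  have hle : ((S : Subgroup Q).map Q.subtype) ≤ Q := Subgroup.map_subtype_le _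
  have hge : Q ≤ ((S : Subgroup Q).map Q.subtype) := hQ.2 hS hle
  have hp : IsPGroup p ((S : Subgroup Q).map Q.subtype : Subgroup G) := S.isPGroup'.map _
  exact hp.to_le hge

end Pool.Agent.KFE
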