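import Pool.Agent.KFE.Mainb
import Pool.Agent.KFE.Small
import Pool.Agent.KFE.One
import Pool.Agent.KFE.Vpg
import Pool.Agent.KFE.Ex
import Pool.Agent.KFE.Aut2

/-!
# Assembly
-/

open Representation

namespace Pool.Agent.KFE

open Pool.Agent.KFV

section

variable {F : Type*} [Field F] {G V W : Type*} [Group G] [AddCommGroup V] [Module F V]
  [AddCommGroup W] [Module F W]

theorem small_source_stab [IsAlgClosed F] [FiniteDimensional F V] [FiniteDimensional F W]
    [Finite G] (p : ℕ) [Fact p.Prime] [CharP F p] (ρ : Representation F G V)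
    (hρ : ρ.IsIrreducible) (Q : Subgroup G) (σ : Representation F Q W)
    (h : IsVertexSource ρ Q σ) (hE : PStab p Q σ) (hd : 2 * Module.finrank F W ≤ p) :
    Module.finrank F W = 1 ∧ ∀ q x, σ q x = x := by
  have hQ := vertex_isPGroup p ρ Q h.vertex
  have := h.indec.1
  apply finrank_eq_one p hQ σ
  intro θ hθ
  obtain ⟨c, hc⟩ := local_end_stab p ρ hρ Q σ h hE θ hθ
  rw [trI_eq_bot p hQ σ hd, Submodule.mem_bot] at hc
  exact ⟨c, sub_eq_zero.1 hc⟩

end

end Pool.Agent.KFE
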