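import Pool.Agent.KFE.Defs

/-!
# KFE, row ANS: an endomorphism which is stable modulo traces is a scalar modulo traces
-/

open Representation

namespace Pool.Agent.KFE

open Pool.Agent.KFV

section

variable {F : Type*} [Field F] {G V W : Type*} [Group G] [AddCommGroup V] [Module F V]
  [AddCommGroup W] [Module F W]

/-- An endomorphism of the restriction of a simple module to the vertex which is stable under the
normaliser of the vertex, up to relative traces, is a scalar up to relative traces. -/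
theorem fixed_scalar [IsAlgClosed F] [FiniteDimensional F V] [Finite G]
    (ρ : Representation F G V) (hρ : ρ.IsIrreducible) (Q : Subgroup G)
    (σ : Representation F Q W) (h : IsVertexSource ρ Q σ) (a : V →ₗ[F] V)
    (ha : Eqv (res ρ Q) (res ρ Q) a)
    (hfix : ∀ g ∈ Subgroup.normalizer (Q : Set G), cj ρ g a - a ∈ trI (res ρ Q) (res ρ Q)) :
    ∃ c : F, a - c • LinearMap.id ∈ trI (res ρ Q) (res ρ Q) := by
  obtain ⟨α, β, hα, hβ, htr⟩ := source_data ρ Q σ h
  obtain ⟨c0, hc0⟩ : ∃ c0 : V →ₗ[F] V, c0 = α ∘ₗ β := ⟨_, rfl⟩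
  have hc : Eqv (res ρ Q) (res ρ Q) c0 := by rw [hc0]; exact hα.comp hβ
  rw [← hc0] at htr
  have hac : Eqv (res ρ Q) (res ρ Q) (a ∘ₗ c0) := ha.comp hc
  obtain ⟨c, hcs⟩ : ∃ c : F, relTr ρ ρ Q (a ∘ₗ c0) = c • LinearMap.id :=
    schur ρ hρ _ (relTr_eqv ρ ρ Q _ (fun r hr => hac ⟨r, hr⟩))
  set f : G ⧸ Q → (V →ₗ[F] V) := fun x =>
    (ρ x.out ∘ₗ (a ∘ₗ c0) ∘ₗ ρ x.out⁻¹) - a ∘ₗ (ρ x.out ∘ₗ c0 ∘ₗ ρ x.out⁻¹) with hf
  have hsum : ∑ᶠ x, f x = c • LinearMap.id - a := by
    have e1 : ∑ᶠ x, f x = relTr ρ ρ Q (a ∘ₗ c0) - a ∘ₗ relTr ρ ρ Q c0 := by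
      classical
      have := Fintype.ofFinite (G ⧸ Q)
      unfold relTr
      rw [finsum_eq_sum_of_fintype, finsum_eq_sum_of_fintype, finsum_eq_sum_of_fintype]
      ext w
      simp only [hf, LinearMap.sum_apply, LinearMap.sub_apply, LinearMap.comp_apply,
        Finset.sum_sub_distrib, map_sum]
    rw [e1, hcs, htr, LinearMap.comp_id]
  have hmem : ∑ᶠ x, f x ∈ trI (res ρ Q) (res ρ Q) := by
    apply orbit_sum_mem (res ρ Q) (res ρ Q) f _ (trI (res ρ Q) (res ρ Q)) le_rfl
    · -- fixed points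
      intro x hx
      have hin := fixed_coset (Q := Q) (Q₂ := Q) x hx
      have hout := conj_mem_of_finite x.out hin
      have he : Eqv (res ρ Q) (res ρ Q) (ρ x.out ∘ₗ c0 ∘ₗ ρ x.out⁻¹) := by
        intro p
        have h1 := conj_smul ρ Q Q c0 hc p x
        rw [hx p] at h1
        exact comm_of_conj (res ρ Q) p _ h1
      set g : G := x.out with hg
      have hgN : g ∈ Subgroup.normalizer (Q : Set G) := by
        rw [Subgroup.mem_normalizer_iff]
        intro q
        constructor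
        · intro hq
          exact hout ⟨q, hq⟩
        · intro hq
          have h1 := hin ⟨g * q * g⁻¹, hq⟩
          have h2 : g⁻¹ * (g * q * g⁻¹) * g = q := by group
          simp only [h2] at h1
          exact h1
      have h2 := mem_trI_comp (res ρ Q) (res ρ Q) (res ρ Q) _ _ he (hfix g hgN)
      have hgg : ∀ v, ρ g⁻¹ (ρ g v) = v := by
        intro v
        have h3 : (ρ g⁻¹ : Module.End F V) * ρ g = 1 := by
          rw [← map_mul, inv_mul_cancel, map_one]
        have h4 := congrArg (fun k : Module.End F V => k v) h3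
        exact h4
      have h3 : f x = (cj ρ g a - a) ∘ₗ (ρ g ∘ₗ c0 ∘ₗ ρ g⁻¹) := by
        ext v
        simp only [hf, cj, LinearMap.sub_apply, LinearMap.comp_apply, ← hg, hgg]
      rw [h3]
      exact h2
    · -- equivariance
      intro p x
      have e1 := conj_smul ρ Q Q _ hc p x
      have e2 := conj_smul ρ Q Q _ hac p x
      simp only [hf]
      rw [e1, e2]
      generalize (ρ x.out ∘ₗ (a ∘ₗ c0) ∘ₗ ρ x.out⁻¹) = K1
      generalize (ρ x.out ∘ₗ c0 ∘ₗ ρ x.out⁻¹) = K2
      ext w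
      have e5 : ∀ w, a ((res ρ Q) p w) = (res ρ Q) p (a w) := fun w =>
        congrArg (fun k => k w) (ha p)
      have e6 : ∀ w, a ((ρ.comp Q.subtype) p w) = (ρ.comp Q.subtype) p (a w) := e5
      simp only [LinearMap.comp_apply, LinearMap.sub_apply, map_sub, e6]
  refine ⟨c, ?_⟩
  rw [hsum] at hmem
  have h5 := neg_mem hmem
  rwa [neg_sub] at h5

end

end Pool.Agent.KFE
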