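import Pool.Agent.KFE.Defs

/-!
# The condition on `N(Q) / Q C(Q)` follows from the condition on the outer automorphism group
-/

open Representation

namespace Pool.Agent.KFE

open Pool.Agent.KFV

theorem pcond_of_aut {G P : Type*} [Group G] [Group P] (p : ℕ) (Q : Subgroup G) (e : Q ≃* P)
    (hP : ∀ φ : MulAut P, ∃ k : ℕ, φ ^ (p ^ k) ∈ (MulAut.conj : P →* MulAut P).range) :
    PCond p Q := by
  intro g hg
  -- conjugation by `g` on `Q`
  have hmem : ∀ (h : G), h ∈ Subgroup.normalizer (Q : Set G) → ∀ q : Q, h * (q : G) * h⁻¹ ∈ Q := by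
    intro h hh q
    exact (Subgroup.mem_normalizer_iff.1 hh q).1 q.2
  have hg' : g⁻¹ ∈ Subgroup.normalizer (Q : Set G) := Subgroup.inv_mem _ hg
  let ψ : MulAut Q :=
    { toFun := fun q => ⟨g * (q : G) * g⁻¹, hmem g hg q⟩
      invFun := fun q => ⟨g⁻¹ * (q : G) * g, by simpa using hmem g⁻¹ hg' q⟩
      left_inv := fun q => Subtype.ext (by simp only; group)
      right_inv := fun q => Subtype.ext (by simp only; group)
      map_mul' := fun q q' => Subtype.ext (by simp only [Subgroup.coe_mul]; group) }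
  have hψ : ∀ (n : ℕ) (q : Q), ((ψ ^ n) q : G) = g ^ n * (q : G) * (g ^ n)⁻¹ := by
    intro n
    induction n with
    | zero => intro q; simp
    | succ n ih =>
      intro q
      rw [pow_succ', MulAut.mul_apply]
      have h1 : ((ψ ((ψ ^ n) q) : Q) : G) = g * (((ψ ^ n) q : Q) : G) * g⁻¹ := rfl
      rw [h1, ih, pow_succ']
      group
  let φ : MulAut P := (e.symm.trans ψ).trans e
  have hφ : ∀ (n : ℕ) (x : P), (φ ^ n) x = e ((ψ ^ n) (e.symm x)) := by
    intro n
    induction n with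
    | zero => intro x; simp
    | succ n ih =>
      intro x
      rw [pow_succ', MulAut.mul_apply, ih, pow_succ', MulAut.mul_apply]
      change e (ψ (e.symm (e ((ψ ^ n) (e.symm x))))) = _
      rw [MulEquiv.symm_apply_apply]
  obtain ⟨k, y, hy⟩ := hP φ
  refine ⟨k, ?_⟩
  set h := g ^ (p ^ k) with hh
  set q₀ : Q := e.symm y with hq₀
  have hc : (q₀ : G)⁻¹ * h ∈ Subgroup.centralizer (Q : Set G) := by
    rw [Subgroup.mem_centralizer_iff]
    intro q hq
    have h1 : (φ ^ (p ^ k)) (e ⟨q, hq⟩) = y * e ⟨q, hq⟩ * y⁻¹ := by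
      rw [← hy]; rfl
    rw [hφ, MulEquiv.symm_apply_apply] at h1
    have h2 : (ψ ^ (p ^ k)) ⟨q, hq⟩ = q₀ * ⟨q, hq⟩ * q₀⁻¹ := by
      apply e.injective
      rw [h1, map_mul, map_mul, map_inv, hq₀, MulEquiv.apply_symm_apply]
    have h3 := congrArg Subtype.val h2
    rw [hψ] at h3
    simp only [Subgroup.coe_mul, InvMemClass.coe_inv] at h3
    rw [← hh] at h3
    have h4 : h * q = (q₀ : G) * q * (q₀ : G)⁻¹ * h := by
      rw [← h3]; group
    rw [mul_assoc, h4]
    group
  have h5 : h = (q₀ : G) * ((q₀ : G)⁻¹ * h) := by group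
  rw [h5]
  exact Subgroup.mul_mem _ (Subgroup.mem_sup_left q₀.2) (Subgroup.mem_sup_right hc)

end Pool.Agent.KFE
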