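import Pool.Agent.KFE.Defs
import Pool.Agent.KFE.Ans
import Pool.Agent.KFE.Vpg

/-!
# KFE, row CENT: powers of `z - 1` for central elements `z` of a vertex
-/

open Representation

namespace Pool.Agent.KFE

open Pool.Agent.KFV

section

variable {F : Type*} [Field F] {G V W : Type*} [Group G] [AddCommGroup V] [Module F V]
  [AddCommGroup W] [Module F W]

/-- The element `x - 1` of the group algebra is nilpotent. -/
theorem cent_nilp {Z : Type*} [CommGroup Z] (p : ℕ) [Fact p.Prime] [CharP F p] (x : Z)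
    (hx : ∃ k : ℕ, x ^ (p ^ k) = 1) :
    IsNilpotent (MonoidAlgebra.single x 1 - 1 : MonoidAlgebra F Z) := by
  obtain ⟨k, hk⟩ := hx
  haveI : CharP (MonoidAlgebra F Z) p :=
    charP_of_injective_algebraMap (FaithfulSMul.algebraMap_injective F (MonoidAlgebra F Z)) p
  refine ⟨p ^ k, ?_⟩
  rw [sub_pow_char_pow, MonoidAlgebra.single_pow, hk, one_pow, one_pow]
  rw [← MonoidAlgebra.one_def, sub_self]

/-- A product of `X - c` with nilpotent `c`: the lower coefficients are nilpotent. -/
theorem cent_coeff {R ι : Type*} [CommRing R] [Fintype ι] (c : ι → R)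
    (hc : ∀ i, IsNilpotent (c i)) (i : ℕ) (hi : i < Fintype.card ι) :
    IsNilpotent ((∏ j, (Polynomial.X - Polynomial.C (c j))).coeff i) := by
  have h1 : (∏ j, (Polynomial.X - Polynomial.C (c j))).map (Ideal.Quotient.mk (nilradical R)) =
      Polynomial.X ^ (Fintype.card ι) := by
    rw [Polynomial.map_prod]
    have : ∀ j ∈ (Finset.univ : Finset ι),
        (Polynomial.X - Polynomial.C (c j)).map (Ideal.Quotient.mk (nilradical R)) =
          Polynomial.X := by
      intro j _
      rw [Polynomial.map_sub, Polynomial.map_X, Polynomial.map_C]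
      have h2 : Ideal.Quotient.mk (nilradical R) (c j) = 0 :=
        Ideal.Quotient.eq_zero_iff_mem.2 (mem_nilradical.2 (hc j))
      rw [h2, Polynomial.C_0, sub_zero]
    rw [Finset.prod_congr rfl this, Finset.prod_const, Finset.card_univ]
  have h3 : Ideal.Quotient.mk (nilradical R)
      ((∏ j, (Polynomial.X - Polynomial.C (c j))).coeff i) = 0 := by
    rw [← Polynomial.coeff_map, h1, Polynomial.coeff_X_pow, if_neg (by omega)]
  exact mem_nilradical.1 (Ideal.Quotient.eq_zero_iff_mem.1 h3)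

/-- The relation satisfied by one of the `c i`. -/
theorem cent_rel {R ι : Type*} [CommRing R] [Nontrivial R] [Fintype ι] (c : ι → R) (i0 : ι) :
    (c i0) ^ (Fintype.card ι) = - ∑ i ∈ Finset.range (Fintype.card ι),
      (∏ j, (Polynomial.X - Polynomial.C (c j))).coeff i * (c i0) ^ i := by
  set P : Polynomial R := ∏ j, (Polynomial.X - Polynomial.C (c j)) with hP
  have hmon : P.Monic := Polynomial.monic_prod_of_monic _ _ fun j _ => Polynomial.monic_X_sub_C _
  have hdeg : P.natDegree = Fintype.card ι := by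
    rw [hP, Polynomial.natDegree_prod_of_monic _ _ fun j _ => Polynomial.monic_X_sub_C _]
    simp
  have hev : P.eval (c i0) = 0 := by
    rw [hP, Polynomial.eval_prod]
    exact Finset.prod_eq_zero (Finset.mem_univ i0) (by simp)
  rw [Polynomial.eval_eq_sum_range, hdeg, Finset.sum_range_succ] at hev
  have hlead : P.coeff (Fintype.card ι) = 1 := by
    rw [← hdeg]; exact hmon
  rw [hlead, one_mul] at hev
  exact (neg_eq_of_add_eq_zero_right hev).symm

/-- Powers of an element which is a scalar modulo the traces. -/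
theorem cent_pow_sub [Finite G] (ρ : Representation F G V) (a : V →ₗ[F] V) (ha : Eqv ρ ρ a)
    (c : F) (h : a - c • LinearMap.id ∈ trI ρ ρ) (m : ℕ) :
    (a ^ m : Module.End F V) - (c ^ m) • LinearMap.id ∈ trI ρ ρ := by
  induction m with
  | zero =>
    have : (a ^ 0 : Module.End F V) - (c ^ 0) • LinearMap.id = 0 := by
      rw [pow_zero, pow_zero, one_smul]
      exact sub_self _
    rw [this]
    exact zero_mem _
  | succ m ih =>
    have h1 := comp_mem_trI ρ ρ ρ _ a ha ih
    have h2 := (trI ρ ρ).smul_mem (c ^ m) h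
    have h3 := (trI ρ ρ).add_mem h1 h2
    have e : (a ^ (m + 1) : Module.End F V) - (c ^ (m + 1)) • LinearMap.id =
        a ∘ₗ ((a ^ m : Module.End F V) - (c ^ m) • LinearMap.id) +
          c ^ m • (a - c • LinearMap.id) := by
      rw [pow_succ' a m]
      ext v
      simp [pow_succ, smul_smul, smul_sub]
    rw [e]
    exact h3

theorem cent_eqv_pow (ρ : Representation F G V) (a : Module.End F V) (ha : Eqv ρ ρ a) (m : ℕ) :
    Eqv ρ ρ (a ^ m : Module.End F V) := by
  intro g
  have h : Commute a (ρ g : Module.End F V) := ha g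
  exact h.pow_left m

/-- The map of the group algebra of an abelian group with a map to `Q`. -/
noncomputable def centMap (ρ : Representation F G V) (Q : Subgroup G) {Z : Type*} [CommGroup Z]
    (ι : Z →* Q) : MonoidAlgebra F Z →ₐ[F] Module.End F V :=
  MonoidAlgebra.lift F (Module.End F V) Z (((ρ : G →* Module.End F V).comp Q.subtype).comp ι)

theorem centMap_single (ρ : Representation F G V) (Q : Subgroup G) {Z : Type*} [CommGroup Z]
    (ι : Z →* Q) (x : Z) : centMap ρ Q ι (MonoidAlgebra.single x 1) = ρ ((ι x : Q) : G) := by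
  unfold centMap
  rw [MonoidAlgebra.lift_single, one_smul]
  rfl

theorem centMap_eqv (ρ : Representation F G V) (Q : Subgroup G) {Z : Type*} [CommGroup Z]
    (ι : Z →* Q) (hι : ∀ (x : Z) (q : Q), q * ι x = ι x * q)
    (r : MonoidAlgebra F Z) : Eqv (res ρ Q) (res ρ Q) (centMap ρ Q ι r) := by
  induction r using MonoidAlgebra.induction_on with
  | of x =>
    intro q
    rw [MonoidAlgebra.of_apply, centMap_single]
    have h1 : ((ι x : Q) : G) * (q : G) = (q : G) * ((ι x : Q) : G) :=
      (congrArg Subtype.val (hι x q)).symm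
    have h2 := congrArg ρ h1
    rw [map_mul, map_mul] at h2
    exact h2
  | add x y hx hy =>
    intro q
    rw [map_add, LinearMap.add_comp, LinearMap.comp_add, hx q, hy q]
  | smul c x hx =>
    intro q
    rw [map_smul, LinearMap.smul_comp, LinearMap.comp_smul, hx q]

/-- Conjugation by a map of the abelian group. -/
theorem centMap_cj (ρ : Representation F G V) (Q : Subgroup G) {Z : Type*} [CommGroup Z]
    (ι : Z →* Q) (g : G) (γ : Z →* Z)
    (hγ : ∀ x : Z, ((ι (γ x) : Q) : G) = g * ((ι x : Q) : G) * g⁻¹)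
    (r : MonoidAlgebra F Z) :
    centMap ρ Q ι (MonoidAlgebra.mapDomainAlgHom F F γ r) = cj ρ g (centMap ρ Q ι r) := by
  induction r using MonoidAlgebra.induction_on with
  | of x =>
    rw [MonoidAlgebra.of_apply, centMap_single, MonoidAlgebra.mapDomainAlgHom_apply,
      MonoidAlgebra.mapDomain_single, centMap_single, hγ, map_mul, map_mul]
    rfl
  | add x y hx hy =>
    rw [map_add, map_add, map_add, hx, hy]
    unfold cj
    rw [LinearMap.add_comp, LinearMap.comp_add]
  | smul c x hx =>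
    rw [map_smul, map_smul, map_smul, hx]
    unfold cj
    rw [LinearMap.smul_comp, LinearMap.comp_smul]

theorem cent_conj_mem (Q : Subgroup G) (g : G) (hg : g ∈ Subgroup.normalizer (Q : Set G)) (x : G)
    (hx : x ∈ Q) : g * x * g⁻¹ ∈ Q := (Subgroup.mem_normalizer_iff.1 hg x).1 hx

theorem cent_conj_center (Q : Subgroup G) (g : G) (hg : g ∈ Subgroup.normalizer (Q : Set G)) (x : Q)
    (hx : x ∈ Subgroup.center Q) (h : g * (x : G) * g⁻¹ ∈ Q) :
    (⟨g * (x : G) * g⁻¹, h⟩ : Q) ∈ Subgroup.center Q := by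
  rw [Subgroup.mem_center_iff]
  intro q
  apply Subtype.ext
  have hq : g⁻¹ * (q : G) * g ∈ Q := by
    have h1 := cent_conj_mem Q g⁻¹ (inv_mem hg) (q : G) q.2
    rwa [inv_inv] at h1
  have h2 := Subgroup.mem_center_iff.1 hx ⟨g⁻¹ * (q : G) * g, hq⟩
  have h3 : g⁻¹ * (q : G) * g * (x : G) = (x : G) * (g⁻¹ * (q : G) * g) :=
    congrArg Subtype.val h2
  change (q : G) * (g * (x : G) * g⁻¹) = g * (x : G) * g⁻¹ * (q : G)
  calc (q : G) * (g * (x : G) * g⁻¹) = g * (g⁻¹ * (q : G) * g * (x : G)) * g⁻¹ := by group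
    _ = g * ((x : G) * (g⁻¹ * (q : G) * g)) * g⁻¹ := by rw [h3]
    _ = g * (x : G) * g⁻¹ * (q : G) := by group

/-- The conjugation on the centre. -/
def centConj (Q : Subgroup G) (g : G) (hg : g ∈ Subgroup.normalizer (Q : Set G)) :
    Subgroup.center Q →* Subgroup.center Q where
  toFun x := ⟨⟨g * ((x : Q) : G) * g⁻¹, cent_conj_mem Q g hg _ (x : Q).2⟩,
    cent_conj_center Q g hg (x : Q) x.2 _⟩
  map_one' := by
    apply Subtype.ext
    apply Subtype.ext
    simp
  map_mul' x y := by
    apply Subtype.ext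
    apply Subtype.ext
    simp

/-- The conjugates of `z`. -/
def centOrb (Q : Subgroup G) (z : G) : Set G :=
  {x : G | ∃ g ∈ Subgroup.normalizer (Q : Set G), x = g * z * g⁻¹}

theorem centOrb_mem (Q : Subgroup G) (z : Q) (s : G) (hs : s ∈ centOrb Q z) : s ∈ Q := by
  obtain ⟨g, hg, rfl⟩ := hs
  exact cent_conj_mem Q g hg _ z.2

theorem centOrb_center (Q : Subgroup G) (z : Q) (hz : z ∈ Subgroup.center Q) (s : G)
    (hs : s ∈ centOrb Q z) : (⟨s, centOrb_mem Q z s hs⟩ : Q) ∈ Subgroup.center Q := by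
  obtain ⟨g, hg, rfl⟩ := hs
  exact cent_conj_center Q g hg z hz _

/-- Conjugation on the set of conjugates. -/
def centOrbEquiv (Q : Subgroup G) (z : G) (g : G) (hg : g ∈ Subgroup.normalizer (Q : Set G)) :
    centOrb Q z ≃ centOrb Q z where
  toFun s := ⟨g * (s : G) * g⁻¹, by
    obtain ⟨s, k, hk, rfl⟩ := s
    exact ⟨g * k, mul_mem hg hk, by group⟩⟩
  invFun s := ⟨g⁻¹ * (s : G) * g, by
    obtain ⟨s, k, hk, rfl⟩ := s
    exact ⟨g⁻¹ * k, mul_mem (inv_mem hg) hk, by group⟩⟩
  left_inv s := by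
    apply Subtype.ext
    change g⁻¹ * (g * (s : G) * g⁻¹) * g = s
    group
  right_inv s := by
    apply Subtype.ext
    change g * (g⁻¹ * (s : G) * g) * g⁻¹ = s
    group

/-- The power of `ρ z - 1`, for an abelian group mapping to the centre. -/
theorem central_pow_aux [IsAlgClosed F] [FiniteDimensional F V] [FiniteDimensional F W] [Finite G]
    (p : ℕ) [Fact p.Prime] [CharP F p]
    (ρ : Representation F G V) (hρ : ρ.IsIrreducible) (Q : Subgroup G)
    (σ : Representation F Q W) (h : IsVertexSource ρ Q σ) {Z : Type*} [CommGroup Z]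
    (ι : Z →* Q) (hι : ∀ (x : Z) (q : Q), q * ι x = ι x * q) (hinj : Function.Injective ι)
    {S : Type*} [Fintype S] (f : S → Z) (s0 : S)
    (γ : ∀ g ∈ Subgroup.normalizer (Q : Set G), Z →* Z)
    (hγ : ∀ g (hg : g ∈ Subgroup.normalizer (Q : Set G)) (x : Z),
      ((ι (γ g hg x) : Q) : G) = g * ((ι x : Q) : G) * g⁻¹)
    (e : ∀ g ∈ Subgroup.normalizer (Q : Set G), S ≃ S)
    (he : ∀ g (hg : g ∈ Subgroup.normalizer (Q : Set G)) (s : S), f (e g hg s) = γ g hg (f s)) :
    ((ρ ((ι (f s0) : Q) : G) - 1 : Module.End F V) ^ (Fintype.card S)) ∈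
      trI (res ρ Q) (res ρ Q) := by
  classical
  have hQ : IsPGroup p Q := vertex_isPGroup p ρ Q h.vertex
  set c : S → MonoidAlgebra F Z := fun s => MonoidAlgebra.single (f s) 1 - 1 with hc
  have hnil : ∀ s, IsNilpotent (c s) := by
    intro s
    obtain ⟨m, hm⟩ := hQ (ι (f s))
    have hm' : (f s) ^ (p ^ m) = 1 := by
      apply hinj
      rw [map_pow, hm, map_one]
    exact cent_nilp p (f s) ⟨m, hm'⟩
  set P : Polynomial (MonoidAlgebra F Z) :=
    ∏ j, (Polynomial.X - Polynomial.C (c j)) with hP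
  -- the coefficients are invariant
  have hinv : ∀ g (hg : g ∈ Subgroup.normalizer (Q : Set G)) (i : ℕ),
      MonoidAlgebra.mapDomainAlgHom F F (γ g hg) (P.coeff i) = P.coeff i := by
    intro g hg i
    have h1 : P.map (MonoidAlgebra.mapDomainAlgHom F F (γ g hg) :
        MonoidAlgebra F Z →ₐ[F] MonoidAlgebra F Z).toRingHom = P := by
      rw [hP, Polynomial.map_prod]
      rw [← Equiv.prod_comp (e g hg) (fun j => (Polynomial.X - Polynomial.C (c j)))]
      apply Finset.prod_congr rfl
      intro j _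
      rw [Polynomial.map_sub, Polynomial.map_X, Polynomial.map_C]
      have h2 : (MonoidAlgebra.mapDomainAlgHom F F (γ g hg) :
          MonoidAlgebra F Z →ₐ[F] MonoidAlgebra F Z).toRingHom (c j) = c (e g hg j) := by
        change MonoidAlgebra.mapDomainAlgHom F F (γ g hg)
          (MonoidAlgebra.single (f j) 1 - 1) = MonoidAlgebra.single (f (e g hg j)) 1 - 1
        rw [map_sub, map_one, MonoidAlgebra.mapDomainAlgHom_apply,
          MonoidAlgebra.mapDomain_single, he]
      rw [h2]
    conv_rhs => rw [← h1]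
    rw [Polynomial.coeff_map]
    rfl
  -- the coefficients are in the trace ideal
  have hT : ∀ i < Fintype.card S, centMap ρ Q ι (P.coeff i) ∈ trI (res ρ Q) (res ρ Q) := by
    intro i hi
    have hE := centMap_eqv ρ Q ι hι (P.coeff i)
    obtain ⟨a, ha⟩ := fixed_scalar ρ hρ Q σ h (centMap ρ Q ι (P.coeff i)) hE (by
      intro g hg
      rw [← centMap_cj ρ Q ι g (γ g hg) (hγ g hg), hinv g hg i, sub_self]
      exact zero_mem _)
    have hn : IsNilpotent (centMap ρ Q ι (P.coeff i)) := (cent_coeff c hnil i hi).map _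
    obtain ⟨m, hm⟩ := hn
    have h2 := cent_pow_sub (res ρ Q) _ hE a ha m
    rw [hm] at h2
    by_cases ha0 : a = 0
    · rw [ha0, zero_smul, sub_zero] at ha
      exact ha
    · exfalso
      apply rep_not_mem ρ hρ Q σ h
      have h3 := (trI (res ρ Q) (res ρ Q)).smul_mem (-(a ^ m)⁻¹) h2
      have e : (-(a ^ m)⁻¹) • ((0 : Module.End F V) - a ^ m • LinearMap.id) =
          (LinearMap.id : V →ₗ[F] V) := by
        rw [zero_sub, smul_neg, neg_smul, neg_neg, smul_smul,
          inv_mul_cancel₀ (pow_ne_zero m ha0), one_smul]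
      rw [e] at h3
      exact h3
  have h1 := cent_rel c s0
  have h2 := congrArg (centMap ρ Q ι) h1
  have h3 : centMap ρ Q ι (c s0) = ρ ((ι (f s0) : Q) : G) - 1 := by
    change centMap ρ Q ι (MonoidAlgebra.single (f s0) 1 - 1) = _
    rw [map_sub, map_one, centMap_single]
  rw [map_pow, h3, map_neg, map_sum] at h2
  rw [h2]
  apply (trI (res ρ Q) (res ρ Q)).neg_mem
  apply Submodule.sum_mem
  intro i hi
  rw [map_mul, map_pow, h3]
  apply mem_trI_comp (res ρ Q) (res ρ Q) (res ρ Q) _ _ _ (hT i (Finset.mem_range.1 hi))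
  apply cent_eqv_pow
  rw [← h3]
  exact centMap_eqv ρ Q ι hι _

/-- ROW CENT. -/
theorem central_pow [IsAlgClosed F] [FiniteDimensional F V] [FiniteDimensional F W] [Finite G]
    (p : ℕ) [Fact p.Prime] [CharP F p]
    (ρ : Representation F G V) (hρ : ρ.IsIrreducible) (Q : Subgroup G)
    (σ : Representation F Q W) (h : IsVertexSource ρ Q σ) (z : Q)
    (hz : z ∈ Subgroup.center Q) :
    (σ z - 1) ^ (Nat.card {x : G | ∃ g ∈ Subgroup.normalizer (Q : Set G), x = g * z * g⁻¹}) ∈
      trI σ σ := by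
  classical
  change (σ z - 1) ^ (Nat.card (centOrb Q (z : G))) ∈ trI σ σ
  let ft : Fintype (centOrb Q (z : G)) := Fintype.ofFinite _
  rw [Nat.card_eq_fintype_card]
  let cg : CommGroup (Subgroup.center Q) :=
    { (inferInstance : Group (Subgroup.center Q)) with
      mul_comm := fun a b => Subtype.ext (Subgroup.mem_center_iff.1 b.2 (a : Q)) }
  have hz0 : (z : G) ∈ centOrb Q (z : G) := ⟨1, one_mem _, by simp⟩
  have hpow : ((ρ (z : G) - 1 : Module.End F V) ^ (Fintype.card (centOrb Q (z : G)))) ∈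
      trI (res ρ Q) (res ρ Q) :=
    central_pow_aux p ρ hρ Q σ h (Z := Subgroup.center Q) (Subgroup.center Q).subtype
      (fun x q => Subgroup.mem_center_iff.1 x.2 q) Subtype.val_injective
      (S := centOrb Q (z : G))
      (fun s => ⟨⟨(s : G), centOrb_mem Q z s s.2⟩, centOrb_center Q z hz s s.2⟩)
      ⟨(z : G), hz0⟩ (fun g hg => centConj Q g hg) (fun g hg x => rfl)
      (fun g hg => centOrbEquiv Q (z : G) g hg) (fun g hg s => rfl)
  obtain ⟨α, β, hα, hβ, hβα⟩ := source_split ρ hρ Q σ h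
  have h4 : ∀ m : ℕ, ((ρ (z : G) - 1 : Module.End F V) ^ m) ∘ₗ α =
      α ∘ₗ ((σ z - 1 : Module.End F W) ^ m) := by
    intro m
    induction m with
    | zero =>
      rw [pow_zero, pow_zero]
      rfl
    | succ m ih =>
      have h5 : (ρ (z : G) - 1 : Module.End F V) ∘ₗ α = α ∘ₗ (σ z - 1 : Module.End F W) := by
        have h6 := hα z
        have h6' : α ∘ₗ σ z = ρ (z : G) ∘ₗ α := h6
        rw [LinearMap.sub_comp, LinearMap.comp_sub, h6']
        rfl
      have e1 : ((ρ (z : G) - 1 : Module.End F V) ^ (m + 1)) ∘ₗ α =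
          ((ρ (z : G) - 1 : Module.End F V) ^ m) ∘ₗ ((ρ (z : G) - 1 : Module.End F V) ∘ₗ α) := by
        rw [pow_succ]
        rfl
      rw [e1, h5, ← LinearMap.comp_assoc, ih, pow_succ]
      rfl
  have h7 : β ∘ₗ (((ρ (z : G) - 1 : Module.End F V) ^ (Fintype.card (centOrb Q (z : G)))) ∘ₗ α) =
      ((σ z - 1 : Module.End F W) ^ (Fintype.card (centOrb Q (z : G)))) := by
    rw [h4, ← LinearMap.comp_assoc, hβα]
    exact LinearMap.id_comp _
  have h8 := mem_trI_comp σ (res ρ Q) (res ρ Q) _ α hα hpow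
  have h9 := comp_mem_trI σ (res ρ Q) σ _ β hβ h8
  rw [h7] at h9
  exact h9

end

end Pool.Agent.KFE
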