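import Pool.Agent.KFE.Defs

/-!
# KFE, row CTR: the relative trace from `Q ∩ C` to `C`
-/

open Representation

namespace Pool.Agent.KFE

open Pool.Agent.KFV

section

variable {F : Type*} [Field F] {G V W : Type*} [Group G] [AddCommGroup V] [Module F V]
  [AddCommGroup W] [Module F W]

private theorem rinv (ρ : Representation F G V) (h : G) (v : V) : ρ h⁻¹ (ρ h v) = v := by
  rw [← Module.End.mul_apply, ← map_mul, inv_mul_cancel, map_one]; rfl

private theorem rinv' (ρ : Representation F G V) (h : G) (v : V) : ρ h (ρ h⁻¹ v) = v := by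
  rw [← Module.End.mul_apply, ← map_mul, mul_inv_cancel, map_one]; rfl

private theorem rmul (ρ : Representation F G V) (g h : G) (v : V) : ρ (g * h) v = ρ g (ρ h v) := by
  rw [map_mul]; rfl

theorem cj_eqv (ρ : Representation F G V) (Q : Subgroup G) (g : G)
    (hg : g ∈ Subgroup.normalizer (Q : Set G)) (θ : V →ₗ[F] V) (h : Eqv (res ρ Q) (res ρ Q) θ) :
    Eqv (res ρ Q) (res ρ Q) (cj ρ g θ) := by
  intro q
  have hq : g⁻¹ * (q : G) * g ∈ Q := by
    have h2 := ((Subgroup.mem_normalizer_iff.1 hg) (g⁻¹ * q * g)).2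
    apply h2
    have h3 : g * (g⁻¹ * q * g) * g⁻¹ = q := by group
    rw [h3]; exact q.2
  have h1 : ∀ v, θ (ρ (g⁻¹ * (q : G) * g) v) = ρ (g⁻¹ * (q : G) * g) (θ v) := fun v =>
    LinearMap.congr_fun (h ⟨_, hq⟩) v
  unfold cj
  ext v
  show ρ g (θ (ρ g⁻¹ (ρ q v))) = ρ q (ρ g (θ (ρ g⁻¹ v)))
  have h2 : ρ g⁻¹ (ρ q v) = ρ (g⁻¹ * (q : G) * g) (ρ g⁻¹ v) := by
    rw [rmul, rmul, rinv']
  rw [h2, h1, ← rmul, ← rmul]
  congr 2
  group

theorem ctr_sum [Finite G] (ρ : Representation F G V) (Q : Subgroup G) : ∃ Z : Finset G,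
    (∀ z ∈ Z, z ∈ Subgroup.centralizer (Q : Set G)) ∧ ∀ θ : V →ₗ[F] V,
      ctr ρ Q θ = ∑ z ∈ Z, cj ρ z θ := by
  classical
  set C := Subgroup.centralizer (Q : Set G) with hC
  have : Fintype (C ⧸ Q.subgroupOf C) := Fintype.ofFinite _
  let f : C ⧸ Q.subgroupOf C → G := fun x => ((x.out : C) : G)
  have hf : Function.Injective f := by
    intro x y hxy
    have h1 : (x.out : C) = y.out := Subtype.ext hxy
    rw [← QuotientGroup.out_eq' x, ← QuotientGroup.out_eq' y, h1]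
  refine ⟨Finset.univ.image f, ?_, ?_⟩
  · intro z hz
    obtain ⟨x, _, rfl⟩ := Finset.mem_image.1 hz
    exact (x.out : C).2
  · intro θ
    rw [Finset.sum_image (fun x _ y _ hxy => hf hxy)]
    unfold ctr relTr
    rw [finsum_eq_sum_of_fintype]
    rfl

private theorem centralizer_le (Q : Subgroup G) (z : G)
    (hz : z ∈ Subgroup.centralizer (Q : Set G)) : z ∈ Subgroup.normalizer (Q : Set G) := by
  rw [Subgroup.mem_normalizer_iff]
  rw [Subgroup.mem_centralizer_iff] at hz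
  intro x
  constructor
  · intro hx
    have := hz x hx
    rw [← this]
    simpa using hx
  · intro hx
    have h1 := hz _ hx
    have h2 : z * x * z⁻¹ * z = z * x := by group
    rw [h2] at h1
    have h3 : z * x * z⁻¹ = x := by
      have h4 : z * (z * x * z⁻¹) = z * x := by rw [← h1]
      exact mul_left_cancel h4
    rw [← h3]; exact hx

theorem ctr_eqv [Finite G] (ρ : Representation F G V) (Q : Subgroup G) (θ : V →ₗ[F] V)
    (h : Eqv (res ρ Q) (res ρ Q) θ) : Eqv (res ρ Q) (res ρ Q) (ctr ρ Q θ) := by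
  obtain ⟨Z, hZ, hsum⟩ := ctr_sum ρ Q
  intro q
  rw [hsum θ]
  ext v
  show (∑ z ∈ Z, cj ρ z θ) (ρ q v) = ρ q ((∑ z ∈ Z, cj ρ z θ) v)
  rw [LinearMap.sum_apply, LinearMap.sum_apply, map_sum]
  refine Finset.sum_congr rfl (fun z hz => ?_)
  exact LinearMap.congr_fun (cj_eqv ρ Q z (centralizer_le Q z (hZ z hz)) θ h q) v

theorem ctr_comm [Finite G] (ρ : Representation F G V) (Q : Subgroup G) (θ : V →ₗ[F] V)
    (h : Eqv (res ρ Q) (res ρ Q) θ) (c : G)
    (hc : c ∈ Q ⊔ Subgroup.centralizer (Q : Set G)) : cj ρ c (ctr ρ Q θ) = ctr ρ Q θ := by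
  have key : ∀ g ∈ Q ⊔ Subgroup.centralizer (Q : Set G), ∀ v,
      ctr ρ Q θ (ρ g v) = ρ g (ctr ρ Q θ v) := by
    intro g hg
    rw [Subgroup.sup_eq_closure] at hg
    induction hg using Subgroup.closure_induction with
    | mem x hx =>
      intro v
      rcases hx with hx | hx
      · exact LinearMap.congr_fun (ctr_eqv ρ Q θ h ⟨x, hx⟩) v
      · have h1 : Eqv (res ρ (Subgroup.centralizer (Q : Set G)))
            (res ρ (Subgroup.centralizer (Q : Set G))) (ctr ρ Q θ) := by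
          apply relTr_eqv
          intro r hr
          exact h ⟨(r : G), hr⟩
        exact LinearMap.congr_fun (h1 ⟨x, hx⟩) v
    | one => intro v; simp
    | mul x y _ _ hx hy => intro v; rw [rmul, rmul, hx, hy]
    | inv x _ hx =>
      intro v
      have h1 := hx (ρ x⁻¹ v)
      rw [rinv'] at h1
      rw [h1, rinv]
  unfold cj
  ext v
  show ρ c (ctr ρ Q θ (ρ c⁻¹ v)) = ctr ρ Q θ v
  rw [← key c hc, rinv']

private theorem conj_mem (Q : Subgroup G) (g : G) (hg : g ∈ Subgroup.normalizer (Q : Set G))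
    (c : G) (hc : c ∈ Subgroup.centralizer (Q : Set G)) :
    g * c * g⁻¹ ∈ Subgroup.centralizer (Q : Set G) := by
  rw [Subgroup.mem_centralizer_iff] at hc ⊢
  intro q hq
  have h1 : g⁻¹ * q * g ∈ Q := by
    have h2 := ((Subgroup.mem_normalizer_iff.1 hg) (g⁻¹ * q * g)).2
    apply h2
    have h3 : g * (g⁻¹ * q * g) * g⁻¹ = q := by group
    rw [h3]; exact hq
  have h2 := hc _ h1
  calc q * (g * c * g⁻¹) = g * (g⁻¹ * q * g * c) * g⁻¹ := by group
    _ = g * (c * (g⁻¹ * q * g)) * g⁻¹ := by rw [h2]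
    _ = g * c * g⁻¹ * q := by group

private def ctrConj (Q : Subgroup G) (g : G) (hg : g ∈ Subgroup.normalizer (Q : Set G)) :
    Subgroup.centralizer (Q : Set G) ≃* Subgroup.centralizer (Q : Set G) where
  toFun q := ⟨g * q * g⁻¹, conj_mem Q g hg q q.2⟩
  invFun q := ⟨g⁻¹ * q * g, by
    have h := conj_mem Q g⁻¹ ((Subgroup.normalizer (Q : Set G)).inv_mem hg) q q.2
    rw [inv_inv] at h
    exact h⟩
  left_inv q := by
    apply Subtype.ext
    show g⁻¹ * (g * q * g⁻¹) * g = q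
    group
  right_inv q := by
    apply Subtype.ext
    show g * (g⁻¹ * q * g) * g⁻¹ = q
    group
  map_mul' q r := by
    apply Subtype.ext
    show g * ((q : G) * r) * g⁻¹ = (g * q * g⁻¹) * (g * r * g⁻¹)
    group

theorem ctr_cj [Finite G] (ρ : Representation F G V) (Q : Subgroup G) (θ : V →ₗ[F] V)
    (h : Eqv (res ρ Q) (res ρ Q) θ) (g : G) (hg : g ∈ Subgroup.normalizer (Q : Set G)) :
    cj ρ g (ctr ρ Q θ) = ctr ρ Q (cj ρ g θ) := by
  set C := Subgroup.centralizer (Q : Set G) with hC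
  set R : Subgroup C := Q.subgroupOf C with hR
  let φ := ctrConj Q g hg
  have hφR : ∀ x : C, φ x ∈ R ↔ x ∈ R := by
    intro x
    show g * (x : G) * g⁻¹ ∈ Q ↔ (x : G) ∈ Q
    exact ((Subgroup.mem_normalizer_iff.1 hg) x).symm
  have hE : ∀ r ∈ R, cj ρ g θ ∘ₗ res ρ C r = res ρ C r ∘ₗ cj ρ g θ := by
    intro r hr
    exact cj_eqv ρ Q g hg θ h ⟨(r : G), hr⟩
  let e : C ⧸ R → C ⧸ R := fun x => ((φ x.out : C) : C ⧸ R)
  have he : Function.Bijective e := by
    constructor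
    · intro x x' hxx
      have h1 : (φ x.out)⁻¹ * φ x'.out ∈ R := QuotientGroup.eq.1 hxx
      rw [← map_inv, ← map_mul, hφR] at h1
      rw [← QuotientGroup.out_eq' x, ← QuotientGroup.out_eq' x']
      exact QuotientGroup.eq.2 h1
    · intro y
      obtain ⟨q, rfl⟩ := QuotientGroup.mk_surjective y
      refine ⟨((φ.symm q : C) : C ⧸ R), ?_⟩
      apply QuotientGroup.eq.2
      have h1 : (((φ.symm q : C) : C ⧸ R).out)⁻¹ * φ.symm q ∈ R := by
        apply QuotientGroup.eq.1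
        rw [QuotientGroup.out_eq']
      rw [← hφR, map_mul, map_inv, MulEquiv.apply_symm_apply] at h1
      exact h1
  let E := Equiv.ofBijective e he
  have hsec : ctr ρ Q (cj ρ g θ) = _ :=
    relTr_eq_section (res ρ C) (res ρ C) R (cj ρ g θ) hE (fun y => φ (E.symm y).out)
      (fun y => E.apply_symm_apply y)
  rw [hsec]
  have : Fintype (C ⧸ R) := Fintype.ofFinite _
  have h1 : cj ρ g (ctr ρ Q θ) =
      ∑ᶠ x : C ⧸ R, cj ρ g (res ρ C x.out ∘ₗ θ ∘ₗ res ρ C x.out⁻¹) := by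
    unfold ctr relTr
    rw [finsum_eq_sum_of_fintype, finsum_eq_sum_of_fintype]
    unfold cj
    ext v
    simp [LinearMap.sum_apply]
    rfl
  rw [h1]
  refine finsum_eq_of_bijective e he (fun x => ?_)
  have h2 : E.symm (e x) = x := E.symm_apply_apply x
  have h3 : cj ρ g (res ρ C x.out ∘ₗ θ ∘ₗ res ρ C x.out⁻¹) =
      res ρ C (φ x.out) ∘ₗ cj ρ g θ ∘ₗ res ρ C (φ x.out)⁻¹ := by
    unfold cj
    ext v
    show ρ g (ρ ((x.out : C) : G) (θ (ρ ((x.out : C) : G)⁻¹ (ρ g⁻¹ v)))) =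
      ρ (g * ((x.out : C) : G) * g⁻¹)
        (ρ g (θ (ρ g⁻¹ (ρ (g * ((x.out : C) : G) * g⁻¹)⁻¹ v))))
    have e1 : ρ g⁻¹ (ρ (g * ((x.out : C) : G) * g⁻¹)⁻¹ v) =
        ρ ((x.out : C) : G)⁻¹ (ρ g⁻¹ v) := by
      rw [← rmul, ← rmul]
      congr 2
      group
    rw [e1]
    generalize θ (ρ ((x.out : C) : G)⁻¹ (ρ g⁻¹ v)) = w
    rw [← rmul, ← rmul]
    congr 2
    group
  rw [h3]
  show _ = res ρ C (φ (E.symm (e x)).out) ∘ₗ cj ρ g θ ∘ₗ res ρ C (φ (E.symm (e x)).out)⁻¹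
  rw [h2]

end

end Pool.Agent.KFE
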