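import Pool.Agent.KFE.Defs2
import Pool.Agent.KFV.TRA

/-!
# KFE: the relative trace from `Q` to the stabiliser of the source
-/

open Representation

namespace Pool.Agent.KFE

open Pool.Agent.KFV

section

variable {F : Type*} [Field F] {G V W : Type*} [Group G] [AddCommGroup V] [Module F V]
  [AddCommGroup W] [Module F W]

theorem ntr_sum [Finite G] (ρ : Representation F G V) (Q : Subgroup G)
    (σ : Representation F Q W) : ∃ Z : Finset G, (∀ z ∈ Z, z ∈ SL Q σ) ∧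
      ∀ θ : V →ₗ[F] V, ntr ρ Q σ θ = ∑ z ∈ Z, cj ρ z θ := by
  classical
  set C := SL Q σ with hC
  have : Fintype (C ⧸ Q.subgroupOf C) := Fintype.ofFinite _
  let f : C ⧸ Q.subgroupOf C → G := fun x => ((x.out : C) : G)
  have hf : Function.Injective f := by
    intro x y hxy
    have h1 : (x.out : C) = y.out := Subtype.ext hxy
    rw [← QuotientGroup.out_eq' x, ← QuotientGroup.out_eq' y, h1]
  refine ⟨Finset.univ.image f, ?_, ?_⟩
  · intro z hz
    obtain ⟨x, _, rfl⟩ := Finset.mem_image.1 hz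
    exact (x.out : C).2
  · intro θ
    rw [Finset.sum_image (fun x _ y _ hxy => hf hxy)]
    unfold ntr relTr
    rw [finsum_eq_sum_of_fintype]
    rfl

private theorem ntr_key [Finite G] (ρ : Representation F G V) (Q : Subgroup G)
    (σ : Representation F Q W) (θ : V →ₗ[F] V) (h : Eqv (res ρ Q) (res ρ Q) θ) :
    Eqv (res ρ (SL Q σ)) (res ρ (SL Q σ)) (ntr ρ Q σ θ) := by
  apply relTr_eqv
  intro r hr
  exact h ⟨(r : G), hr⟩

theorem ntr_inv [Finite G] (ρ : Representation F G V) (Q : Subgroup G)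
    (σ : Representation F Q W) (θ : V →ₗ[F] V) (h : Eqv (res ρ Q) (res ρ Q) θ) (g : G)
    (hg : g ∈ SL Q σ) : cj ρ g (ntr ρ Q σ θ) = ntr ρ Q σ θ := by
  have h1 := ntr_key ρ Q σ θ h ⟨g, hg⟩
  unfold cj
  ext v
  have h2 := LinearMap.congr_fun h1 (ρ g⁻¹ v)
  have h3 : ρ g (ρ g⁻¹ v) = v := by
    have h4 := map_mul ρ g g⁻¹
    rw [mul_inv_cancel, map_one] at h4
    exact (LinearMap.congr_fun h4 v).symm
  have h5 : ntr ρ Q σ θ (ρ g (ρ g⁻¹ v)) = ρ g (ntr ρ Q σ θ (ρ g⁻¹ v)) := h2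
  rw [h3] at h5
  exact h5.symm

theorem ntr_eqv [Finite G] (ρ : Representation F G V) (Q : Subgroup G)
    (σ : Representation F Q W) (θ : V →ₗ[F] V) (h : Eqv (res ρ Q) (res ρ Q) θ) :
    Eqv (res ρ Q) (res ρ Q) (ntr ρ Q σ θ) := by
  intro q
  exact ntr_key ρ Q σ θ h ⟨(q : G), Q_le_SL Q σ q.2⟩

end

end Pool.Agent.KFE
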