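import Pool.Agent.KFE.Jac
import Pool.Agent.KFE.Ntr
import Pool.Agent.KFE.Ctr

/-!
# KFE, row CROSS: products of the traced projection with its outer conjugates
-/

open Representation

namespace Pool.Agent.KFE

open Pool.Agent.KFV

section

variable {F : Type*} [Field F] {G V W : Type*} [Group G] [AddCommGroup V] [Module F V]
  [AddCommGroup W] [Module F W]

private theorem xinv (ρ : Representation F G V) (h : G) (v : V) : ρ h⁻¹ (ρ h v) = v := by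
  rw [← Module.End.mul_apply, ← map_mul, inv_mul_cancel, map_one]; rfl

private theorem xinv' (ρ : Representation F G V) (h : G) (v : V) : ρ h (ρ h⁻¹ v) = v := by
  rw [← Module.End.mul_apply, ← map_mul, mul_inv_cancel, map_one]; rfl

private theorem xmul (ρ : Representation F G V) (g h : G) (v : V) :
    ρ (g * h) v = ρ g (ρ h v) := by
  rw [map_mul]; rfl

/-- The middle map is twisted equivariant. -/
private theorem tw_mid (ρ : Representation F G V) (Q : Subgroup G) (σ : Representation F Q W)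
    (α : W →ₗ[F] V) (β : V →ₗ[F] W) (hα : Eqv σ (res ρ Q) α) (hβ : Eqv (res ρ Q) σ β) (g : G) :
    Tw σ g (β ∘ₗ ρ g ∘ₗ α) := by
  intro q q' hq
  ext w
  have h1 : α (σ q w) = ρ (q : G) (α w) := LinearMap.congr_fun (hα q) w
  have h2 : ∀ v, β (ρ (q' : G) v) = σ q' (β v) := fun v => LinearMap.congr_fun (hβ q') v
  show β (ρ g (α (σ q w))) = σ q' (β (ρ g (α w)))
  rw [h1, ← h2, ← xmul, ← xmul, hq]
  congr 2
  group

private theorem tw_not_bij (ρ : Representation F G V) (Q : Subgroup G)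
    (σ : Representation F Q W) (α : W →ₗ[F] V) (β : V →ₗ[F] W) (hα : Eqv σ (res ρ Q) α)
    (hβ : Eqv (res ρ Q) σ β) (g : G) (hg : g ∈ Subgroup.normalizer (Q : Set G))
    (hgS : g ∉ SL Q σ) : ¬ Function.Bijective (β ∘ₗ ρ g ∘ₗ α : W →ₗ[F] W) := fun hb =>
  hgS ⟨hg, _, hb, tw_mid ρ Q σ α β hα hβ g⟩

/-- The key product. -/
private theorem key_jac [FiniteDimensional F V] [FiniteDimensional F W]
    (ρ : Representation F G V) (Q : Subgroup G) (σ : Representation F Q W) (h : Indec σ)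
    (α : W →ₗ[F] V) (β : V →ₗ[F] W) (hα : Eqv σ (res ρ Q) α) (hβ : Eqv (res ρ Q) σ β) (g : G)
    (hg : g ∈ Subgroup.normalizer (Q : Set G)) (hgS : g ∉ SL Q σ) :
    (α ∘ₗ β) ∘ₗ cj ρ g (α ∘ₗ β) ∈ jac ρ Q := by
  have hab : Eqv (res ρ Q) (res ρ Q) (α ∘ₗ β) := hα.comp hβ
  have hE : Eqv (res ρ Q) (res ρ Q) ((α ∘ₗ β) ∘ₗ cj ρ g (α ∘ₗ β)) :=
    hab.comp (cj_eqv ρ Q g hg _ hab)
  refine ⟨⟨(α ∘ₗ β) ∘ₗ cj ρ g (α ∘ₗ β), (mem_endAlg ρ Q _).2 hE⟩, ?_, rfl⟩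
  refine mem_jacobson_of_nilpotent (R := endAlg ρ Q) _ ?_
  rintro ⟨y, hy⟩
  have hyE : Eqv (res ρ Q) (res ρ Q) y := (mem_endAlg ρ Q y).1 hy
  have hb := tw_not_bij ρ Q σ α β hα hβ g hg hgS
  -- the endomorphism `β g⁻¹ y α β g α`
  have h1 : Eqv σ σ (β ∘ₗ cj ρ g⁻¹ (y ∘ₗ α ∘ₗ β) ∘ₗ α) :=
    hβ.comp (Eqv.comp (cj_eqv ρ Q g⁻¹ (Subgroup.inv_mem _ hg) _ (hyE.comp hab)) hα)
  have h2 : (β ∘ₗ cj ρ g⁻¹ (y ∘ₗ α ∘ₗ β) ∘ₗ α : W →ₗ[F] W) =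
      (β ∘ₗ ρ g⁻¹ ∘ₗ y ∘ₗ α) ∘ₗ (β ∘ₗ ρ g ∘ₗ α) := by
    ext w
    simp [cj]
  have hnil : IsNilpotent (y * ((α ∘ₗ β) ∘ₗ cj ρ g (α ∘ₗ β) : Module.End F V)) := by
    rcases h.bijective_or_nilpotent (β ∘ₗ cj ρ g⁻¹ (y ∘ₗ α ∘ₗ β) ∘ₗ α) h1 with h3 | ⟨k, hk⟩
    · exfalso
      apply hb
      have h4 : Function.Injective (β ∘ₗ ρ g ∘ₗ α : W →ₗ[F] W) := by
        intro a b hab'
        apply h3.1
        rw [h2]
        show (β ∘ₗ ρ g⁻¹ ∘ₗ y ∘ₗ α) ((β ∘ₗ ρ g ∘ₗ α) a) =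
          (β ∘ₗ ρ g⁻¹ ∘ₗ y ∘ₗ α) ((β ∘ₗ ρ g ∘ₗ α) b)
        rw [hab']
      exact ⟨h4, LinearMap.injective_iff_surjective.1 h4⟩
    · refine ⟨k + 1, ?_⟩
      have h3 : ∀ m : ℕ, (y * ((α ∘ₗ β) ∘ₗ cj ρ g (α ∘ₗ β) : Module.End F V)) ^ (m + 1) =
          (y ∘ₗ α ∘ₗ β ∘ₗ ρ g ∘ₗ α) ∘ₗ
            ((β ∘ₗ cj ρ g⁻¹ (y ∘ₗ α ∘ₗ β) ∘ₗ α : Module.End F W) ^ m) ∘ₗ β ∘ₗ ρ g⁻¹ := by
        intro m
        induction m with
        | zero => ext v; simp [cj]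
        | succ m ih =>
          rw [pow_succ, ih, pow_succ]
          ext v
          simp [cj]
      rw [h3, hk]
      ext v
      simp
  obtain ⟨k, hk⟩ := hnil
  refine ⟨k, Subtype.ext ?_⟩
  exact hk

private theorem cj_mul' (ρ : Representation F G V) (g h : G) (θ : V →ₗ[F] V) :
    cj ρ (g * h) θ = cj ρ g (cj ρ h θ) := by
  unfold cj
  ext v
  show ρ (g * h) (θ (ρ (g * h)⁻¹ v)) = ρ g (ρ h (θ (ρ h⁻¹ (ρ g⁻¹ v))))
  rw [mul_inv_rev, xmul, xmul]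

private theorem cj_comp' (ρ : Representation F G V) (g : G) (θ η : V →ₗ[F] V) :
    cj ρ g (θ ∘ₗ η) = cj ρ g θ ∘ₗ cj ρ g η := by
  unfold cj
  ext v
  show ρ g (θ (η (ρ g⁻¹ v))) = ρ g (θ (ρ g⁻¹ (ρ g (η (ρ g⁻¹ v)))))
  rw [xinv]

private theorem cj_sum' {ι : Type*} (ρ : Representation F G V) (g : G) (s : Finset ι)
    (f : ι → V →ₗ[F] V) : cj ρ g (∑ i ∈ s, f i) = ∑ i ∈ s, cj ρ g (f i) := by
  unfold cj
  ext v
  simp [LinearMap.sum_apply, map_sum]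

private theorem sum_comp' {ι X Y Z : Type*} [AddCommGroup X] [Module F X] [AddCommGroup Y]
    [Module F Y] [AddCommGroup Z] [Module F Z] (s : Finset ι) (f : ι → Y →ₗ[F] Z)
    (g : X →ₗ[F] Y) : (∑ i ∈ s, f i) ∘ₗ g = ∑ i ∈ s, f i ∘ₗ g := by
  ext v
  simp [LinearMap.sum_apply]

private theorem comp_sum' {ι X Y Z : Type*} [AddCommGroup X] [Module F X] [AddCommGroup Y]
    [Module F Y] [AddCommGroup Z] [Module F Z] (s : Finset ι) (f : ι → X →ₗ[F] Y)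
    (g : Y →ₗ[F] Z) : g ∘ₗ (∑ i ∈ s, f i) = ∑ i ∈ s, g ∘ₗ f i := by
  ext v
  simp [LinearMap.sum_apply, map_sum]

/-- ROW CROSS (file Cross.lean), two statements. Uses JAC, NTR. -/
theorem cross_jac [Finite G] [FiniteDimensional F V] [FiniteDimensional F W]
    (ρ : Representation F G V) (Q : Subgroup G) (σ : Representation F Q W) (h : Indec σ)
    (α : W →ₗ[F] V) (β : V →ₗ[F] W) (hα : Eqv σ (res ρ Q) α) (hβ : Eqv (res ρ Q) σ β) (y : G)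
    (hy : y ∈ Subgroup.normalizer (Q : Set G)) (hyS : y ∉ SL Q σ) :
    ntr ρ Q σ (α ∘ₗ β) ∘ₗ cj ρ y (ntr ρ Q σ (α ∘ₗ β)) ∈ jac ρ Q := by
  obtain ⟨Z, hZ, hsum⟩ := ntr_sum ρ Q σ
  have h1 : ntr ρ Q σ (α ∘ₗ β) ∘ₗ cj ρ y (ntr ρ Q σ (α ∘ₗ β)) =
      ∑ z ∈ Z, ∑ z' ∈ Z, cj ρ z ((α ∘ₗ β) ∘ₗ cj ρ (z⁻¹ * y * z') (α ∘ₗ β)) := by
    rw [hsum, cj_sum', sum_comp']
    refine Finset.sum_congr rfl fun z _ => ?_
    rw [comp_sum']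
    refine Finset.sum_congr rfl fun z' _ => ?_
    rw [cj_comp', ← cj_mul', ← cj_mul']
    congr 2
    group
  rw [h1]
  refine Submodule.sum_mem _ fun z hz => Submodule.sum_mem _ fun z' hz' => ?_
  have hzN := SL_le Q σ (hZ z hz)
  have hzN' := SL_le Q σ (hZ z' hz')
  refine jac_cj ρ Q _ (key_jac ρ Q σ h α β hα hβ _ ?_ ?_) z hzN
  · exact Subgroup.mul_mem _ (Subgroup.mul_mem _ (Subgroup.inv_mem _ hzN) hy) hzN'
  · intro hmem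
    apply hyS
    have h2 : y = z * (z⁻¹ * y * z') * z'⁻¹ := by group
    rw [h2]
    exact Subgroup.mul_mem _ (Subgroup.mul_mem _ (hZ z hz) hmem)
      (Subgroup.inv_mem _ (hZ z' hz'))

theorem cross_nonunit [Finite G] [FiniteDimensional F V] [FiniteDimensional F W]
    (ρ : Representation F G V) (Q : Subgroup G) (σ : Representation F Q W) (h : Indec σ)
    (α : W →ₗ[F] V) (β : V →ₗ[F] W) (hα : Eqv σ (res ρ Q) α) (hβ : Eqv (res ρ Q) σ β)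
    (N : Submodule F (W →ₗ[F] W)) (hN : ∀ θ, θ ∈ N ↔ Eqv σ σ θ ∧ ¬ Function.Bijective θ)
    (α' : W →ₗ[F] V) (β' : V →ₗ[F] W) (hα' : Eqv σ (res ρ Q) α') (hβ' : Eqv (res ρ Q) σ β')
    (y : G) (hy : y ∈ Subgroup.normalizer (Q : Set G)) (hyS : y ∉ SL Q σ) :
    β' ∘ₗ cj ρ y (ntr ρ Q σ (α ∘ₗ β)) ∘ₗ α' ∈ N := by
  obtain ⟨Z, hZ, hsum⟩ := ntr_sum ρ Q σ
  have h1 : β' ∘ₗ cj ρ y (ntr ρ Q σ (α ∘ₗ β)) ∘ₗ α' =
      ∑ z ∈ Z, β' ∘ₗ cj ρ (y * z) (α ∘ₗ β) ∘ₗ α' := by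
    rw [hsum, cj_sum', sum_comp', comp_sum']
    refine Finset.sum_congr rfl fun z _ => ?_
    rw [cj_mul']
  rw [h1]
  refine Submodule.sum_mem _ fun z hz => ?_
  have hyz : y * z ∈ Subgroup.normalizer (Q : Set G) :=
    Subgroup.mul_mem _ hy (SL_le Q σ (hZ z hz))
  have hyzS : (y * z)⁻¹ ∉ SL Q σ := by
    intro hmem
    apply hyS
    have h2 : y = (y * z)⁻¹⁻¹ * z⁻¹ := by group
    rw [h2]
    exact Subgroup.mul_mem _ (Subgroup.inv_mem _ hmem) (Subgroup.inv_mem _ (hZ z hz))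
  rw [hN]
  refine ⟨hβ'.comp (Eqv.comp (cj_eqv ρ Q _ hyz _ (hα.comp hβ)) hα'), fun hb => ?_⟩
  apply tw_not_bij ρ Q σ α' β hα' hβ (y * z)⁻¹ (Subgroup.inv_mem _ hyz) hyzS
  have h4 : Function.Injective (β ∘ₗ ρ (y * z)⁻¹ ∘ₗ α' : W →ₗ[F] W) := by
    intro a b hab'
    apply hb.1
    show β' (ρ (y * z) (α ((β ∘ₗ ρ (y * z)⁻¹ ∘ₗ α') a))) =
      β' (ρ (y * z) (α ((β ∘ₗ ρ (y * z)⁻¹ ∘ₗ α') b)))
    rw [hab']
  exact ⟨h4, LinearMap.injective_iff_surjective.1 h4⟩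

end

end Pool.Agent.KFE
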