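import Pool.Agent.KFE.Defs2

/-!
# KFE: decomposition of the identity over the cosets of the stabiliser
-/

open Representation

namespace Pool.Agent.KFE

open Pool.Agent.KFV

section

variable {F : Type*} [Field F] {G V W : Type*} [Group G] [AddCommGroup V] [Module F V]
  [AddCommGroup W] [Module F W]

private theorem db_cj_mul (ρ : Representation F G V) (g h : G) (θ : V →ₗ[F] V) :
    cj ρ (g * h) θ = ρ g ∘ₗ cj ρ h θ ∘ₗ ρ g⁻¹ := by
  unfold cj
  rw [mul_inv_rev, map_mul, map_mul]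
  rfl

private theorem db_cj_mem (ρ : Representation F G V) (Q : Subgroup G) (c : V →ₗ[F] V)
    (hc : Eqv (res ρ Q) (res ρ Q) c) (r : G) (hr : r ∈ Q) : cj ρ r c = c := by
  unfold cj
  have h1 : c ∘ₗ ρ r⁻¹ = ρ r⁻¹ ∘ₗ c := hc ⟨r⁻¹, Q.inv_mem hr⟩
  rw [h1, ← LinearMap.comp_assoc]
  have : ρ r ∘ₗ ρ r⁻¹ = LinearMap.id := by
    rw [← Module.End.mul_eq_comp, ← map_mul, mul_inv_cancel, map_one]; rfl
  rw [this, LinearMap.id_comp]

private theorem db_cj_congr (ρ : Representation F G V) (Q : Subgroup G) (c : V →ₗ[F] V)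
    (hc : Eqv (res ρ Q) (res ρ Q) c) (g h : G) (hgh : (g : G ⧸ Q) = h) :
    cj ρ g c = cj ρ h c := by
  have h1 : g⁻¹ * h ∈ Q := QuotientGroup.eq.1 hgh
  have h2 : h = g * (g⁻¹ * h) := by group
  rw [h2, db_cj_mul, db_cj_mem ρ Q c hc _ h1]
  rfl

/-- the function on the cosets -/
private noncomputable def dbf (ρ : Representation F G V) (Q : Subgroup G) (c : V →ₗ[F] V)
    (x : G ⧸ Q) : V →ₗ[F] V := cj ρ x.out c

private theorem dbf_smul (ρ : Representation F G V) (Q : Subgroup G) (c : V →ₗ[F] V)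
    (hc : Eqv (res ρ Q) (res ρ Q) c) (g : G) (x : G ⧸ Q) :
    dbf ρ Q c (g • x) = ρ g ∘ₗ dbf ρ Q c x ∘ₗ ρ g⁻¹ := by
  unfold dbf
  rw [← db_cj_mul]
  apply db_cj_congr ρ Q c hc
  rw [QuotientGroup.out_eq']
  conv_lhs => rw [← QuotientGroup.out_eq' x]
  rfl

private theorem db_norm [Finite G] (Q : Subgroup G) (g : G)
    (h : ∀ q : Q, (q : G) • (g : G ⧸ Q) = (g : G ⧸ Q)) :
    g ∈ Subgroup.normalizer (Q : Set G) := by
  have h1 : ∀ q ∈ Q, g⁻¹ * q * g ∈ Q := by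
    intro q hq
    have h2 := h ⟨q⁻¹, Q.inv_mem hq⟩
    have h3 : ((q⁻¹ * g : G) : G ⧸ Q) = (g : G ⧸ Q) := h2
    have h4 := QuotientGroup.eq.1 h3
    have h5 : (q⁻¹ * g)⁻¹ * g = g⁻¹ * q * g := by group
    rwa [h5] at h4
  have h2 : g⁻¹ ∈ Subgroup.normalizer (Q : Set G) := by
    apply Subgroup.mem_normalizer_fintype
    intro n hn
    have := h1 n hn
    rw [inv_inv]
    exact this
  have := (Subgroup.normalizer (Q : Set G)).inv_mem h2
  rwa [inv_inv] at this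

private theorem db_norm' (Q : Subgroup G) (g : G) (h : g ∈ Subgroup.normalizer (Q : Set G))
    (q : Q) : (q : G) • (g : G ⧸ Q) = (g : G ⧸ Q) := by
  show ((q * g : G) : G ⧸ Q) = (g : G ⧸ Q)
  rw [QuotientGroup.eq]
  have h1 : ((q : G) * g)⁻¹ * g = g⁻¹ * ((q : G)⁻¹) * g := by group
  rw [h1]
  exact (Subgroup.mem_normalizer_iff''.1 h _).1 (Q.inv_mem q.2)

/-- The sum over the fixed points. -/
private theorem db_split [Finite G] (ρ : Representation F G V) (Q : Subgroup G)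
    [Fintype (G ⧸ Q)] (c : V →ₗ[F] V) (hc : Eqv (res ρ Q) (res ρ Q) c) (h : relTr ρ ρ Q c = LinearMap.id)
    [DecidablePred fun x : G ⧸ Q => ∀ q : Q, (q : G) • x = x] :
    LinearMap.id - ∑ x : G ⧸ Q, (if ∀ q : Q, (q : G) • x = x then dbf ρ Q c x else 0) ∈
      trI (res ρ Q) (res ρ Q) := by
  set f : G ⧸ Q → V →ₗ[F] V := dbf ρ Q c with hf
  have hsm : ∀ (g : G) (x : G ⧸ Q), f (g • x) = ρ g ∘ₗ f x ∘ₗ ρ g⁻¹ := dbf_smul ρ Q c hc
  have hid : LinearMap.id = ∑ x : G ⧸ Q, f x := by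
    rw [← h]
    unfold relTr
    rw [finsum_eq_sum_of_fintype]
    rfl
  set Fx : G ⧸ Q → Prop := fun x => ∀ q : Q, (q : G) • x = x with hFx
  set f0 : G ⧸ Q → V →ₗ[F] V := fun x => if Fx x then 0 else f x with hf0
  set f1 : G ⧸ Q → V →ₗ[F] V := fun x => if Fx x then f x else 0 with hf1
  have hsplit : LinearMap.id - ∑ x, f1 x = ∑ x, f0 x := by
    rw [hid, ← Finset.sum_sub_distrib]
    refine Finset.sum_congr rfl (fun x _ => ?_)
    simp only [hf0, hf1]
    split_ifs <;> simp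
  have hmem0 : ∑ x, f0 x ∈ trI (res ρ Q) (res ρ Q) := by
    have := orbit_sum_mem (Ω := G ⧸ Q) (res ρ Q) (res ρ Q) f0 ?_ (trI (res ρ Q) (res ρ Q))
      le_rfl ?_
    · rwa [finsum_eq_sum_of_fintype] at this
    · intro p x
      have hp : p • x = (p : G) • x := rfl
      have hiff : Fx ((p : G) • x) ↔ Fx x := by
        constructor
        · intro h q
          have h1 := h (p * q * p⁻¹)
          have h2 : ((p * q * p⁻¹ : Q) : G) • (p : G) • x = (p : G) • ((q : G) • x) := by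
            rw [smul_smul, smul_smul]; congr 1; push_cast; group
          rw [h2] at h1
          exact smul_left_cancel _ h1
        · intro h q
          have h1 := h (p⁻¹ * q * p)
          have h2 : ((p⁻¹ * q * p : Q) : G) • x = (p : G)⁻¹ • ((q : G) • (p : G) • x) := by
            rw [smul_smul, smul_smul]; congr 1
          rw [h2] at h1
          rw [inv_smul_eq_iff] at h1
          exact h1
      rw [hp]
      simp only [hf0]
      by_cases hx : Fx x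
      · rw [if_pos (hiff.2 hx), if_pos hx]; simp
      · rw [if_neg (fun h => hx (hiff.1 h)), if_neg hx, hsm]; rfl
    · intro x hx
      have : Fx x := fun q => hx q
      simp only [hf0, if_pos this]
      exact Submodule.zero_mem _
  rw [← hsplit] at hmem0
  convert hmem0

/-- The conjugate of the relative trace as a sum over cosets of `Q`. -/
private theorem db_ntr [Finite G] (ρ : Representation F G V) (Q : Subgroup G)
    [Fintype (G ⧸ Q)] (σ : Representation F Q W) (c : V →ₗ[F] V)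
    (hc : Eqv (res ρ Q) (res ρ Q) c) (y : G)
    [DecidablePred fun x : G ⧸ Q => y⁻¹ * x.out ∈ SL Q σ] :
    cj ρ y (ntr ρ Q σ c) = ∑ x : G ⧸ Q, (if y⁻¹ * x.out ∈ SL Q σ then dbf ρ Q c x else 0) := by
  classical
  have hft : Fintype (SL Q σ ⧸ Q.subgroupOf (SL Q σ)) := Fintype.ofFinite _
  have e1 : cj ρ y (ntr ρ Q σ c) = ∑ z : SL Q σ ⧸ Q.subgroupOf (SL Q σ), cj ρ (y * (z.out : SL Q σ)) c := by
    unfold ntr relTr
    rw [finsum_eq_sum_of_fintype]
    ext v
    show ρ y ((∑ z, _ : V →ₗ[F] V) (ρ y⁻¹ v)) = _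
    rw [LinearMap.sum_apply, LinearMap.sum_apply, map_sum]
    refine Finset.sum_congr rfl fun z _ => ?_
    unfold cj
    rw [mul_inv_rev, map_mul, map_mul]
    rfl
  rw [e1, ← Finset.sum_filter (fun x : G ⧸ Q => y⁻¹ * x.out ∈ SL Q σ) (fun x => dbf ρ Q c x)]
  refine Finset.sum_bij (fun z _ => ((y * (z.out : SL Q σ) : G) : G ⧸ Q)) ?_ ?_ ?_ ?_
  · intro z _
    rw [Finset.mem_filter]
    refine ⟨Finset.mem_univ _, ?_⟩
    have h1 : (y * (z.out : SL Q σ) : G)⁻¹ * ((y * (z.out : SL Q σ) : G) : G ⧸ Q).out ∈ Q := by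
      rw [← QuotientGroup.eq, QuotientGroup.out_eq']
    have h2 := Q_le_SL Q σ h1
    have h3 : y⁻¹ * ((y * (z.out : SL Q σ) : G) : G ⧸ Q).out =
        (z.out : SL Q σ) * ((y * (z.out : SL Q σ) : G)⁻¹ * ((y * (z.out : SL Q σ) : G) : G ⧸ Q).out) := by
      group
    rw [h3]
    exact (SL Q σ).mul_mem (z.out : SL Q σ).2 h2
  · intro z _ z' _ hzz
    have h1 := QuotientGroup.eq.1 hzz
    have h2 : (y * ((z.out : SL Q σ) : G))⁻¹ * (y * ((z'.out : SL Q σ) : G)) =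
        ((z.out : SL Q σ) : G)⁻¹ * ((z'.out : SL Q σ) : G) := by
      group
    rw [h2] at h1
    rw [← QuotientGroup.out_eq' z, ← QuotientGroup.out_eq' z', QuotientGroup.eq,
      Subgroup.mem_subgroupOf, Subgroup.coe_mul, Subgroup.coe_inv]
    exact h1
  · intro x hx
    have hx := (Finset.mem_filter.1 hx).2
    refine ⟨((⟨y⁻¹ * x.out, hx⟩ : SL Q σ) : SL Q σ ⧸ Q.subgroupOf (SL Q σ)), Finset.mem_univ _, ?_⟩
    have h1 : ((⟨y⁻¹ * x.out, hx⟩ : SL Q σ))⁻¹ *
        (((⟨y⁻¹ * x.out, hx⟩ : SL Q σ) : SL Q σ ⧸ Q.subgroupOf (SL Q σ)).out) ∈ Q.subgroupOf (SL Q σ) := by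
      rw [← QuotientGroup.eq, QuotientGroup.out_eq']
    rw [Subgroup.mem_subgroupOf] at h1
    conv_rhs => rw [← QuotientGroup.out_eq' x]
    symm
    show ((x.out : G) : G ⧸ Q) = _
    rw [QuotientGroup.eq]
    have h2 : x.out⁻¹ * (y * ((((⟨y⁻¹ * x.out, hx⟩ : SL Q σ) : SL Q σ ⧸ Q.subgroupOf (SL Q σ)).out : SL Q σ) : G)) =
        (((⟨y⁻¹ * x.out, hx⟩ : SL Q σ))⁻¹ *
        (((⟨y⁻¹ * x.out, hx⟩ : SL Q σ) : SL Q σ ⧸ Q.subgroupOf (SL Q σ)).out) : SL Q σ) := by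
      push_cast
      group
    rw [h2]
    exact h1
  · intro z _
    unfold dbf
    apply db_cj_congr ρ Q c hc
    rw [QuotientGroup.out_eq']

/-- ROW DECB (file Decb.lean). -/
theorem dec_stab [Finite G] (ρ : Representation F G V) (Q : Subgroup G)
    (σ : Representation F Q W) (c : V →ₗ[F] V) (hc : Eqv (res ρ Q) (res ρ Q) c)
    (h : relTr ρ ρ Q c = LinearMap.id) :
    ∃ Y : Finset G, 1 ∈ Y ∧ (∀ y ∈ Y, y ∈ Subgroup.normalizer (Q : Set G)) ∧
      (∀ y ∈ Y, ∀ y' ∈ Y, y⁻¹ * y' ∈ SL Q σ → y = y') ∧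
      (∀ g ∈ Subgroup.normalizer (Q : Set G), ∃ y ∈ Y, y⁻¹ * g ∈ SL Q σ) ∧
      LinearMap.id - ∑ y ∈ Y, cj ρ y (ntr ρ Q σ c) ∈ trI (res ρ Q) (res ρ Q) := by
  classical
  have hfin : Fintype (G ⧸ Q) := Fintype.ofFinite _
  have hfinS : Fintype (G ⧸ SL Q σ) := Fintype.ofFinite _
  -- representatives of the cosets of the stabiliser
  let r : G ⧸ SL Q σ → G := fun u => if u = ((1 : G) : G ⧸ SL Q σ) then 1 else u.out
  have hr : ∀ u : G ⧸ SL Q σ, ((r u : G) : G ⧸ SL Q σ) = u := by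
    intro u
    simp only [r]
    split_ifs with hu
    · exact hu.symm
    · exact QuotientGroup.out_eq' u
  let I : Finset (G ⧸ SL Q σ) := Finset.univ.filter
    (fun u => ∃ g ∈ Subgroup.normalizer (Q : Set G), ((g : G) : G ⧸ SL Q σ) = u)
  have hN : ∀ u ∈ I, r u ∈ Subgroup.normalizer (Q : Set G) := by
    intro u hu
    obtain ⟨g, hg, hgu⟩ := (Finset.mem_filter.1 hu).2
    have h1 : (r u)⁻¹ * g ∈ SL Q σ := by
      rw [← QuotientGroup.eq, hr, hgu]
    have h2 := SL_le Q σ h1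
    have h3 : r u = g * ((r u)⁻¹ * g)⁻¹ := by group
    rw [h3]
    exact Subgroup.mul_mem _ hg (Subgroup.inv_mem _ h2)
  have hY1 : ∀ y ∈ I.image r, ∀ y' ∈ I.image r, y⁻¹ * y' ∈ SL Q σ → y = y' := by
    intro y hy y' hy' hyy
    obtain ⟨u, _, rfl⟩ := Finset.mem_image.1 hy
    obtain ⟨u', _, rfl⟩ := Finset.mem_image.1 hy'
    have h1 := QuotientGroup.eq.2 hyy
    rw [hr, hr] at h1
    rw [h1]
  have hY2 : ∀ g ∈ Subgroup.normalizer (Q : Set G), ∃ y ∈ I.image r, y⁻¹ * g ∈ SL Q σ := by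
    intro g hg
    refine ⟨r (g : G ⧸ SL Q σ), Finset.mem_image.2 ⟨_, ?_, rfl⟩, ?_⟩
    · exact Finset.mem_filter.2 ⟨Finset.mem_univ _, g, hg, rfl⟩
    · rw [← QuotientGroup.eq, hr]
  refine ⟨I.image r, ?_, ?_, hY1, hY2, ?_⟩
  · refine Finset.mem_image.2 ⟨((1 : G) : G ⧸ SL Q σ), ?_, ?_⟩
    · exact Finset.mem_filter.2 ⟨Finset.mem_univ _, 1, Subgroup.one_mem _, rfl⟩
    · simp only [r, if_pos]
  · intro y hy
    obtain ⟨u, hu, rfl⟩ := Finset.mem_image.1 hy
    exact hN u hu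
  · have hsum : ∑ y ∈ I.image r, cj ρ y (ntr ρ Q σ c) =
        ∑ x : G ⧸ Q, (if ∀ q : Q, (q : G) • x = x then dbf ρ Q c x else 0) := by
      rw [Finset.sum_congr rfl (fun y _ => db_ntr ρ Q σ c hc y), Finset.sum_comm]
      refine Finset.sum_congr rfl fun x _ => ?_
      by_cases hx : ∀ q : Q, (q : G) • x = x
      · rw [if_pos hx]
        have hxN : x.out ∈ Subgroup.normalizer (Q : Set G) := by
          apply db_norm
          intro q
          rw [QuotientGroup.out_eq']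
          exact hx q
        obtain ⟨y₀, hy₀, hy₀x⟩ := hY2 _ hxN
        rw [Finset.sum_eq_single_of_mem y₀ hy₀, if_pos hy₀x]
        intro y hy hne
        rw [if_neg]
        intro hyx
        apply hne
        apply hY1 y hy y₀ hy₀
        have h1 : y⁻¹ * y₀ = (y⁻¹ * x.out) * (y₀⁻¹ * x.out)⁻¹ := by group
        rw [h1]
        exact (SL Q σ).mul_mem hyx ((SL Q σ).inv_mem hy₀x)
      · rw [if_neg hx]
        refine Finset.sum_eq_zero fun y hy => ?_
        rw [if_neg]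
        intro hyx
        apply hx
        obtain ⟨u, hu, rfl⟩ := Finset.mem_image.1 hy
        have h1 : x.out ∈ Subgroup.normalizer (Q : Set G) := by
          have h2 : x.out = r u * ((r u)⁻¹ * x.out) := by group
          rw [h2]
          exact Subgroup.mul_mem _ (hN u hu) (SL_le Q σ hyx)
        intro q
        have h3 := db_norm' Q x.out h1 q
        rwa [QuotientGroup.out_eq'] at h3
    rw [hsum]
    exact db_split ρ Q c hc h

end

end Pool.Agent.KFE
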