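import Pool.Agent.KFE.Defs

open Representation

namespace Pool.Agent.KFE

open Pool.Agent.KFV

section

variable {F : Type*} [Field F] {G V W : Type*} [Group G] [AddCommGroup V] [Module F V]
  [AddCommGroup W] [Module F W]

/-- The conjugation by an element of the normaliser. -/
private def trcConj (Q : Subgroup G) (g : G) (hg : g ∈ Subgroup.normalizer (Q : Set G)) : Q ≃* Q where
  toFun q := ⟨g * q * g⁻¹, ((Subgroup.mem_normalizer_iff.1 hg) q).1 q.2⟩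
  invFun q := ⟨g⁻¹ * q * g, by
    have h2 := ((Subgroup.mem_normalizer_iff.1 hg) (g⁻¹ * q * g)).2
    apply h2
    have h3 : g * (g⁻¹ * q * g) * g⁻¹ = q := by group
    rw [h3]; exact q.2⟩
  left_inv q := by
    apply Subtype.ext
    show g⁻¹ * (g * q * g⁻¹) * g = q
    group
  right_inv q := by
    apply Subtype.ext
    show g * (g⁻¹ * q * g) * g⁻¹ = q
    group
  map_mul' q r := by
    apply Subtype.ext
    show g * ((q : G) * r) * g⁻¹ = (g * q * g⁻¹) * (g * r * g⁻¹)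
    group

private theorem cj_conj (ρ : Representation F G V) (Q : Subgroup G) (g : G)
    (hg : g ∈ Subgroup.normalizer (Q : Set G)) (q : Q) (θ : V →ₗ[F] V) :
    cj ρ g (res ρ Q q ∘ₗ θ ∘ₗ res ρ Q q⁻¹) =
      res ρ Q (trcConj Q g hg q) ∘ₗ cj ρ g θ ∘ₗ res ρ Q (trcConj Q g hg q)⁻¹ := by
  have h1 : (res ρ Q (trcConj Q g hg q)) = ρ g ∘ₗ ρ q ∘ₗ ρ g⁻¹ := by
    show ρ (g * q * g⁻¹) = _
    rw [map_mul, map_mul]; rfl
  have h2 : (res ρ Q (trcConj Q g hg q)⁻¹) = ρ g ∘ₗ ρ (q : G)⁻¹ ∘ₗ ρ g⁻¹ := by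
    show ρ ((g * q * g⁻¹ : G)⁻¹) = _
    rw [mul_inv_rev, mul_inv_rev, inv_inv, ← mul_assoc, map_mul, map_mul]; rfl
  have h3 : ∀ v, ρ g⁻¹ (ρ g v) = v := by
    intro v
    rw [← Module.End.mul_apply, ← map_mul, inv_mul_cancel, map_one]; rfl
  rw [h1, h2]
  unfold cj
  ext v
  show ρ g (ρ q (θ (ρ (q : G)⁻¹ (ρ g⁻¹ v)))) =
    ρ g (ρ q (ρ g⁻¹ (ρ g (θ (ρ g⁻¹ (ρ g (ρ (q : G)⁻¹ (ρ g⁻¹ v))))))))
  rw [h3, h3]

/-- The conjugate of a relative trace. -/
theorem cj_relTr [Finite G] (ρ : Representation F G V) (Q : Subgroup G) (g : G)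
    (hg : g ∈ Subgroup.normalizer (Q : Set G)) (R : Subgroup Q) (θ : V →ₗ[F] V)
    (hθ : ∀ r ∈ R, θ ∘ₗ res ρ Q r = res ρ Q r ∘ₗ θ) :
    (∀ r ∈ R.map (trcConj Q g hg).toMonoidHom,
      cj ρ g θ ∘ₗ res ρ Q r = res ρ Q r ∘ₗ cj ρ g θ) ∧
    cj ρ g (relTr (res ρ Q) (res ρ Q) R θ) =
      relTr (res ρ Q) (res ρ Q) (R.map (trcConj Q g hg).toMonoidHom) (cj ρ g θ) := by
  have hinv : ∀ (h : G) v, ρ h⁻¹ (ρ h v) = v := by
    intro h v
    rw [← Module.End.mul_apply, ← map_mul, inv_mul_cancel, map_one]; rfl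
  have hinv' : ∀ (h : G) v, ρ h (ρ h⁻¹ v) = v := by
    intro h v
    rw [← Module.End.mul_apply, ← map_mul, mul_inv_cancel, map_one]; rfl
  have hE : ∀ r ∈ R.map (trcConj Q g hg).toMonoidHom,
      cj ρ g θ ∘ₗ res ρ Q r = res ρ Q r ∘ₗ cj ρ g θ := by
    rintro _ ⟨r, hr, rfl⟩
    have h1 : (res ρ Q ((trcConj Q g hg).toMonoidHom r)) = ρ g ∘ₗ ρ r ∘ₗ ρ g⁻¹ := by
      show ρ (g * r * g⁻¹) = _
      rw [map_mul, map_mul]; rfl
    rw [h1]
    unfold cj
    ext v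
    have h2 : ∀ w, θ (ρ r w) = ρ r (θ w) := fun w => LinearMap.congr_fun (hθ r hr) w
    show ρ g (θ (ρ g⁻¹ (ρ g (ρ r (ρ g⁻¹ v))))) = ρ g (ρ r (ρ g⁻¹ (ρ g (θ (ρ g⁻¹ v)))))
    rw [hinv, hinv, h2]
  refine ⟨hE, ?_⟩
  set φ := trcConj Q g hg with hφ
  set R' := R.map φ.toMonoidHom with hR'
  let e : Q ⧸ R → Q ⧸ R' := fun x => ((φ x.out : Q) : Q ⧸ R')
  have he : Function.Bijective e := by
    constructor
    · intro x x' hxx
      have h1 : (φ x.out)⁻¹ * φ x'.out ∈ R' := QuotientGroup.eq.1 hxx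
      obtain ⟨r, hr, hr2⟩ := h1
      have h2 : φ r = φ ((x.out)⁻¹ * x'.out) := by
        rw [map_mul, map_inv]; exact hr2
      have h3 := φ.injective h2
      rw [← QuotientGroup.out_eq' x, ← QuotientGroup.out_eq' x']
      apply QuotientGroup.eq.2
      rw [← h3]; exact hr
    · intro y
      obtain ⟨q, rfl⟩ := QuotientGroup.mk_surjective y
      refine ⟨((φ.symm q : Q) : Q ⧸ R), ?_⟩
      apply QuotientGroup.eq.2
      have h1 : (((φ.symm q : Q) : Q ⧸ R).out)⁻¹ * φ.symm q ∈ R := by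
        apply QuotientGroup.eq.1
        rw [QuotientGroup.out_eq']
      refine ⟨_, h1, ?_⟩
      show φ _ = _
      rw [map_mul, map_inv, MulEquiv.apply_symm_apply]
  let E := Equiv.ofBijective e he
  rw [relTr_eq_section (res ρ Q) (res ρ Q) R' (cj ρ g θ) hE (fun y => φ (E.symm y).out)
    (fun y => E.apply_symm_apply y)]
  unfold relTr
  have : Fintype (Q ⧸ R) := Fintype.ofFinite _
  have : Fintype (Q ⧸ R') := Fintype.ofFinite _
  have h1 : cj ρ g (∑ᶠ x : Q ⧸ R, res ρ Q x.out ∘ₗ θ ∘ₗ res ρ Q x.out⁻¹) =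
      ∑ᶠ x : Q ⧸ R, cj ρ g (res ρ Q x.out ∘ₗ θ ∘ₗ res ρ Q x.out⁻¹) := by
    rw [finsum_eq_sum_of_fintype, finsum_eq_sum_of_fintype]
    unfold cj
    ext v
    simp [LinearMap.sum_apply]
  rw [h1]
  refine finsum_eq_of_bijective e he (fun x => ?_)
  rw [cj_conj ρ Q g hg]
  have h2 : E.symm (e x) = x := E.symm_apply_apply x
  show _ = res ρ Q (φ (E.symm (e x)).out) ∘ₗ cj ρ g θ ∘ₗ res ρ Q (φ (E.symm (e x)).out)⁻¹
  rw [h2]

/-- Conjugation preserves the relative traces from proper subgroups. -/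
theorem trI_cj [Finite G] (ρ : Representation F G V) (Q : Subgroup G) (g : G)
    (hg : g ∈ Subgroup.normalizer (Q : Set G)) (x : V →ₗ[F] V)
    (hx : x ∈ trI (res ρ Q) (res ρ Q)) : cj ρ g x ∈ trI (res ρ Q) (res ρ Q) := by
  unfold trI at hx
  induction hx using Submodule.span_induction with
  | mem f h =>
    obtain ⟨R, hR, θ, hθ, rfl⟩ := h
    obtain ⟨h1, h2⟩ := cj_relTr ρ Q g hg R θ hθ
    refine Submodule.subset_span ⟨_, ?_, cj ρ g θ, h1, h2⟩
    intro htop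
    apply hR
    rw [eq_top_iff]
    intro q _
    have h3 : trcConj Q g hg q ∈ R.map (trcConj Q g hg).toMonoidHom := by rw [htop]; trivial
    obtain ⟨r, hr, hr2⟩ := h3
    have h4 : r = q := (trcConj Q g hg).injective hr2
    rw [← h4]; exact hr
  | zero =>
    have : cj ρ g (0 : V →ₗ[F] V) = 0 := by unfold cj; rw [LinearMap.zero_comp, LinearMap.comp_zero]
    rw [this]; exact Submodule.zero_mem _
  | add f f' _ _ hf hf' =>
    have : cj ρ g (f + f') = cj ρ g f + cj ρ g f' := by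
      unfold cj; rw [LinearMap.add_comp, LinearMap.comp_add]
    rw [this]; exact Submodule.add_mem _ hf hf'
  | smul c f _ hf =>
    have : cj ρ g (c • f) = c • cj ρ g f := by
      unfold cj; rw [LinearMap.smul_comp, LinearMap.comp_smul]
    rw [this]; exact Submodule.smul_mem _ _ hf

end

end Pool.Agent.KFE
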