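import Pool.Agent.KFE.Defs2
import Pool.Agent.KFE.Trc

/-!
# KFE (MP_1993d0_al), row INVA: sums over representatives of the stabiliser are fixed
-/

open Representation

namespace Pool.Agent.KFE

open Pool.Agent.KFV

section

variable {F : Type*} [Field F] {G V W : Type*} [Group G] [AddCommGroup V] [Module F V]
  [AddCommGroup W] [Module F W]

private theorem Inva_cj_mul (ρ : Representation F G V) (g h : G) (x : V →ₗ[F] V) :
    cj ρ (g * h) x = cj ρ g (cj ρ h x) := by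
  unfold cj
  rw [mul_inv_rev, map_mul, map_mul]
  rfl

private theorem Inva_cj_sub (ρ : Representation F G V) (g : G) (x y : V →ₗ[F] V) :
    cj ρ g (x - y) = cj ρ g x - cj ρ g y := by
  unfold cj
  rw [LinearMap.sub_comp, LinearMap.comp_sub]

private theorem Inva_cj_sum (ρ : Representation F G V) (g : G) {ι : Type*} (s : Finset ι)
    (f : ι → (V →ₗ[F] V)) : cj ρ g (∑ i ∈ s, f i) = ∑ i ∈ s, cj ρ g (f i) := by
  unfold cj
  ext v
  simp [LinearMap.sum_apply, map_sum]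

/-- ROW INVA (file Inva.lean). -/
theorem sum_inv [Finite G] (ρ : Representation F G V) (Q : Subgroup G)
    (σ : Representation F Q W) (Y : Finset G)
    (hY : ∀ y ∈ Y, y ∈ Subgroup.normalizer (Q : Set G))
    (hY1 : ∀ y ∈ Y, ∀ y' ∈ Y, y⁻¹ * y' ∈ SL Q σ → y = y')
    (hY2 : ∀ g ∈ Subgroup.normalizer (Q : Set G), ∃ y ∈ Y, y⁻¹ * g ∈ SL Q σ)
    (x : V →ₗ[F] V) (hx : ∀ g ∈ SL Q σ, cj ρ g x - x ∈ trI (res ρ Q) (res ρ Q)) (g : G)
    (hg : g ∈ Subgroup.normalizer (Q : Set G)) :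
    cj ρ g (∑ y ∈ Y, cj ρ y x) - ∑ y ∈ Y, cj ρ y x ∈ trI (res ρ Q) (res ρ Q) := by
  classical
  have hex : ∀ y : Y, ∃ y' ∈ Y, y'⁻¹ * (g * y) ∈ SL Q σ := fun y =>
    hY2 (g * y) (Subgroup.mul_mem _ hg (hY y y.2))
  choose f hf hfS using hex
  have hinj : Function.Injective (fun y : Y => (⟨f y, hf y⟩ : Y)) := by
    intro a b hab
    have h1 : f a = f b := congrArg Subtype.val hab
    apply Subtype.ext
    apply hY1 a a.2 b b.2
    have h2 := (SL Q σ).mul_mem ((SL Q σ).inv_mem (hfS a)) (hfS b)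
    rw [h1] at h2
    have h3 : ((f b)⁻¹ * (g * (a : G)))⁻¹ * ((f b)⁻¹ * (g * (b : G))) = (a : G)⁻¹ * b := by group
    rwa [h3] at h2
  have hbij : Function.Bijective (fun y : Y => (⟨f y, hf y⟩ : Y)) :=
    Finite.injective_iff_bijective.1 hinj
  have hsum : ∑ y ∈ Y, cj ρ y x = ∑ y : Y, cj ρ (f y) x := by
    rw [← Finset.sum_coe_sort Y (fun y => cj ρ y x)]
    exact (Equiv.sum_comp (Equiv.ofBijective _ hbij) (fun y : Y => cj ρ (y : G) x)).symm
  have hsum2 : cj ρ g (∑ y ∈ Y, cj ρ y x) = ∑ y : Y, cj ρ (g * y) x := by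
    rw [Inva_cj_sum, ← Finset.sum_coe_sort Y (fun y => cj ρ g (cj ρ y x))]
    exact Finset.sum_congr rfl fun y _ => (Inva_cj_mul ρ g y x).symm
  rw [hsum2, hsum, ← Finset.sum_sub_distrib]
  refine Submodule.sum_mem _ fun y _ => ?_
  have h4 : cj ρ (g * y) x - cj ρ (f y) x = cj ρ (f y) (cj ρ ((f y)⁻¹ * (g * y)) x - x) := by
    rw [Inva_cj_sub, ← Inva_cj_mul, mul_inv_cancel_left]
  rw [h4]
  exact trI_cj ρ Q (f y) (hY _ (hf y)) _ (hx _ (hfS y))

end

end Pool.Agent.KFE
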