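import Pool.Agent.KFE.Defs

/-!
# KFE, row JAC: the radical of the endomorphism algebra
-/

set_option autoImplicit false

open Representation

namespace Pool.Agent.KFE

open Pool.Agent.KFV

section

variable {F : Type*} [Field F] {G V W : Type*} [Group G] [AddCommGroup V] [Module F V]
  [AddCommGroup W] [Module F W]

/-- Membership in the radical. -/
theorem mem_jac_iff (ρ : Representation F G V) (Q : Subgroup G) (x : Module.End F V) :
    x ∈ jac ρ Q ↔ Eqv (res ρ Q) (res ρ Q) x ∧ ∀ y : Module.End F V,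
      Eqv (res ρ Q) (res ρ Q) y → ∃ z : Module.End F V, Eqv (res ρ Q) (res ρ Q) z ∧
        z * y * x + z - 1 = 0 := by
  constructor
  · rintro ⟨x', hx', rfl⟩
    have hx2 : x' ∈ Ideal.jacobson (⊥ : Ideal (endAlg ρ Q)) := hx'
    rw [Ideal.mem_jacobson_iff] at hx2
    refine ⟨(mem_endAlg ρ Q _).1 x'.2, fun y hy => ?_⟩
    obtain ⟨z, hz⟩ := hx2 ⟨y, (mem_endAlg ρ Q y).2 hy⟩
    rw [Submodule.mem_bot] at hz
    exact ⟨z, (mem_endAlg ρ Q _).1 z.2, congrArg Subtype.val hz⟩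
  · rintro ⟨hx, h⟩
    refine ⟨⟨x, (mem_endAlg ρ Q x).2 hx⟩, ?_, rfl⟩
    show (⟨x, (mem_endAlg ρ Q x).2 hx⟩ : endAlg ρ Q) ∈ Ideal.jacobson (⊥ : Ideal (endAlg ρ Q))
    rw [Ideal.mem_jacobson_iff]
    rintro ⟨y, hy⟩
    obtain ⟨z, hz, hzy⟩ := h y ((mem_endAlg ρ Q y).1 hy)
    refine ⟨⟨z, (mem_endAlg ρ Q z).2 hz⟩, ?_⟩
    rw [Submodule.mem_bot]
    exact Subtype.ext hzy

/-- ROW JAC (file Jac.lean), four statements. -/
theorem jac_eqv (ρ : Representation F G V) (Q : Subgroup G) (x : V →ₗ[F] V) (hx : x ∈ jac ρ Q) :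
    Eqv (res ρ Q) (res ρ Q) x := ((mem_jac_iff ρ Q x).1 hx).1

private theorem jac_inv1 (ρ : Representation F G V) (g : G) :
    (ρ g : Module.End F V) * ρ g⁻¹ = 1 := by
  rw [← map_mul, mul_inv_cancel, map_one]

private theorem jac_inv2 (ρ : Representation F G V) (g : G) :
    (ρ g⁻¹ : Module.End F V) * ρ g = 1 := by
  rw [← map_mul, inv_mul_cancel, map_one]

private theorem jac_cj_eqv (ρ : Representation F G V) (Q : Subgroup G) (g : G)
    (hg : g ∈ Subgroup.normalizer (Q : Set G)) (y : Module.End F V)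
    (hy : Eqv (res ρ Q) (res ρ Q) y) : Eqv (res ρ Q) (res ρ Q) (ρ g * y * ρ g⁻¹ :) := by
  intro q
  have hq : g⁻¹ * (q : G) * g ∈ Q := by
    have h1 := (Subgroup.mem_normalizer_iff.1 (Subgroup.inv_mem _ hg) (q : G)).1 q.2
    rwa [inv_inv] at h1
  have h2 : y * ρ (g⁻¹ * (q : G) * g) = ρ (g⁻¹ * (q : G) * g) * y := hy ⟨_, hq⟩
  show (ρ g * y * ρ g⁻¹ : Module.End F V) * ρ (q : G) = ρ (q : G) * (ρ g * y * ρ g⁻¹)
  have h4 : (ρ g⁻¹ : Module.End F V) * ρ (q : G) = ρ (g⁻¹ * (q : G) * g) * ρ g⁻¹ := by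
    rw [← map_mul, ← map_mul]; congr 1; group
  have h5 : (ρ g : Module.End F V) * ρ (g⁻¹ * (q : G) * g) = ρ (q : G) * ρ g := by
    rw [← map_mul, ← map_mul]; congr 1; group
  calc (ρ g * y * ρ g⁻¹ : Module.End F V) * ρ (q : G) = ρ g * y * (ρ g⁻¹ * ρ (q : G)) := by
        simp only [mul_assoc]
    _ = ρ g * (y * ρ (g⁻¹ * (q : G) * g)) * ρ g⁻¹ := by rw [h4]; simp only [mul_assoc]
    _ = (ρ g * ρ (g⁻¹ * (q : G) * g)) * y * ρ g⁻¹ := by rw [h2]; simp only [mul_assoc]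
    _ = _ := by rw [h5]; simp only [mul_assoc]

theorem jac_cj [Finite G] (ρ : Representation F G V) (Q : Subgroup G) (x : V →ₗ[F] V)
    (hx : x ∈ jac ρ Q) (g : G) (hg : g ∈ Subgroup.normalizer (Q : Set G)) :
    cj ρ g x ∈ jac ρ Q := by
  have hcj : cj ρ g x = (ρ g * x * ρ g⁻¹ : Module.End F V) := by
    rw [mul_assoc]
    rfl
  rw [hcj, mem_jac_iff]
  obtain ⟨hxE, hxj⟩ := (mem_jac_iff ρ Q x).1 hx
  refine ⟨jac_cj_eqv ρ Q g hg x hxE, fun y hy => ?_⟩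
  have hy' := jac_cj_eqv ρ Q g⁻¹ (Subgroup.inv_mem _ hg) y hy
  rw [inv_inv] at hy'
  obtain ⟨z, hz, hzy⟩ := hxj _ hy'
  refine ⟨ρ g * z * ρ g⁻¹, jac_cj_eqv ρ Q g hg z hz, ?_⟩
  have h1 : (ρ g * z * ρ g⁻¹ : Module.End F V) * y * (ρ g * x * ρ g⁻¹) + ρ g * z * ρ g⁻¹ - 1 =
      ρ g * (z * (ρ g⁻¹ * y * ρ g) * x + z - 1) * ρ g⁻¹ := by
    have h2 : (1 : Module.End F V) = ρ g * 1 * ρ g⁻¹ := by rw [mul_one, jac_inv1]
    conv_lhs => rw [h2]
    simp only [mul_add, mul_sub, add_mul, sub_mul, mul_assoc]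
  rw [h1, hzy, mul_zero, zero_mul]

theorem mem_jac [FiniteDimensional F V] [FiniteDimensional F W] (ρ : Representation F G V)
    (Q : Subgroup G) (σ : Representation F Q W) (h : Indec σ) (α : W →ₗ[F] V) (β : V →ₗ[F] W)
    (u : W →ₗ[F] W) (hα : Eqv σ (res ρ Q) α) (hβ : Eqv (res ρ Q) σ β) (hu : Eqv σ σ u)
    (hub : ¬ Function.Bijective u) : α ∘ₗ u ∘ₗ β ∈ jac ρ Q := by
  have hE : Eqv (res ρ Q) (res ρ Q) (α ∘ₗ u ∘ₗ β) := hα.comp (hu.comp hβ)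
  refine ⟨⟨α ∘ₗ u ∘ₗ β, (mem_endAlg ρ Q _).2 hE⟩, ?_, rfl⟩
  refine mem_jacobson_of_nilpotent (R := endAlg ρ Q) _ ?_
  rintro ⟨y, hy⟩
  have hyE : Eqv (res ρ Q) (res ρ Q) y := (mem_endAlg ρ Q y).1 hy
  -- the map `β y α u` is nilpotent
  have h1 : Eqv σ σ (β ∘ₗ y ∘ₗ α ∘ₗ u) := hβ.comp (Eqv.comp hyE (hα.comp hu))
  have hnil : IsNilpotent (y * (α ∘ₗ u ∘ₗ β : Module.End F V)) := by
    rcases h.bijective_or_nilpotent (β ∘ₗ y ∘ₗ α ∘ₗ u) h1 with h2 | ⟨k, hk⟩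
    · exfalso
      apply hub
      have h3 : Function.Injective u := by
        intro a b hab
        apply h2.1
        simp only [LinearMap.comp_apply]
        rw [hab]
      exact ⟨h3, LinearMap.injective_iff_surjective.1 h3⟩
    · refine ⟨k + 1, ?_⟩
      have h3 : ∀ m : ℕ, (y * (α ∘ₗ u ∘ₗ β : Module.End F V)) ^ (m + 1) =
          (y ∘ₗ α ∘ₗ u) ∘ₗ ((β ∘ₗ y ∘ₗ α ∘ₗ u : Module.End F W) ^ m) ∘ₗ β := by
        intro m
        induction m with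
        | zero => ext v; simp
        | succ m ih =>
          rw [pow_succ, ih, pow_succ]
          ext v
          simp
      rw [h3, hk]
      ext v
      simp
  obtain ⟨k, hk⟩ := hnil
  refine ⟨k, Subtype.ext ?_⟩
  exact hk

theorem no_id [IsAlgClosed F] [FiniteDimensional F V] [Finite G] (ρ : Representation F G V)
    (hρ : ρ.IsIrreducible) (Q : Subgroup G) (σ : Representation F Q W)
    (h : IsVertexSource ρ Q σ) (t j : V →ₗ[F] V) (ht : t ∈ trI (res ρ Q) (res ρ Q))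
    (hj : j ∈ jac ρ Q) : t + j ≠ LinearMap.id := by
  intro htj
  obtain ⟨hjE, hjj⟩ := (mem_jac_iff ρ Q j).1 hj
  have hone : Eqv (res ρ Q) (res ρ Q) (-1 : Module.End F V) := by
    intro q
    ext v
    simp
  obtain ⟨z, hz, hzy⟩ := hjj (-1) hone
  have h4 : t = (1 : Module.End F V) - j := eq_sub_of_add_eq htj
  have h7 : z * (1 - j) = (1 : Module.End F V) := by
    have h8 : z * (-1) * j + z - 1 = z * (1 - j) - 1 := by
      rw [mul_sub, mul_one, mul_neg_one, neg_mul]; abel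
    rw [h8] at hzy
    exact sub_eq_zero.1 hzy
  have h5 : z ∘ₗ t = LinearMap.id := by
    rw [h4]
    exact h7
  apply rep_not_mem ρ hρ Q σ h
  rw [← h5]
  exact comp_mem_trI _ _ _ _ _ hz ht

end

end Pool.Agent.KFE
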