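import Pool.Agent.KFE.Jpow
import Pool.Agent.KFE.Ntr
import Pool.Agent.KFE.Decb
import Pool.Agent.KFE.Inva
import Pool.Agent.KFE.Cross
import Pool.Agent.KFE.Ans
import Pool.Agent.KFE.Jac
import Pool.Agent.KFE.Trc

/-!
# KFE, row CLX: a fixed radical element below `e` is a trace
-/

set_option autoImplicit false

open Representation

namespace Pool.Agent.KFE

open Pool.Agent.KFV

section

variable {F : Type*} [Field F] {G V W : Type*} [Group G] [AddCommGroup V] [Module F V]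
  [AddCommGroup W] [Module F W]

private theorem clx_cj_comp (ρ : Representation F G V) (g : G) (a b : V →ₗ[F] V) :
    cj ρ g (a ∘ₗ b) = cj ρ g a ∘ₗ cj ρ g b := by
  ext v
  simp only [cj, LinearMap.comp_apply]
  rw [← Module.End.mul_apply (ρ g⁻¹) (ρ g), ← map_mul, inv_mul_cancel, map_one]
  rfl

private theorem clx_cj_add (ρ : Representation F G V) (g : G) (a b : V →ₗ[F] V) :
    cj ρ g (a + b) = cj ρ g a + cj ρ g b := by
  ext v
  simp only [cj, LinearMap.comp_apply, LinearMap.add_apply, map_add]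

private theorem clx_cj_one (ρ : Representation F G V) (a : V →ₗ[F] V) : cj ρ 1 a = a := by
  ext v
  simp only [cj, LinearMap.comp_apply, inv_one, map_one]
  rfl

omit [Group G] in
private theorem clx_comp_sum (f : V →ₗ[F] V) (Y : Finset G) (g : G → V →ₗ[F] V) :
    f ∘ₗ (∑ y ∈ Y, g y) = ∑ y ∈ Y, f ∘ₗ g y := by
  ext v
  simp only [LinearMap.comp_apply, LinearMap.sum_apply, map_sum]

private theorem clx_comp_add (f a b : V →ₗ[F] V) : f ∘ₗ (a + b) = f ∘ₗ a + f ∘ₗ b := by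
  ext v
  simp only [LinearMap.comp_apply, LinearMap.add_apply, map_add]

/-- ROW CLX (file Clx.lean). Uses JPOW, NTR, DECB, INVA, CROSS, ANS, JAC, TRC. -/
theorem mem_of_fixed [IsAlgClosed F] [FiniteDimensional F V] [FiniteDimensional F W] [Finite G]
    (ρ : Representation F G V) (hρ : ρ.IsIrreducible) (Q : Subgroup G)
    (σ : Representation F Q W) (h : IsVertexSource ρ Q σ) (α : W →ₗ[F] V) (β : V →ₗ[F] W)
    (hα : Eqv σ (res ρ Q) α) (hβ : Eqv (res ρ Q) σ β)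
    (htr : relTr ρ ρ Q (α ∘ₗ β) = LinearMap.id) (e : V →ₗ[F] V)
    (he : Eqv (res ρ Q) (res ρ Q) e)
    (hed : e - ntr ρ Q σ (α ∘ₗ β) ∘ₗ ntr ρ Q σ (α ∘ₗ β) ∈
      jac ρ Q ⊔ trI (res ρ Q) (res ρ Q))
    (x : V →ₗ[F] V) (hx : x ∈ jac ρ Q) (hex : e ∘ₗ x - x ∈ trI (res ρ Q) (res ρ Q))
    (hinv : ∀ g ∈ SL Q σ, cj ρ g x - x ∈ trI (res ρ Q) (res ρ Q)) :
    x ∈ trI (res ρ Q) (res ρ Q) := by
  classical
  set T := trI (res ρ Q) (res ρ Q) with hT
  have hTl : ∀ f t : V →ₗ[F] V, Eqv (res ρ Q) (res ρ Q) f → t ∈ T → f ∘ₗ t ∈ T :=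
    fun f t hf ht => comp_mem_trI (res ρ Q) (res ρ Q) (res ρ Q) t f hf ht
  have hTr : ∀ f t : V →ₗ[F] V, Eqv (res ρ Q) (res ρ Q) f → t ∈ T → t ∘ₗ f ∈ T :=
    fun f t hf ht => mem_trI_comp (res ρ Q) (res ρ Q) (res ρ Q) t f hf ht
  have hαβ : Eqv (res ρ Q) (res ρ Q) (α ∘ₗ β) := by
    intro q
    rw [LinearMap.comp_assoc, hβ q, ← LinearMap.comp_assoc, hα q, LinearMap.comp_assoc]
  have hIndec : Indec σ := h.indec
  set d := ntr ρ Q σ (α ∘ₗ β) with hd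
  have hdE : Eqv (res ρ Q) (res ρ Q) d := ntr_eqv ρ Q σ (α ∘ₗ β) hαβ
  have hxE : Eqv (res ρ Q) (res ρ Q) x := jac_eqv ρ Q x hx
  obtain ⟨Y, h1Y, hYN, hYi, hYs, -⟩ := dec_stab ρ Q σ (α ∘ₗ β) hαβ htr
  -- the sum of the conjugates of `d x`
  set s : V →ₗ[F] V := ∑ y ∈ Y, cj ρ y (d ∘ₗ x) with hs
  have hdxj : d ∘ₗ x ∈ jac ρ Q := jac_left ρ Q d x hdE hx
  have hsj : s ∈ jac ρ Q :=
    Submodule.sum_mem _ (fun y hy => jac_cj ρ Q _ hdxj y (hYN y hy))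
  have hsE : Eqv (res ρ Q) (res ρ Q) s := jac_eqv ρ Q s hsj
  have hsfix : ∀ g ∈ Subgroup.normalizer (Q : Set G), cj ρ g s - s ∈ T := by
    intro g hg
    refine sum_inv ρ Q σ Y hYN hYi hYs (d ∘ₗ x) ?_ g hg
    intro g' hg'
    rw [clx_cj_comp, ntr_inv ρ Q σ (α ∘ₗ β) hαβ g' hg', ← hd]
    have h1 : d ∘ₗ cj ρ g' x - d ∘ₗ x = d ∘ₗ (cj ρ g' x - x) := by
      ext v
      simp only [LinearMap.comp_apply, LinearMap.sub_apply, map_sub]
    rw [h1]
    exact hTl _ _ hdE (hinv g' hg')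
  obtain ⟨c, hc⟩ := fixed_scalar ρ hρ Q σ h s hsE hsfix
  have hc0 : c = 0 := by
    by_contra hc0
    refine no_id ρ hρ Q σ h (-(c⁻¹ • (s - c • LinearMap.id))) (c⁻¹ • s)
      (Submodule.neg_mem _ (Submodule.smul_mem _ _ hc)) (Submodule.smul_mem _ _ hsj) ?_
    rw [smul_sub, smul_smul, inv_mul_cancel₀ hc0, one_smul]
    abel
  have hsT : s ∈ T := by
    rw [hc0, zero_smul, sub_zero] at hc
    exact hc
  have hdsT : d ∘ₗ s ∈ T := hTl _ _ hdE hsT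
  -- the main step
  have hstep : ∀ k, x ∈ jpow ρ Q k ⊔ T → x ∈ jpow ρ Q (k + 1) ⊔ T := by
    intro k hk
    obtain ⟨b, hb, t, ht, hbt⟩ := Submodule.mem_sup.1 hk
    have hmul : ∀ j ∈ jac ρ Q, j ∘ₗ x ∈ jpow ρ Q (k + 1) ⊔ T := by
      intro j hj
      rw [← hbt, clx_comp_add]
      exact Submodule.add_mem_sup (jp_mul ρ Q k j b hj hb)
        (hTl _ _ (jac_eqv ρ Q j hj) ht)
    have hmulc : ∀ j ∈ jac ρ Q, ∀ y ∈ Subgroup.normalizer (Q : Set G),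
        j ∘ₗ cj ρ y x ∈ jpow ρ Q (k + 1) ⊔ T := by
      intro j hj y hy
      rw [← hbt, clx_cj_add, clx_comp_add]
      exact Submodule.add_mem_sup (jp_mul ρ Q k j _ hj (jp_cj ρ Q k b hb y hy))
        (hTl _ _ (jac_eqv ρ Q j hj) (trI_cj ρ Q y hy t ht))
    have hddx : d ∘ₗ d ∘ₗ x ∈ jpow ρ Q (k + 1) ⊔ T := by
      have h1 : d ∘ₗ s = d ∘ₗ d ∘ₗ x +
          ∑ y ∈ Y.erase 1, (d ∘ₗ cj ρ y d) ∘ₗ cj ρ y x := by
        rw [hs, clx_comp_sum, ← Finset.add_sum_erase Y _ h1Y, clx_cj_one]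
        congr 1
        refine Finset.sum_congr rfl (fun y _ => ?_)
        rw [clx_cj_comp, LinearMap.comp_assoc]
      have h2 : d ∘ₗ d ∘ₗ x = d ∘ₗ s -
          ∑ y ∈ Y.erase 1, (d ∘ₗ cj ρ y d) ∘ₗ cj ρ y x := by
        rw [h1]
        abel
      rw [h2]
      refine Submodule.sub_mem _ (Submodule.mem_sup_right hdsT)
        (Submodule.sum_mem _ (fun y hy => ?_))
      obtain ⟨hy1, hyY⟩ := Finset.mem_erase.1 hy
      refine hmulc _ ?_ y (hYN y hyY)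
      refine cross_jac ρ Q σ hIndec α β hα hβ y (hYN y hyY) ?_
      intro hyS
      apply hy1
      refine (hYi 1 h1Y y hyY ?_).symm
      rw [inv_one, one_mul]
      exact hyS
    have hedx : (e - d ∘ₗ d) ∘ₗ x ∈ jpow ρ Q (k + 1) ⊔ T := by
      obtain ⟨j, hj, t', ht', hjt⟩ := Submodule.mem_sup.1 hed
      rw [← hjt, LinearMap.add_comp]
      exact Submodule.add_mem _ (hmul j hj) (Submodule.mem_sup_right (hTr _ _ hxE ht'))
    have h3 : x = (e - d ∘ₗ d) ∘ₗ x + d ∘ₗ d ∘ₗ x - (e ∘ₗ x - x) := by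
      rw [LinearMap.sub_comp, LinearMap.comp_assoc]
      abel
    rw [h3]
    exact Submodule.sub_mem _ (Submodule.add_mem _ hedx hddx) (Submodule.mem_sup_right hex)
  have hall : ∀ k, x ∈ jpow ρ Q k ⊔ T := by
    intro k
    induction k with
    | zero => exact Submodule.mem_sup_left (Submodule.subset_span hxE)
    | succ k ih => exact hstep k ih
  obtain ⟨K, hK⟩ := jp_nil ρ Q
  obtain ⟨b, hb, t, ht, hbt⟩ := Submodule.mem_sup.1 (hall K)
  rw [← hbt, hK b hb, zero_add]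
  exact ht

end

end Pool.Agent.KFE
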