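import Pool.Agent.KFE.Defs

open Representation

namespace Pool.Agent.KFE

open Pool.Agent.KFV

section

variable {F : Type*} [Field F] {G V W : Type*} [Group G] [AddCommGroup V] [Module F V]
  [AddCommGroup W] [Module F W]

private theorem dec_cj_mul (ρ : Representation F G V) (g h : G) (θ : V →ₗ[F] V) :
    cj ρ (g * h) θ = ρ g ∘ₗ cj ρ h θ ∘ₗ ρ g⁻¹ := by
  unfold cj
  rw [mul_inv_rev, map_mul, map_mul]
  rfl

private theorem dec_cj_mem (ρ : Representation F G V) (Q : Subgroup G) (c : V →ₗ[F] V)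
    (hc : Eqv (res ρ Q) (res ρ Q) c) (r : G) (hr : r ∈ Q) : cj ρ r c = c := by
  unfold cj
  have h1 : c ∘ₗ ρ r⁻¹ = ρ r⁻¹ ∘ₗ c := hc ⟨r⁻¹, Q.inv_mem hr⟩
  rw [h1, ← LinearMap.comp_assoc]
  have : ρ r ∘ₗ ρ r⁻¹ = LinearMap.id := by
    rw [← Module.End.mul_eq_comp, ← map_mul, mul_inv_cancel, map_one]; rfl
  rw [this, LinearMap.id_comp]

private theorem dec_cj_congr (ρ : Representation F G V) (Q : Subgroup G) (c : V →ₗ[F] V)
    (hc : Eqv (res ρ Q) (res ρ Q) c) (g h : G) (hgh : (g : G ⧸ Q) = h) :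
    cj ρ g c = cj ρ h c := by
  have h1 : g⁻¹ * h ∈ Q := QuotientGroup.eq.1 hgh
  have h2 : h = g * (g⁻¹ * h) := by group
  rw [h2, dec_cj_mul, dec_cj_mem ρ Q c hc _ h1]
  rfl

/-- the function on the cosets -/
private noncomputable def decf (ρ : Representation F G V) (Q : Subgroup G) (c : V →ₗ[F] V)
    (x : G ⧸ Q) : V →ₗ[F] V := cj ρ x.out c

private theorem decf_smul (ρ : Representation F G V) (Q : Subgroup G) (c : V →ₗ[F] V)
    (hc : Eqv (res ρ Q) (res ρ Q) c) (g : G) (x : G ⧸ Q) :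
    decf ρ Q c (g • x) = ρ g ∘ₗ decf ρ Q c x ∘ₗ ρ g⁻¹ := by
  unfold decf
  rw [← dec_cj_mul]
  apply dec_cj_congr ρ Q c hc
  rw [QuotientGroup.out_eq']
  conv_lhs => rw [← QuotientGroup.out_eq' x]
  rfl

private theorem dec_norm [Finite G] (Q : Subgroup G) (g : G)
    (h : ∀ q : Q, (q : G) • (g : G ⧸ Q) = (g : G ⧸ Q)) :
    g ∈ Subgroup.normalizer (Q : Set G) := by
  have h1 : ∀ q ∈ Q, g⁻¹ * q * g ∈ Q := by
    intro q hq
    have h2 := h ⟨q⁻¹, Q.inv_mem hq⟩
    have h3 : ((q⁻¹ * g : G) : G ⧸ Q) = (g : G ⧸ Q) := h2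
    have h4 := QuotientGroup.eq.1 h3
    have h5 : (q⁻¹ * g)⁻¹ * g = g⁻¹ * q * g := by group
    rwa [h5] at h4
  have h2 : g⁻¹ ∈ Subgroup.normalizer (Q : Set G) := by
    apply Subgroup.mem_normalizer_fintype
    intro n hn
    have := h1 n hn
    rw [inv_inv]
    exact this
  have := (Subgroup.normalizer (Q : Set G)).inv_mem h2
  rwa [inv_inv] at this

/-- ROW DEC (file Dec.lean). -/
theorem dec [Finite G] (ρ : Representation F G V) (Q : Subgroup G) (c : V →ₗ[F] V)
    (hc : Eqv (res ρ Q) (res ρ Q) c) (h : relTr ρ ρ Q c = LinearMap.id) :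
    ∃ Y : Finset G, (∀ y ∈ Y, y ∈ Subgroup.normalizer (Q : Set G)) ∧
      LinearMap.id - ∑ y ∈ Y, ctr ρ Q (cj ρ y c) ∈ trI (res ρ Q) (res ρ Q) := by
  classical
  have hfin : Fintype (G ⧸ Q) := Fintype.ofFinite _
  set C : Subgroup G := Subgroup.centralizer (Q : Set G) with hC
  set f : G ⧸ Q → V →ₗ[F] V := decf ρ Q c with hf
  have hsm : ∀ (g : G) (x : G ⧸ Q), f (g • x) = ρ g ∘ₗ f x ∘ₗ ρ g⁻¹ := decf_smul ρ Q c hc
  have hid : LinearMap.id = ∑ x : G ⧸ Q, f x := by
    rw [← h]
    unfold relTr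
    rw [finsum_eq_sum_of_fintype]
    rfl
  set Fx : G ⧸ Q → Prop := fun x => ∀ q : Q, (q : G) • x = x with hFx
  set f0 : G ⧸ Q → V →ₗ[F] V := fun x => if Fx x then 0 else f x with hf0
  set f1 : G ⧸ Q → V →ₗ[F] V := fun x => if Fx x then f x else 0 with hf1
  have hsplit : LinearMap.id - ∑ x, f1 x = ∑ x, f0 x := by
    rw [hid, ← Finset.sum_sub_distrib]
    refine Finset.sum_congr rfl (fun x _ => ?_)
    simp only [hf0, hf1]
    split_ifs <;> simp
  have hmem0 : ∑ x, f0 x ∈ trI (res ρ Q) (res ρ Q) := by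
    have := orbit_sum_mem (Ω := G ⧸ Q) (res ρ Q) (res ρ Q) f0 ?_ (trI (res ρ Q) (res ρ Q))
      le_rfl ?_
    · rwa [finsum_eq_sum_of_fintype] at this
    · intro p x
      have hp : p • x = (p : G) • x := rfl
      have hiff : Fx ((p : G) • x) ↔ Fx x := by
        constructor
        · intro h q
          have h1 := h (p * q * p⁻¹)
          have h2 : ((p * q * p⁻¹ : Q) : G) • (p : G) • x = (p : G) • ((q : G) • x) := by
            rw [smul_smul, smul_smul]; congr 1; push_cast; group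
          rw [h2] at h1
          exact smul_left_cancel _ h1
        · intro h q
          have h1 := h (p⁻¹ * q * p)
          have h2 : ((p⁻¹ * q * p : Q) : G) • x = (p : G)⁻¹ • ((q : G) • (p : G) • x) := by
            rw [smul_smul, smul_smul]; congr 1
          rw [h2] at h1
          rw [inv_smul_eq_iff] at h1
          exact h1
      rw [hp]
      simp only [hf0]
      by_cases hx : Fx x
      · rw [if_pos (hiff.2 hx), if_pos hx]; simp
      · rw [if_neg (fun h => hx (hiff.1 h)), if_neg hx, hsm]; rfl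
    · intro x hx
      have : Fx x := fun q => hx q
      simp only [hf0, if_pos this]
      exact Submodule.zero_mem _
  -- the centraliser
  have hsm1 : ∀ (p : C) (x : G ⧸ Q), f1 (p • x) = res ρ C p ∘ₗ f1 x ∘ₗ res ρ C p⁻¹ := by
    intro p x
    have hp : p • x = (p : G) • x := rfl
    have hcomm : ∀ q : Q, (q : G) * p = p * q := fun q =>
      (Subgroup.mem_centralizer_iff.1 p.2 q q.2)
    have hiff : Fx ((p : G) • x) ↔ Fx x := by
      constructor
      · intro h q
        have h1 := h q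
        rw [smul_smul, hcomm q, ← smul_smul] at h1
        exact smul_left_cancel _ h1
      · intro h q
        rw [smul_smul, hcomm q, ← smul_smul, h q]
    rw [hp]
    simp only [hf1]
    by_cases hx : Fx x
    · rw [if_pos (hiff.2 hx), if_pos hx, hsm]; rfl
    · rw [if_neg (fun h => hx (hiff.1 h)), if_neg hx]; simp
  have horb : ∀ x : G ⧸ Q, Fx x → ∑ᶠ ω : MulAction.orbit C x, f1 ω = ctr ρ Q (cj ρ x.out c) := by
    intro x hx
    rw [orb_sum_orbit (res ρ C) (res ρ C) f1 hsm1 x]
    have hst : MulAction.stabilizer C x = Q.subgroupOf C := by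
      ext p
      rw [MulAction.mem_stabilizer_iff, Subgroup.mem_subgroupOf]
      have hN : x.out ∈ Subgroup.normalizer (Q : Set G) := by
        apply dec_norm
        intro q
        rw [QuotientGroup.out_eq']
        exact hx q
      have h1 : p • x = ((p * x.out : G) : G ⧸ Q) := by
        conv_lhs => rw [← QuotientGroup.out_eq' x]
        rfl
      have h3 : p • x = x ↔ ((x.out : G) : G ⧸ Q) = ((p * x.out : G) : G ⧸ Q) := by
        rw [h1, QuotientGroup.out_eq', eq_comm]
      rw [h3, QuotientGroup.eq]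
      have h2 : (x.out)⁻¹ * (↑p * x.out) = x.out⁻¹ * p * x.out := by group
      rw [h2]
      exact (Subgroup.mem_normalizer_iff''.1 hN p).symm
    rw [hst]
    have : f1 x = cj ρ x.out c := by
      simp only [hf1, if_pos hx]
      rfl
    rw [this]
    rfl
  have hzero : ∀ x : G ⧸ Q, ¬ Fx x → ∑ᶠ ω : MulAction.orbit C x, f1 ω = 0 := by
    intro x hx
    rw [orb_sum_orbit (res ρ C) (res ρ C) f1 hsm1 x]
    have : f1 x = 0 := by simp only [hf1, if_neg hx]
    rw [this]
    unfold relTr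
    simp
  set O := MulAction.orbitRel.Quotient C (G ⧸ Q) with hO
  have hsum : ∑ x, f1 x = ∑ o : O, ∑ᶠ ω : MulAction.orbit C (Quotient.out o : G ⧸ Q), f1 ω := by
    rw [← Finset.sum_fiberwise (Finset.univ : Finset (G ⧸ Q))
      (fun ω => (Quotient.mk'' ω : O)) f1]
    refine Finset.sum_congr rfl (fun o _ => ?_)
    have hset : ∀ ω : G ⧸ Q, ω ∈ (Finset.univ : Finset (G ⧸ Q)).filter
        (fun ω => (Quotient.mk'' ω : O) = o) ↔
          ω ∈ MulAction.orbit C (Quotient.out o : G ⧸ Q) := by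
      intro ω
      rw [Finset.mem_filter]
      simp only [Finset.mem_univ, true_and]
      rw [← MulAction.orbitRel_apply]
      conv_lhs => rw [← Quotient.out_eq' o]
      exact Quotient.eq''
    rw [Finset.sum_subtype _ hset f1, finsum_eq_sum_of_fintype]
  refine ⟨((Finset.univ : Finset O).filter (fun o => Fx (Quotient.out o : G ⧸ Q))).image
    (fun o => (Quotient.out o : G ⧸ Q).out), ?_, ?_⟩
  · intro y hy
    obtain ⟨o, ho, rfl⟩ := Finset.mem_image.1 hy
    have ho := (Finset.mem_filter.1 ho).2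
    apply dec_norm
    intro q
    rw [QuotientGroup.out_eq']
    exact ho q
  · have hY : ∑ y ∈ ((Finset.univ : Finset O).filter (fun o => Fx (Quotient.out o : G ⧸ Q))).image
        (fun o => (Quotient.out o : G ⧸ Q).out), ctr ρ Q (cj ρ y c) = ∑ x, f1 x := by
      rw [Finset.sum_image, hsum, Finset.sum_filter]
      · refine Finset.sum_congr rfl (fun o _ => ?_)
        by_cases ho : Fx (Quotient.out o : G ⧸ Q)
        · rw [if_pos ho, horb _ ho]
        · rw [if_neg ho, hzero _ ho]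
      · intro o _ o' _ heq
        simp only at heq
        have h1 : (Quotient.out o : G ⧸ Q) = Quotient.out o' := by
          rw [← QuotientGroup.out_eq' (Quotient.out o : G ⧸ Q),
            ← QuotientGroup.out_eq' (Quotient.out o' : G ⧸ Q), heq]
        rw [← Quotient.out_eq' o, ← Quotient.out_eq' o', h1]
    rw [hY, hsplit]
    exact hmem0

end

end Pool.Agent.KFE
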