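import Pool.Agent.KFV.MAI
import Pool.Agent.KFV.UNI

/-!
# KFE (MP_1993d0_al): endomorphisms of the sources of simple modules. Definitions
-/

open Representation

namespace Pool.Agent.KFE

open Pool.Agent.KFV

section

variable {F : Type*} [Field F] {G V : Type*} [Group G] [AddCommGroup V] [Module F V]

/-- The conjugate of a linear map by a group element. -/
def cj (ρ : Representation F G V) (g : G) (θ : V →ₗ[F] V) : V →ₗ[F] V := ρ g ∘ₗ θ ∘ₗ ρ g⁻¹

/-- The restriction to a subgroup. -/
abbrev res (ρ : Representation F G V) (Q : Subgroup G) : Representation F Q V := ρ.comp Q.subtype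

/-- The relative trace from `Q ∩ C` to `C`, where `C` is the centraliser of `Q`. -/
noncomputable def ctr (ρ : Representation F G V) (Q : Subgroup G) (θ : V →ₗ[F] V) : V →ₗ[F] V :=
  relTr (res ρ (Subgroup.centralizer (Q : Set G))) (res ρ (Subgroup.centralizer (Q : Set G)))
    (Q.subgroupOf (Subgroup.centralizer (Q : Set G))) θ

/-- The Jacobson radical of the algebra of the `Q`-endomorphisms. -/
def jac (ρ : Representation F G V) (Q : Subgroup G) : Submodule F (V →ₗ[F] V) :=
  ((Ideal.jacobson (⊥ : Ideal (endAlg ρ Q))).restrictScalars F).map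
    (endAlg ρ Q).val.toLinearMap

/-- `N(Q) / Q C(Q)` is a `p`-group. -/
def PCond (p : ℕ) (Q : Subgroup G) : Prop :=
  ∀ g ∈ Subgroup.normalizer (Q : Set G), ∃ k : ℕ,
    g ^ (p ^ k) ∈ Q ⊔ Subgroup.centralizer (Q : Set G)

end

end Pool.Agent.KFE
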