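import Pool.Agent.KFE.Defs

/-!
# KFE: the stabiliser of the source. Definitions and first properties
-/

open Representation

namespace Pool.Agent.KFE

open Pool.Agent.KFV

section

variable {F : Type*} [Field F] {G V W : Type*} [Group G] [AddCommGroup V] [Module F V]
  [AddCommGroup W] [Module F W]

/-- `θ` is equivariant up to conjugation by `g`. -/
def Tw {Q : Subgroup G} (σ : Representation F Q W) (g : G) (θ : W →ₗ[F] W) : Prop :=
  ∀ q q' : Q, (q' : G) = g * q * g⁻¹ → θ ∘ₗ σ q = σ q' ∘ₗ θ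

theorem conj_mem {Q : Subgroup G} {g : G} (hg : g ∈ Subgroup.normalizer (Q : Set G)) (q : Q) :
    g * (q : G) * g⁻¹ ∈ Q := (Subgroup.mem_normalizer_iff.1 hg q).1 q.2

theorem Tw.comp {Q : Subgroup G} {σ : Representation F Q W} {g h : G} {θ η : W →ₗ[F] W}
    (hθ : Tw σ g θ) (hη : Tw σ h η) (hh : h ∈ Subgroup.normalizer (Q : Set G)) :
    Tw σ (g * h) (θ ∘ₗ η) := by
  intro q q' hq
  have h1 := hη q ⟨h * (q : G) * h⁻¹, conj_mem hh q⟩ rfl
  have h2 := hθ ⟨h * (q : G) * h⁻¹, conj_mem hh q⟩ q' (by rw [hq]; simp only; group)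
  rw [LinearMap.comp_assoc, h1, ← LinearMap.comp_assoc, h2, LinearMap.comp_assoc]

/-- The stabiliser of `σ` in the normaliser of `Q`. -/
def SL (Q : Subgroup G) (σ : Representation F Q W) : Subgroup G where
  carrier := {g | g ∈ Subgroup.normalizer (Q : Set G) ∧
    ∃ θ : W →ₗ[F] W, Function.Bijective θ ∧ Tw σ g θ}
  one_mem' := by
    refine ⟨Subgroup.one_mem _, LinearMap.id, Function.bijective_id, ?_⟩
    intro q q' hq
    have : q' = q := Subtype.ext (by rw [hq]; simp)
    rw [this, LinearMap.id_comp, LinearMap.comp_id]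
  mul_mem' := by
    rintro g h ⟨hg, θ, hθ, hθ'⟩ ⟨hh, η, hη, hη'⟩
    exact ⟨Subgroup.mul_mem _ hg hh, θ ∘ₗ η, hθ.comp hη, hθ'.comp hη' hh⟩
  inv_mem' := by
    rintro g ⟨hg, θ, hθ, hθ'⟩
    refine ⟨Subgroup.inv_mem _ hg, (LinearEquiv.ofBijective θ hθ).symm.toLinearMap,
      (LinearEquiv.ofBijective θ hθ).symm.bijective, ?_⟩
    intro q q' hq
    have h1 := hθ' q' q (by rw [hq]; group)
    ext x
    apply (LinearEquiv.ofBijective θ hθ).injective
    have h2 := congrArg (fun f => f ((LinearEquiv.ofBijective θ hθ).symm x)) h1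
    simp only [LinearMap.comp_apply] at h2 ⊢
    have h3 : ∀ v, (LinearEquiv.ofBijective θ hθ) v = θ v := fun v => rfl
    have h4 : (LinearEquiv.ofBijective θ hθ).symm.toLinearMap x =
      (LinearEquiv.ofBijective θ hθ).symm x := rfl
    have h5 : (LinearEquiv.ofBijective θ hθ).symm.toLinearMap (σ q x) =
      (LinearEquiv.ofBijective θ hθ).symm (σ q x) := rfl
    rw [h4, h5, LinearEquiv.apply_symm_apply, h3, h2, ← h3, LinearEquiv.apply_symm_apply]

theorem SL_le (Q : Subgroup G) (σ : Representation F Q W) :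
    SL Q σ ≤ Subgroup.normalizer (Q : Set G) := fun _ hg => hg.1

theorem Q_le_SL (Q : Subgroup G) (σ : Representation F Q W) : Q ≤ SL Q σ := by
  intro g hg
  refine ⟨Subgroup.le_normalizer hg, σ ⟨g, hg⟩, ?_, ?_⟩
  · have h1 : ∀ x, σ ⟨g, hg⟩⁻¹ (σ ⟨g, hg⟩ x) = x := by
      intro x
      have := map_mul σ (⟨g, hg⟩⁻¹ : Q) ⟨g, hg⟩
      rw [inv_mul_cancel, map_one] at this
      exact (congrArg (fun f => f x) this).symm
    have h2 : ∀ x, σ ⟨g, hg⟩ (σ ⟨g, hg⟩⁻¹ x) = x := by
      intro x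
      have := map_mul σ (⟨g, hg⟩ : Q) ⟨g, hg⟩⁻¹
      rw [mul_inv_cancel, map_one] at this
      exact (congrArg (fun f => f x) this).symm
    exact ⟨Function.LeftInverse.injective h1, Function.RightInverse.surjective h2⟩
  · intro q q' hq
    have h1 : q' * ⟨g, hg⟩ = ⟨g, hg⟩ * q := by
      apply Subtype.ext
      rw [Subgroup.coe_mul, Subgroup.coe_mul, hq]
      simp
    have h2 := map_mul σ q' ⟨g, hg⟩
    rw [h1, map_mul] at h2
    exact h2

theorem C_le_SL (Q : Subgroup G) (σ : Representation F Q W) :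
    Subgroup.centralizer (Q : Set G) ≤ SL Q σ := by
  intro g hg
  rw [Subgroup.mem_centralizer_iff] at hg
  refine ⟨?_, LinearMap.id, Function.bijective_id, ?_⟩
  · rw [Subgroup.mem_normalizer_iff]
    intro h
    constructor
    · intro hh
      have : g * h * g⁻¹ = h := by rw [← hg h hh]; group
      rwa [this]
    · intro hh
      have h1 := hg _ hh
      have h2 : g * h * g⁻¹ = h := by
        have h3 : g * h * g⁻¹ * g = g * (g * h * g⁻¹) := h1
        have h4 : g * h = g * (g * h * g⁻¹) := by rw [← h3]; group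
        exact (mul_left_cancel h4).symm
      rwa [h2] at hh
  · intro q q' hq
    have h1 : q' = q := by
      apply Subtype.ext
      rw [hq, ← hg q q.2]; group
    rw [h1, LinearMap.id_comp, LinearMap.comp_id]

theorem QC_le_SL (Q : Subgroup G) (σ : Representation F Q W) :
    Q ⊔ Subgroup.centralizer (Q : Set G) ≤ SL Q σ := sup_le (Q_le_SL Q σ) (C_le_SL Q σ)

/-- The relative trace from `Q` to the stabiliser of `σ`. -/
noncomputable def ntr (ρ : Representation F G V) (Q : Subgroup G) (σ : Representation F Q W)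
    (θ : V →ₗ[F] V) : V →ₗ[F] V :=
  relTr (res ρ (SL Q σ)) (res ρ (SL Q σ)) (Q.subgroupOf (SL Q σ)) θ

/-- The stabiliser of `σ` modulo `Q C(Q)` is a `p`-group. -/
def PStab (p : ℕ) (Q : Subgroup G) (σ : Representation F Q W) : Prop :=
  ∀ g ∈ SL Q σ, ∃ k : ℕ, g ^ (p ^ k) ∈ Q ⊔ Subgroup.centralizer (Q : Set G)

/-- `x` is a sum of products of `k` elements of the radical. -/
def jpow (ρ : Representation F G V) (Q : Subgroup G) : ℕ → Submodule F (V →ₗ[F] V)
  | 0 => Submodule.span F {f | Eqv (res ρ Q) (res ρ Q) f}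
  | k + 1 => Submodule.span F {f | ∃ a ∈ jac ρ Q, ∃ b ∈ jpow ρ Q k, f = a ∘ₗ b}

end

end Pool.Agent.KFE
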