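import Pool.Agent.KFE.Jpow

/-!
# KFE: an element which is idempotent modulo a polynomial in `d`
-/

open Representation Polynomial

namespace Pool.Agent.KFE

open Pool.Agent.KFV

section

variable {F : Type*} [Field F] {G V W : Type*} [Group G] [AddCommGroup V] [Module F V]
  [AddCommGroup W] [Module F W]

theorem ide_eqv_aeval (ρ : Representation F G V) (Q : Subgroup G) (d : Module.End F V)
    (hd : Eqv (res ρ Q) (res ρ Q) d) (p : F[X]) :
    Eqv (res ρ Q) (res ρ Q) (aeval d p : Module.End F V) := by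
  have hd' : d ∈ endAlg ρ Q := (mem_endAlg ρ Q d).2 hd
  have h1 : aeval d p ∈ endAlg ρ Q := by
    have h2 : (aeval d p : Module.End F V) = (endAlg ρ Q).val (aeval (⟨d, hd'⟩ : endAlg ρ Q) p) := by
      rw [← aeval_algHom_apply]
      rfl
    rw [h2]
    exact Subtype.property _
  exact (mem_endAlg ρ Q _).1 h1

theorem ide_cj_aeval (ρ : Representation F G V) (g : G) (d : Module.End F V) (p : F[X]) :
    cj ρ g (aeval d p : Module.End F V) = (aeval (cj ρ g d : Module.End F V) p : Module.End F V) := by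
  have h1 : ∀ v : V, ρ g⁻¹ (ρ g v) = v := fun v => by
    have := map_mul ρ g⁻¹ g
    rw [inv_mul_cancel, map_one] at this
    exact (congrArg (fun f => f v) this).symm
  have h2 : ∀ v : V, ρ g (ρ g⁻¹ v) = v := fun v => by
    have := map_mul ρ g g⁻¹
    rw [mul_inv_cancel, map_one] at this
    exact (congrArg (fun f => f v) this).symm
  let φ : Module.End F V →ₐ[F] Module.End F V :=
    AlgHom.ofLinearMap
      { toFun := fun θ => cj ρ g θ
        map_add' := fun x y => by
          ext v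
          simp [cj]
        map_smul' := fun c x => by
          ext v
          simp [cj] }
      (by
        ext v
        show ρ g (ρ g⁻¹ v) = v
        exact h2 v)
      (fun x y => by
        ext v
        show ρ g (x (y (ρ g⁻¹ v))) = ρ g (x (ρ g⁻¹ (ρ g (y (ρ g⁻¹ v)))))
        rw [h1])
  have h3 := aeval_algHom_apply φ d p
  exact h3.symm

/-- ROW IDE (file Ide.lean). Uses JPOW. -/
theorem exists_idem [Finite G] [FiniteDimensional F V] (ρ : Representation F G V)
    (Q : Subgroup G) (d : V →ₗ[F] V) (hd : Eqv (res ρ Q) (res ρ Q) d)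
    (hdj : d - d ∘ₗ d ∈ jac ρ Q ⊔ trI (res ρ Q) (res ρ Q)) :
    ∃ e : V →ₗ[F] V, Eqv (res ρ Q) (res ρ Q) e ∧ e - e ∘ₗ e ∈ trI (res ρ Q) (res ρ Q) ∧
      e - d ∘ₗ d ∈ jac ρ Q ⊔ trI (res ρ Q) (res ρ Q) ∧
      (∃ h : V →ₗ[F] V, Eqv (res ρ Q) (res ρ Q) h ∧
        LinearMap.id - e = (LinearMap.id - d) ∘ₗ h) ∧
      ∀ g : G, cj ρ g d = d → cj ρ g e = e := by
  classical
  obtain ⟨j, hj, t, ht, hjt⟩ := Submodule.mem_sup.1 hdj
  have hje : Eqv (res ρ Q) (res ρ Q) j := jac_eqv ρ Q j hj
  have hjte : Eqv (res ρ Q) (res ρ Q) (j + t) := by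
    rw [hjt]
    have := ide_eqv_aeval ρ Q d hd (X - X * X)
    rw [map_sub, map_mul, aeval_X] at this
    exact this
  -- the powers of `j`
  have hjk : ∀ k : ℕ, ((j : Module.End F V) ^ k : Module.End F V) ∈ jpow ρ Q k ∧
      Eqv (res ρ Q) (res ρ Q) ((j : Module.End F V) ^ k : Module.End F V) := by
    intro k
    induction k with
    | zero =>
      have h1 : Eqv (res ρ Q) (res ρ Q) (((j : Module.End F V) ^ 0 : Module.End F V)) := by
        intro q
        rw [pow_zero]
        rfl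
      exact ⟨Submodule.subset_span h1, h1⟩
    | succ k ih =>
      rw [pow_succ']
      exact ⟨jp_mul ρ Q k _ _ hj ih.1, Eqv.comp hje ih.2⟩
  have hk : ∀ k : ℕ, ((((j + t : V →ₗ[F] V) : Module.End F V) ^ k : Module.End F V) -
      ((j : Module.End F V) ^ k : Module.End F V) : V →ₗ[F] V) ∈ trI (res ρ Q) (res ρ Q) := by
    intro k
    induction k with
    | zero =>
      rw [pow_zero, pow_zero, sub_self]
      exact Submodule.zero_mem _
    | succ k ih =>
      have h1 : ((((j + t : V →ₗ[F] V) : Module.End F V) ^ (k + 1) : Module.End F V) -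
          ((j : Module.End F V) ^ (k + 1) : Module.End F V) : V →ₗ[F] V) =
          (j + t) ∘ₗ ((((j + t : V →ₗ[F] V) : Module.End F V) ^ k : Module.End F V) -
          ((j : Module.End F V) ^ k : Module.End F V) : V →ₗ[F] V) +
          t ∘ₗ ((j : Module.End F V) ^ k : Module.End F V) := by
        rw [pow_succ', pow_succ']
        ext v
        show (j + t) _ - j _ = (j + t) (_ - _) + t _
        rw [map_sub]
        simp only [LinearMap.add_apply]
        abel
      rw [h1]
      exact Submodule.add_mem _ (comp_mem_trI _ _ _ _ _ hjte ih)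
        (mem_trI_comp _ _ _ _ _ (hjk k).2 ht)
  obtain ⟨K, hK⟩ := jp_nil ρ Q
  have hjK : ((j : Module.End F V) ^ K : Module.End F V) = 0 := hK _ (hjk K).1
  have hjm : ((j : Module.End F V) ^ (K + 1) : Module.End F V) = 0 := by
    rw [pow_succ, hjK, zero_mul]
  set m := K + 1 with hm
  have hTm : (((j + t : V →ₗ[F] V) : Module.End F V) ^ m : Module.End F V) ∈
      trI (res ρ Q) (res ρ Q) := by
    have := hk m
    rw [hjm, sub_zero] at this
    exact this
  have hdd : (aeval (d : Module.End F V) ((X - X * X : F[X])) : Module.End F V) = j + t := by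
    rw [map_sub, map_mul, aeval_X]
    exact hjt.symm
  set D : Module.End F V := d with hD
  -- the polynomial
  set P : F[X] := 1 - (1 - X ^ m) ^ m with hP
  have hm0 : m ≠ 0 := by omega
  have d1 : (X - X * X : F[X]) ^ m ∣ P - P * P := by
    have e1 : P - P * P = P * (1 - X ^ m) ^ m := by
      rw [hP]; ring
    have e2 : (X : F[X]) ^ m ∣ P := by
      have : (X : F[X]) ^ m = 1 - (1 - X ^ m) := by ring
      have h2 := sub_dvd_pow_sub_pow (1 : F[X]) (1 - X ^ m) m
      rw [one_pow, ← this] at h2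
      exact h2
    have e3 : (1 - X : F[X]) ^ m ∣ (1 - X ^ m) ^ m := by
      have h2 := sub_dvd_pow_sub_pow (1 : F[X]) X m
      rw [one_pow] at h2
      exact pow_dvd_pow_of_dvd h2 m
    have e4 : (X - X * X : F[X]) ^ m = X ^ m * (1 - X) ^ m := by
      rw [← mul_pow]; ring
    rw [e1, e4]
    exact mul_dvd_mul e2 e3
  have d2 : (X - X * X : F[X]) ∣ P - X * X := by
    have e1 : (X : F[X]) ∣ P - X * X := by
      have h2 := sub_dvd_pow_sub_pow (1 : F[X]) (1 - X ^ m) m
      rw [one_pow] at h2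
      have h3 : (X : F[X]) ∣ X ^ m := dvd_pow_self X hm0
      have h4 : (1 : F[X]) - (1 - X ^ m) = X ^ m := by ring
      rw [h4] at h2
      exact dvd_sub (h3.trans h2) (Dvd.intro _ rfl)
    have e2 : (1 - X : F[X]) ∣ P - X * X := by
      have h2 := sub_dvd_pow_sub_pow (1 : F[X]) X m
      rw [one_pow] at h2
      have h3 : (1 - X : F[X]) ∣ (1 - X ^ m) ^ m := h2.trans (dvd_pow_self _ hm0)
      have h4 : P - X * X = (1 - X) * (1 + X) - (1 - X ^ m) ^ m := by
        rw [hP]; ring
      rw [h4]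
      exact dvd_sub (Dvd.intro _ rfl) h3
    have e3 : IsCoprime (X : F[X]) (1 - X) := ⟨1, 1, by ring⟩
    have e4 : (X - X * X : F[X]) = X * (1 - X) := by ring
    rw [e4]
    exact e3.mul_dvd e1 e2
  have d3 : (1 - X : F[X]) ∣ 1 - P := by
    have h2 := sub_dvd_pow_sub_pow (1 : F[X]) X m
    rw [one_pow] at h2
    have h3 : (1 - X : F[X]) ∣ (1 - X ^ m) ^ m := h2.trans (dvd_pow_self _ hm0)
    have h4 : 1 - P = (1 - X ^ m) ^ m := by
      rw [hP]; ring
    rw [h4]
    exact h3
  clear_value P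
  obtain ⟨R1, hR1⟩ := d1
  obtain ⟨R2, hR2⟩ := d2
  obtain ⟨R3, hR3⟩ := d3
  refine ⟨aeval D P, ide_eqv_aeval ρ Q d hd P, ?_, ?_, ⟨aeval D R3, ide_eqv_aeval ρ Q d hd R3, ?_⟩,
    ?_⟩
  · have h1 := congrArg (aeval D) hR1
    rw [map_sub, map_mul, map_mul, map_pow, hdd] at h1
    have h2 := mem_trI_comp _ _ _ _ _ (ide_eqv_aeval ρ Q d hd R1) hTm
    have h3 : (aeval D P : V →ₗ[F] V) - (aeval D P : V →ₗ[F] V) ∘ₗ (aeval D P : V →ₗ[F] V) =
      (((j + t : V →ₗ[F] V) : Module.End F V) ^ m : Module.End F V) ∘ₗ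
        (aeval D R1 : V →ₗ[F] V) := h1
    rw [h3]
    exact h2
  · have h1 := congrArg (aeval D) hR2
    rw [map_sub, map_mul, map_mul, hdd, aeval_X] at h1
    have h3 : (aeval D P : V →ₗ[F] V) - d ∘ₗ d = (j + t) ∘ₗ (aeval D R2 : V →ₗ[F] V) := h1
    rw [h3, LinearMap.add_comp]
    refine Submodule.add_mem_sup (jac_right ρ Q _ _ (ide_eqv_aeval ρ Q d hd R2) hj) ?_
    exact mem_trI_comp _ _ _ _ _ (ide_eqv_aeval ρ Q d hd R2) ht
  · have h1 := congrArg (aeval D) hR3
    rw [map_sub, map_mul, map_sub, map_one, aeval_X] at h1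
    exact h1
  · intro g hg
    have h1 := ide_cj_aeval ρ g D P
    rw [hg] at h1
    exact h1

end

end Pool.Agent.KFE
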