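import Pool.Agent.KFE.Decb
import Pool.Agent.KFE.Cross
import Pool.Agent.KFE.Ide
import Pool.Agent.KFE.Ntr

open Representation

namespace Pool.Agent.KFE

open Pool.Agent.KFV

section

variable {F : Type*} [Field F] {G V W : Type*} [Group G] [AddCommGroup V] [Module F V]
  [AddCommGroup W] [Module F W]

private theorem edat_eqv_comp {H X Y Z : Type*} [Group H] [AddCommGroup X] [Module F X]
    [AddCommGroup Y] [Module F Y] [AddCommGroup Z] [Module F Z] {a : Representation F H X}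
    {b : Representation F H Y} {c : Representation F H Z} {f : X →ₗ[F] Y} {g : Y →ₗ[F] Z}
    (hf : Eqv a b f) (hg : Eqv b c g) : Eqv a c (g ∘ₗ f) := by
  intro x
  rw [LinearMap.comp_assoc, hf x, ← LinearMap.comp_assoc, hg x, LinearMap.comp_assoc]

private theorem edat_cj_one (ρ : Representation F G V) (θ : V →ₗ[F] V) : cj ρ 1 θ = θ := by
  unfold cj
  rw [inv_one, map_one]
  rfl

private theorem edat_nonunit {H : Type*} [Group H] [Finite H] (σ : Representation F H W)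
    (hid : LinearMap.id ∉ trI σ σ) (θ : W →ₗ[F] W) (hθ : θ ∈ trI σ σ) :
    Eqv σ σ θ ∧ ¬ Function.Bijective θ := by
  have hE := eqv_of_mem_trI σ σ θ hθ
  refine ⟨hE, fun hb => hid ?_⟩
  set ι := (LinearEquiv.ofBijective θ hb).symm.toLinearMap with hι
  have h1 : ι ∘ₗ θ = LinearMap.id := by
    ext x
    exact (LinearEquiv.ofBijective θ hb).symm_apply_apply x
  have h2 : θ ∘ₗ ι = LinearMap.id := by
    ext x
    exact (LinearEquiv.ofBijective θ hb).apply_symm_apply x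
  have h3 : Eqv σ σ ι := by
    intro g
    calc ι ∘ₗ σ g = ι ∘ₗ σ g ∘ₗ (θ ∘ₗ ι) := by rw [h2, LinearMap.comp_id]
      _ = ι ∘ₗ (σ g ∘ₗ θ) ∘ₗ ι := by rfl
      _ = ι ∘ₗ (θ ∘ₗ σ g) ∘ₗ ι := by rw [hE g]
      _ = (ι ∘ₗ θ) ∘ₗ σ g ∘ₗ ι := by rfl
      _ = σ g ∘ₗ ι := by rw [h1, LinearMap.id_comp]
  rw [← h1]
  exact comp_mem_trI σ σ σ θ ι h3 hθ

/-- ROW EDAT (file Edat.lean). Uses DECB, CROSS, IDE, NTR. -/
theorem exists_e [IsAlgClosed F] [FiniteDimensional F V] [FiniteDimensional F W] [Finite G]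
    (ρ : Representation F G V) (Q : Subgroup G) (σ : Representation F Q W) (h : Indec σ)
    (hid : LinearMap.id ∉ trI σ σ) (α : W →ₗ[F] V) (β : V →ₗ[F] W)
    (hα : Eqv σ (res ρ Q) α) (hβ : Eqv (res ρ Q) σ β)
    (htr : relTr ρ ρ Q (α ∘ₗ β) = LinearMap.id)
    (N : Submodule F (W →ₗ[F] W)) (hN : ∀ θ, θ ∈ N ↔ Eqv σ σ θ ∧ ¬ Function.Bijective θ) :
    ∃ e : V →ₗ[F] V, Eqv (res ρ Q) (res ρ Q) e ∧ e - e ∘ₗ e ∈ trI (res ρ Q) (res ρ Q) ∧
      e - ntr ρ Q σ (α ∘ₗ β) ∘ₗ ntr ρ Q σ (α ∘ₗ β) ∈ jac ρ Q ⊔ trI (res ρ Q) (res ρ Q) ∧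
      (∀ g ∈ SL Q σ, cj ρ g e = e) ∧
      ∀ (α' : W →ₗ[F] V) (β' : V →ₗ[F] W), Eqv σ (res ρ Q) α' → Eqv (res ρ Q) σ β' →
        β' ∘ₗ (LinearMap.id - e) ∘ₗ α' ∈ N := by
  classical
  have hc : Eqv (res ρ Q) (res ρ Q) (α ∘ₗ β) := edat_eqv_comp hβ hα
  obtain ⟨Y, hY1, hYN, hYinj, -, hYT⟩ := dec_stab ρ Q σ (α ∘ₗ β) hc htr
  set d := ntr ρ Q σ (α ∘ₗ β) with hd
  have hdE : Eqv (res ρ Q) (res ρ Q) d := ntr_eqv ρ Q σ _ hc
  have hout : ∀ y ∈ Y.erase 1, y ∉ SL Q σ := by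
    intro y hy hyS
    have hy' := Finset.mem_erase.1 hy
    apply hy'.1
    refine (hYinj 1 hY1 y hy'.2 ?_).symm
    rw [inv_one, one_mul]
    exact hyS
  set t := LinearMap.id - ∑ y ∈ Y, cj ρ y d with ht
  have hsum : ∑ y ∈ Y, cj ρ y d = d + ∑ y ∈ Y.erase 1, cj ρ y d := by
    rw [← Finset.add_sum_erase Y _ hY1, edat_cj_one]
  have h1d : LinearMap.id - d = ∑ y ∈ Y.erase 1, cj ρ y d + t := by
    rw [ht, hsum]; abel
  have hdj : d - d ∘ₗ d ∈ jac ρ Q ⊔ trI (res ρ Q) (res ρ Q) := by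
    have e1 : d - d ∘ₗ d = ∑ y ∈ Y.erase 1, d ∘ₗ cj ρ y d + d ∘ₗ t := by
      have : d - d ∘ₗ d = d ∘ₗ (LinearMap.id - d) := by
        rw [LinearMap.comp_sub, LinearMap.comp_id]
      rw [this, h1d, LinearMap.comp_add]
      congr 1
      ext v
      simp [LinearMap.sum_apply]
    rw [e1]
    apply Submodule.add_mem
    · apply Submodule.mem_sup_left
      apply Submodule.sum_mem
      intro y hy
      exact cross_jac ρ Q σ h α β hα hβ y (hYN y (Finset.mem_of_mem_erase hy)) (hout y hy)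
    · apply Submodule.mem_sup_right
      exact comp_mem_trI (res ρ Q) (res ρ Q) (res ρ Q) t d hdE hYT
  obtain ⟨e, heE, hee, hed, ⟨k, hkE, hk⟩, hecj⟩ := exists_idem ρ Q d hdE hdj
  refine ⟨e, heE, hee, hed, fun g hg => hecj g (ntr_inv ρ Q σ _ hc g hg), ?_⟩
  intro α' β' hα' hβ'
  have hα'' : Eqv σ (res ρ Q) (k ∘ₗ α') := edat_eqv_comp hα' hkE
  have e2 : β' ∘ₗ (LinearMap.id - e) ∘ₗ α' =
      ∑ y ∈ Y.erase 1, β' ∘ₗ cj ρ y d ∘ₗ (k ∘ₗ α') + β' ∘ₗ t ∘ₗ (k ∘ₗ α') := by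
    rw [hk, h1d]
    ext v
    simp [LinearMap.sum_apply]
  rw [e2]
  apply Submodule.add_mem
  · apply Submodule.sum_mem
    intro y hy
    exact cross_nonunit ρ Q σ h α β hα hβ N hN (k ∘ₗ α') β' hα'' hβ' y
      (hYN y (Finset.mem_of_mem_erase hy)) (hout y hy)
  · rw [hN]
    apply edat_nonunit σ hid
    apply comp_mem_trI σ (res ρ Q) σ _ β' hβ'
    exact mem_trI_comp σ (res ρ Q) (res ρ Q) t (k ∘ₗ α') hα'' hYT

end

end Pool.Agent.KFE
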