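import Pool.Agent.KFE.Defs

/-!
# KFE, row FIXP: fixed points modulo a submodule
-/

set_option autoImplicit false

open Representation

namespace Pool.Agent.KFE

open Pool.Agent.KFV

section

variable {F : Type*} [Field F] {G V W : Type*} [Group G] [AddCommGroup V] [Module F V]
  [AddCommGroup W] [Module F W]

/-- ROW FIXP (file Fixp.lean). -/
theorem exists_fixed_mod {N X : Type*} [Group N] [Finite N] [AddCommGroup X] [Module F X] (p : ℕ)
    [Fact p.Prime] [CharP F p] (τ : Representation F N X) (K : Subgroup N) [K.Normal]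
    (hK : ∀ n : N, ∃ k : ℕ, n ^ (p ^ k) ∈ K) (S T : Submodule F X)
    (hS : ∀ n, ∀ x ∈ S, τ n x ∈ S) (hT : ∀ n, ∀ x ∈ T, τ n x ∈ T)
    (hKS : ∀ c ∈ K, ∀ x ∈ S, τ c x - x ∈ T) (hST : ¬ S ≤ T) :
    ∃ x ∈ S, x ∉ T ∧ ∀ n, τ n x - x ∈ T := by
  classical
  obtain ⟨x0, hx0S, hx0T⟩ := Set.not_subset.1 hST
  -- the additive group generated by the images of the orbit of `x0` modulo `T`
  let v : N → X ⧸ T := fun n => T.mkQ (τ n x0)
  let B : AddSubgroup (X ⧸ T) := AddSubgroup.closure (Set.range v)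
  -- every element of `B` is the image of an element of `S`
  have hBS : ∀ b ∈ B, ∃ x ∈ S, T.mkQ x = b := by
    intro b hb
    induction hb using AddSubgroup.closure_induction with
    | mem y hy =>
      obtain ⟨n, rfl⟩ := hy
      exact ⟨τ n x0, hS n x0 hx0S, rfl⟩
    | zero => exact ⟨0, S.zero_mem, map_zero _⟩
    | add y z _ _ hy hz =>
      obtain ⟨a, ha, rfl⟩ := hy
      obtain ⟨c, hc, rfl⟩ := hz
      exact ⟨a + c, S.add_mem ha hc, map_add _ _ _⟩
    | neg y _ hy =>
      obtain ⟨a, ha, rfl⟩ := hy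
      exact ⟨-a, S.neg_mem ha, map_neg _ _⟩
  let act : N → (X ⧸ T) →ₗ[F] (X ⧸ T) := fun n => T.mapQ T (τ n) (fun x hx => hT n x hx)
  have hact : ∀ n x, act n (T.mkQ x) = T.mkQ (τ n x) := fun n x => rfl
  have hactB : ∀ n, ∀ b ∈ B, act n b ∈ B := by
    intro n b hb
    induction hb using AddSubgroup.closure_induction with
    | mem y hy =>
      obtain ⟨n', rfl⟩ := hy
      refine AddSubgroup.subset_closure ⟨n * n', ?_⟩
      show T.mkQ (τ (n * n') x0) = act n (T.mkQ (τ n' x0))
      rw [hact, map_mul]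
      rfl
    | zero => rw [map_zero]; exact B.zero_mem
    | add y z _ _ hy hz => rw [map_add]; exact B.add_mem hy hz
    | neg y _ hy => rw [map_neg]; exact B.neg_mem hy
  have hact1 : ∀ b, act 1 b = b := by
    intro b
    obtain ⟨x, rfl⟩ := T.mkQ_surjective b
    rw [hact, map_one]
    rfl
  have hactm : ∀ n n' b, act (n * n') b = act n (act n' b) := by
    intro n n' b
    obtain ⟨x, rfl⟩ := T.mkQ_surjective b
    rw [hact, hact, hact, map_mul]
    rfl
  -- the action on `B`
  let _ : MulAction N B :=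
    { smul := fun n b => ⟨act n b.1, hactB n b.1 b.2⟩
      one_smul := fun b => Subtype.ext (hact1 b.1)
      mul_smul := fun n n' b => Subtype.ext (hactm n n' b.1) }
  have hsmul : ∀ (n : N) (b : B), ((n • b : B) : X ⧸ T) = act n b := fun n b => rfl
  -- finiteness
  have hpX : ∀ y : X ⧸ T, p • y = 0 := by
    intro y
    rw [← Nat.cast_smul_eq_nsmul F p y, CharP.cast_eq_zero, zero_smul]
  have hfin : Finite B := by
    have : AddGroup.FG B := AddGroup.closure_finite_fg (Set.range v)
    refine AddCommGroup.finite_of_fg_isAddTorsion B ?_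
    intro b
    exact isOfFinAddOrder_iff_nsmul_eq_zero.2
      ⟨p, (Fact.out : p.Prime).pos, Subtype.ext (hpX b.1)⟩
  have hx0B : T.mkQ x0 ∈ B := by
    refine AddSubgroup.subset_closure ⟨1, ?_⟩
    show T.mkQ (τ 1 x0) = T.mkQ x0
    rw [map_one]
    rfl
  have hx0 : T.mkQ x0 ≠ 0 := by
    intro h
    rw [Submodule.mkQ_apply, Submodule.Quotient.mk_eq_zero] at h
    exact hx0T h
  have hpc : p ∣ Nat.card B := by
    have h1 : addOrderOf (⟨T.mkQ x0, hx0B⟩ : B) = p := by
      apply addOrderOf_eq_prime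
      · exact Subtype.ext (hpX _)
      · intro h
        exact hx0 (congrArg Subtype.val h)
    rw [← h1]
    exact addOrderOf_dvd_natCard _
  -- the image of `N` in the permutations of `B` is a `p`-group
  let f : N →* Equiv.Perm B := MulAction.toPermHom N B
  have hP : IsPGroup p f.range := by
    rintro ⟨_, n, rfl⟩
    obtain ⟨k, hk⟩ := hK n
    refine ⟨k, ?_⟩
    apply Subtype.ext
    show f n ^ p ^ k = 1
    rw [← map_pow]
    ext b
    show ((n ^ p ^ k) • b : B).1 = b.1
    rw [hsmul]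
    obtain ⟨x, hxS, hxb⟩ := hBS b.1 b.2
    rw [← hxb, hact, ← sub_eq_zero, ← map_sub, Submodule.mkQ_apply,
      Submodule.Quotient.mk_eq_zero]
    exact hKS _ hk x hxS
  have h0 : (0 : B) ∈ MulAction.fixedPoints f.range B := by
    rintro ⟨_, n, rfl⟩
    show f n 0 = 0
    apply Subtype.ext
    show act n 0 = 0
    exact map_zero _
  obtain ⟨b, hb, hb0⟩ := hP.exists_fixed_point_of_prime_dvd_card_of_fixed_point B hpc h0
  obtain ⟨x, hxS, hxb⟩ := hBS b.1 b.2
  refine ⟨x, hxS, ?_, ?_⟩
  · intro hxT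
    apply hb0
    apply Subtype.ext
    rw [← hxb, Submodule.mkQ_apply, (Submodule.Quotient.mk_eq_zero T).2 hxT]
    rfl
  · intro n
    have h1 : f n b = b := hb ⟨f n, n, rfl⟩
    have h2 : act n b.1 = b.1 := congrArg Subtype.val h1
    rw [← hxb, hact, ← sub_eq_zero, ← map_sub, Submodule.mkQ_apply,
      Submodule.Quotient.mk_eq_zero] at h2
    exact h2

end

end Pool.Agent.KFE
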