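import Pool.Agent.KFE.Defs2
import Pool.Agent.KFE.Ctr
import Pool.Agent.KFE.Jac

/-!
# KFE, row JPOW: the powers of the radical of the algebra of `Q`-endomorphisms
-/

open Representation

namespace Pool.Agent.KFE

open Pool.Agent.KFV

section

variable {F : Type*} [Field F] {G V W : Type*} [Group G] [AddCommGroup V] [Module F V]
  [AddCommGroup W] [Module F W]

private theorem jpow_mem_jac (ρ : Representation F G V) (Q : Subgroup G) (x : V →ₗ[F] V) :
    x ∈ jac ρ Q ↔ ∃ y : endAlg ρ Q, y ∈ Ideal.jacobson (⊥ : Ideal (endAlg ρ Q)) ∧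
      (y : Module.End F V) = x := by
  unfold jac
  rw [Submodule.mem_map]
  constructor
  · rintro ⟨y, hy, hyx⟩
    exact ⟨y, hy, hyx⟩
  · rintro ⟨y, hy, hyx⟩
    exact ⟨y, hy, hyx⟩

/-- The radical is a left ideal. -/
theorem jac_left (ρ : Representation F G V) (Q : Subgroup G) (f x : V →ₗ[F] V)
    (hf : Eqv (res ρ Q) (res ρ Q) f) (hx : x ∈ jac ρ Q) : f ∘ₗ x ∈ jac ρ Q := by
  obtain ⟨y, hy, rfl⟩ := (jpow_mem_jac ρ Q x).1 hx
  refine (jpow_mem_jac ρ Q _).2 ⟨⟨f, (mem_endAlg ρ Q f).2 hf⟩ * y, ?_, rfl⟩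
  exact Ideal.mul_mem_left _ _ hy

/-- The radical is a right ideal. -/
theorem jac_right [FiniteDimensional F V] (ρ : Representation F G V) (Q : Subgroup G)
    (f x : V →ₗ[F] V) (hf : Eqv (res ρ Q) (res ρ Q) f) (hx : x ∈ jac ρ Q) :
    x ∘ₗ f ∈ jac ρ Q := by
  obtain ⟨y, hy, rfl⟩ := (jpow_mem_jac ρ Q x).1 hx
  refine (jpow_mem_jac ρ Q _).2 ⟨y * ⟨f, (mem_endAlg ρ Q f).2 hf⟩, ?_, rfl⟩
  exact Ideal.mul_mem_right _ _ hy

theorem jp_mul (ρ : Representation F G V) (Q : Subgroup G) (k : ℕ) (a b : V →ₗ[F] V)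
    (ha : a ∈ jac ρ Q) (hb : b ∈ jpow ρ Q k) : a ∘ₗ b ∈ jpow ρ Q (k + 1) := by
  unfold jpow
  exact Submodule.subset_span ⟨a, ha, b, hb, rfl⟩

theorem jp_left (ρ : Representation F G V) (Q : Subgroup G) (k : ℕ) (f b : V →ₗ[F] V)
    (hf : Eqv (res ρ Q) (res ρ Q) f) (hb : b ∈ jpow ρ Q k) : f ∘ₗ b ∈ jpow ρ Q k := by
  cases k with
  | zero =>
    unfold jpow at hb ⊢
    induction hb using Submodule.span_induction with
    | mem x hx => exact Submodule.subset_span (Eqv.comp hf hx)
    | zero => rw [LinearMap.comp_zero]; exact zero_mem _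
    | add x y _ _ hx hy => rw [LinearMap.comp_add]; exact add_mem hx hy
    | smul c x _ hx => rw [LinearMap.comp_smul]; exact Submodule.smul_mem _ _ hx
  | succ k =>
    unfold jpow at hb ⊢
    induction hb using Submodule.span_induction with
    | mem x hx =>
      obtain ⟨a, ha, b, hb, rfl⟩ := hx
      exact Submodule.subset_span ⟨f ∘ₗ a, jac_left ρ Q f a hf ha, b, hb, rfl⟩
    | zero => rw [LinearMap.comp_zero]; exact zero_mem _
    | add x y _ _ hx hy => rw [LinearMap.comp_add]; exact add_mem hx hy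
    | smul c x _ hx => rw [LinearMap.comp_smul]; exact Submodule.smul_mem _ _ hx

theorem jp_right (ρ : Representation F G V) (Q : Subgroup G) (k : ℕ) (f b : V →ₗ[F] V)
    (hf : Eqv (res ρ Q) (res ρ Q) f) (hb : b ∈ jpow ρ Q k) : b ∘ₗ f ∈ jpow ρ Q k := by
  induction k generalizing b with
  | zero =>
    unfold jpow at hb ⊢
    induction hb using Submodule.span_induction with
    | mem x hx => exact Submodule.subset_span (Eqv.comp hx hf)
    | zero => rw [LinearMap.zero_comp]; exact zero_mem _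
    | add x y _ _ hx hy => rw [LinearMap.add_comp]; exact add_mem hx hy
    | smul c x _ hx => rw [LinearMap.smul_comp]; exact Submodule.smul_mem _ _ hx
  | succ k ih =>
    unfold jpow at hb ⊢
    induction hb using Submodule.span_induction with
    | mem x hx =>
      obtain ⟨a, ha, b, hb, rfl⟩ := hx
      exact Submodule.subset_span ⟨a, ha, b ∘ₗ f, ih b hb, rfl⟩
    | zero => rw [LinearMap.zero_comp]; exact zero_mem _
    | add x y _ _ hx hy => rw [LinearMap.add_comp]; exact add_mem hx hy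
    | smul c x _ hx => rw [LinearMap.smul_comp]; exact Submodule.smul_mem _ _ hx

private theorem jpow_cj_comp (ρ : Representation F G V) (g : G) (a b : V →ₗ[F] V) :
    cj ρ g (a ∘ₗ b) = cj ρ g a ∘ₗ cj ρ g b := by
  have h : ∀ v, ρ g⁻¹ (ρ g v) = v := fun v => by
    rw [← Module.End.mul_apply, ← map_mul, inv_mul_cancel, map_one]; rfl
  unfold cj
  ext v
  show ρ g (a (b (ρ g⁻¹ v))) = ρ g (a (ρ g⁻¹ (ρ g (b (ρ g⁻¹ v)))))
  rw [h]

private theorem jpow_cj_zero (ρ : Representation F G V) (g : G) :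
    cj ρ g (0 : V →ₗ[F] V) = 0 := by
  unfold cj
  rw [LinearMap.zero_comp, LinearMap.comp_zero]

private theorem jpow_cj_add (ρ : Representation F G V) (g : G) (a b : V →ₗ[F] V) :
    cj ρ g (a + b) = cj ρ g a + cj ρ g b := by
  unfold cj
  rw [LinearMap.add_comp, LinearMap.comp_add]

private theorem jpow_cj_smul (ρ : Representation F G V) (g : G) (c : F) (a : V →ₗ[F] V) :
    cj ρ g (c • a) = c • cj ρ g a := by
  unfold cj
  rw [LinearMap.smul_comp, LinearMap.comp_smul]

theorem jp_cj [Finite G] (ρ : Representation F G V) (Q : Subgroup G) (k : ℕ) (b : V →ₗ[F] V)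
    (hb : b ∈ jpow ρ Q k) (g : G) (hg : g ∈ Subgroup.normalizer (Q : Set G)) :
    cj ρ g b ∈ jpow ρ Q k := by
  induction k generalizing b with
  | zero =>
    unfold jpow at hb ⊢
    induction hb using Submodule.span_induction with
    | mem x hx => exact Submodule.subset_span (cj_eqv ρ Q g hg x hx)
    | zero => rw [jpow_cj_zero]; exact zero_mem _
    | add x y _ _ hx hy => rw [jpow_cj_add]; exact add_mem hx hy
    | smul c x _ hx => rw [jpow_cj_smul]; exact Submodule.smul_mem _ _ hx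
  | succ k ih =>
    unfold jpow at hb ⊢
    induction hb using Submodule.span_induction with
    | mem x hx =>
      obtain ⟨a, ha, b, hb, rfl⟩ := hx
      rw [jpow_cj_comp]
      exact Submodule.subset_span ⟨_, jac_cj ρ Q a ha g hg, _, ih b hb, rfl⟩
    | zero => rw [jpow_cj_zero]; exact zero_mem _
    | add x y _ _ hx hy => rw [jpow_cj_add]; exact add_mem hx hy
    | smul c x _ hx => rw [jpow_cj_smul]; exact Submodule.smul_mem _ _ hx

theorem jp_one (ρ : Representation F G V) (Q : Subgroup G) (b : V →ₗ[F] V)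
    (hb : b ∈ jac ρ Q) : b ∈ jpow ρ Q 1 := by
  have h : (LinearMap.id : V →ₗ[F] V) ∈ jpow ρ Q 0 := by
    unfold jpow
    exact Submodule.subset_span fun g => rfl
  have h1 := jp_mul ρ Q 0 b LinearMap.id hb h
  rwa [LinearMap.comp_id] at h1

private theorem jpow_le_pow (ρ : Representation F G V) (Q : Subgroup G) (k : ℕ)
    (b : V →ₗ[F] V) (hb : b ∈ jpow ρ Q (k + 1)) :
    ∃ y : endAlg ρ Q, y ∈ (Ideal.jacobson (⊥ : Ideal (endAlg ρ Q))) ^ (k + 1) ∧
      (y : Module.End F V) = b := by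
  set J : Ideal (endAlg ρ Q) := Ideal.jacobson (⊥ : Ideal (endAlg ρ Q)) with hJ
  -- scalar multiples stay in every ideal
  have hsm : ∀ (I : Ideal (endAlg ρ Q)) (c : F) (y : endAlg ρ Q), y ∈ I → c • y ∈ I := by
    intro I c y hy
    rw [Algebra.smul_def]
    exact Ideal.mul_mem_left _ _ hy
  induction k generalizing b with
  | zero =>
    unfold jpow at hb
    induction hb using Submodule.span_induction with
    | mem x hx =>
      obtain ⟨a, ha, b, hb, rfl⟩ := hx
      obtain ⟨y, hy, rfl⟩ := (jpow_mem_jac ρ Q a).1 ha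
      have hb' : Eqv (res ρ Q) (res ρ Q) b := by
        unfold jpow at hb
        induction hb using Submodule.span_induction with
        | mem x hx => exact hx
        | zero => intro g; rw [LinearMap.zero_comp, LinearMap.comp_zero]
        | add x y _ _ hx hy => intro g; rw [LinearMap.add_comp, LinearMap.comp_add, hx, hy]
        | smul c x _ hx => intro g; rw [LinearMap.smul_comp, LinearMap.comp_smul, hx]
      refine ⟨y * ⟨b, (mem_endAlg ρ Q b).2 hb'⟩, ?_, rfl⟩
      have e : J ^ (0 + 1) = J := Submodule.pow_one J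
      rw [e]
      exact Ideal.mul_mem_right _ _ hy
    | zero => exact ⟨0, zero_mem _, rfl⟩
    | add x y _ _ hx hy =>
      obtain ⟨x', hx', rfl⟩ := hx
      obtain ⟨y', hy', rfl⟩ := hy
      exact ⟨x' + y', add_mem hx' hy', rfl⟩
    | smul c x _ hx =>
      obtain ⟨x', hx', rfl⟩ := hx
      exact ⟨c • x', hsm _ c x' hx', rfl⟩
  | succ k ih =>
    unfold jpow at hb
    induction hb using Submodule.span_induction with
    | mem x hx =>
      obtain ⟨a, ha, b, hb, rfl⟩ := hx
      obtain ⟨y, hy, rfl⟩ := (jpow_mem_jac ρ Q a).1 ha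
      obtain ⟨z, hz, rfl⟩ := ih b hb
      refine ⟨y * z, ?_, rfl⟩
      have e : J ^ (k + 1 + 1) = J * J ^ (k + 1) := by
        rw [Submodule.pow_succ']
        simp
      rw [e]
      exact Submodule.mul_mem_mul hy hz
    | zero => exact ⟨0, zero_mem _, rfl⟩
    | add x y _ _ hx hy =>
      obtain ⟨x', hx', rfl⟩ := hx
      obtain ⟨y', hy', rfl⟩ := hy
      exact ⟨x' + y', add_mem hx' hy', rfl⟩
    | smul c x _ hx =>
      obtain ⟨x', hx', rfl⟩ := hx
      exact ⟨c • x', hsm _ c x' hx', rfl⟩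

/-- The radical is nilpotent. -/
theorem jp_nil [FiniteDimensional F V] (ρ : Representation F G V) (Q : Subgroup G) :
    ∃ K : ℕ, ∀ b ∈ jpow ρ Q K, b = 0 := by
  have hart : IsArtinianRing (endAlg ρ Q) := by
    have : FiniteDimensional F (endAlg ρ Q) :=
      FiniteDimensional.finiteDimensional_submodule (Subalgebra.toSubmodule (endAlg ρ Q))
    exact IsArtinianRing.of_finite F (endAlg ρ Q)
  obtain ⟨n, hn⟩ := IsArtinianRing.isNilpotent_jacobson_bot (R := endAlg ρ Q)
  refine ⟨n + 1, fun b hb => ?_⟩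
  obtain ⟨y, hy, rfl⟩ := jpow_le_pow ρ Q n b hb
  have hN : (Ideal.jacobson (⊥ : Ideal (endAlg ρ Q))) ^ (n + 1) = ⊥ := by
    rw [Submodule.pow_succ, hn]
    exact Submodule.bot_mul _
  rw [hN, Ideal.mem_bot] at hy
  rw [hy]
  rfl

end

end Pool.Agent.KFE
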