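import Pool.Agent.KFE.Defs2
import Pool.Agent.KFE.Trc
import Pool.Agent.KFE.Ctr
import Pool.Agent.KFE.Jac
import Pool.Agent.KFE.Jpow
import Pool.Agent.KFE.Clx
import Pool.Agent.KFE.Fixp

/-!
# KFE: the compressed trace of an element of the Jacobson radical
-/

open Representation

namespace Pool.Agent.KFE

open Pool.Agent.KFV

section

variable {F : Type*} [Field F] {G V W : Type*} [Group G] [AddCommGroup V] [Module F V]
  [AddCommGroup W] [Module F W]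

private theorem rinvB (ρ : Representation F G V) (h : G) (v : V) : ρ h⁻¹ (ρ h v) = v := by
  rw [← Module.End.mul_apply, ← map_mul, inv_mul_cancel, map_one]; rfl

private theorem cj_compB (ρ : Representation F G V) (g : G) (a b : V →ₗ[F] V) :
    cj ρ g (a ∘ₗ b) = cj ρ g a ∘ₗ cj ρ g b := by
  unfold cj
  ext v
  show ρ g (a (b (ρ g⁻¹ v))) = ρ g (a (ρ g⁻¹ (ρ g (b (ρ g⁻¹ v)))))
  rw [rinvB]

/-- The map `j ↦ e (ctr j) e` as a linear map. -/
private noncomputable def ctrE [Finite G] (ρ : Representation F G V) (Q : Subgroup G)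
    (e : V →ₗ[F] V) : (V →ₗ[F] V) →ₗ[F] (V →ₗ[F] V) where
  toFun j := e ∘ₗ ctr ρ Q j ∘ₗ e
  map_add' θ θ' := by
    have h1 : ctr ρ Q (θ + θ') = ctr ρ Q θ + ctr ρ Q θ' := by
      unfold ctr
      exact relTr_add _ _ _ _ _
    rw [h1, LinearMap.add_comp, LinearMap.comp_add]
  map_smul' c θ := by
    have h1 : ctr ρ Q (c • θ) = c • ctr ρ Q θ := by
      unfold ctr
      exact relTr_smul _ _ _ _ _
    rw [h1, LinearMap.smul_comp, LinearMap.comp_smul]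
    rfl

private theorem KB_normal (Q : Subgroup G) (σ : Representation F Q W) :
    ((Q ⊔ Subgroup.centralizer (Q : Set G)).subgroupOf (SL Q σ)).Normal := by
  constructor
  intro n hn g
  rw [Subgroup.mem_subgroupOf] at hn ⊢
  have hg : (g : G) ∈ Subgroup.normalizer (Q : Set G) := SL_le Q σ g.2
  have key : Q ⊔ Subgroup.centralizer (Q : Set G) ≤
      (Q ⊔ Subgroup.centralizer (Q : Set G)).comap (MulAut.conj (g : G)).toMonoidHom := by
    refine sup_le ?_ ?_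
    · intro q hq
      rw [Subgroup.mem_comap]
      refine Subgroup.mem_sup_left ?_
      exact ((Subgroup.mem_normalizer_iff.1 hg) q).1 hq
    · intro z hz
      rw [Subgroup.mem_comap]
      refine Subgroup.mem_sup_right ?_
      rw [Subgroup.mem_centralizer_iff] at hz ⊢
      intro q hq
      have h1 : (g : G)⁻¹ * q * (g : G) ∈ Q := by
        have h2 := ((Subgroup.mem_normalizer_iff.1 hg) ((g : G)⁻¹ * q * (g : G))).2
        apply h2
        have h3 : (g : G) * ((g : G)⁻¹ * q * (g : G)) * (g : G)⁻¹ = q := by group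
        rw [h3]; exact hq
      have h2 := hz _ h1
      show q * ((g : G) * z * (g : G)⁻¹) = (g : G) * z * (g : G)⁻¹ * q
      calc q * ((g : G) * z * (g : G)⁻¹) = (g : G) * (((g : G)⁻¹ * q * (g : G)) * z) * (g : G)⁻¹ := by
            group
        _ = (g : G) * (z * ((g : G)⁻¹ * q * (g : G))) * (g : G)⁻¹ := by rw [h2]
        _ = (g : G) * z * (g : G)⁻¹ * q := by group
  exact key hn

theorem ctr_mem_stab [IsAlgClosed F] [FiniteDimensional F V] [FiniteDimensional F W]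
    [Finite G] (p : ℕ) [Fact p.Prime] [CharP F p] (ρ : Representation F G V)
    (hρ : ρ.IsIrreducible) (Q : Subgroup G) (σ : Representation F Q W)
    (h : IsVertexSource ρ Q σ) (hE : PStab p Q σ) (α : W →ₗ[F] V) (β : V →ₗ[F] W)
    (hα : Eqv σ (res ρ Q) α) (hβ : Eqv (res ρ Q) σ β)
    (htr : relTr ρ ρ Q (α ∘ₗ β) = LinearMap.id) (e : V →ₗ[F] V)
    (he : Eqv (res ρ Q) (res ρ Q) e) (hee : e - e ∘ₗ e ∈ trI (res ρ Q) (res ρ Q))
    (hed : e - ntr ρ Q σ (α ∘ₗ β) ∘ₗ ntr ρ Q σ (α ∘ₗ β) ∈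
      jac ρ Q ⊔ trI (res ρ Q) (res ρ Q))
    (hec : ∀ g ∈ SL Q σ, cj ρ g e = e) (x : V →ₗ[F] V) (hx : x ∈ jac ρ Q) :
    e ∘ₗ ctr ρ Q x ∘ₗ e ∈ trI (res ρ Q) (res ρ Q) := by
  classical
  set S : Submodule F (V →ₗ[F] V) := (jac ρ Q).map (ctrE ρ Q e) with hS
  by_contra hcon
  have hST : ¬ S ≤ trI (res ρ Q) (res ρ Q) := by
    intro hle
    exact hcon (hle ⟨x, hx, rfl⟩)
  have := KB_normal Q σ
  let τ : Representation F (SL Q σ) (V →ₗ[F] V) := (linHom ρ ρ).comp (SL Q σ).subtype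
  have hτ : ∀ (n : SL Q σ) (θ : V →ₗ[F] V), τ n θ = cj ρ n θ := by
    intro n θ
    rfl
  have hQC := QC_le_SL Q σ
  obtain ⟨y, hyS, hyT, hfix⟩ := exists_fixed_mod p τ
    ((Q ⊔ Subgroup.centralizer (Q : Set G)).subgroupOf (SL Q σ))
    (fun n => by
      obtain ⟨k, hk⟩ := hE n n.2
      exact ⟨k, by rw [Subgroup.mem_subgroupOf]; simpa using hk⟩)
    S (trI (res ρ Q) (res ρ Q))
    (by
      rintro n _ ⟨j, hj, rfl⟩
      rw [hτ]
      refine ⟨cj ρ n j, jac_cj ρ Q j hj n (SL_le Q σ n.2), ?_⟩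
      show e ∘ₗ ctr ρ Q (cj ρ n j) ∘ₗ e = cj ρ n (e ∘ₗ ctr ρ Q j ∘ₗ e)
      rw [cj_compB, cj_compB, hec n n.2, ctr_cj ρ Q j (jac_eqv ρ Q j hj) n (SL_le Q σ n.2)])
    (by
      intro n θ hθ
      rw [hτ]
      exact trI_cj ρ Q n (SL_le Q σ n.2) θ hθ)
    (by
      rintro c hc _ ⟨j, hj, rfl⟩
      rw [hτ]
      have h1 : cj ρ c (ctr ρ Q j) = ctr ρ Q j :=
        ctr_comm ρ Q j (jac_eqv ρ Q j hj) c (Subgroup.mem_subgroupOf.1 hc)
      show cj ρ c (e ∘ₗ ctr ρ Q j ∘ₗ e) - e ∘ₗ ctr ρ Q j ∘ₗ e ∈ _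
      rw [cj_compB, cj_compB, hec c c.2, h1, sub_self]
      exact Submodule.zero_mem _)
    hST
  obtain ⟨j, hj, rfl⟩ := hyS
  have hyc : ctrE ρ Q e j = e ∘ₗ ctr ρ Q j ∘ₗ e := rfl
  rw [hyc] at hyT hfix
  have hjac0 : ctr ρ Q j ∈ jac ρ Q := by
    obtain ⟨Z, hZ, hZs⟩ := ctr_sum ρ Q
    rw [hZs]
    exact Submodule.sum_mem _ (fun z hz => jac_cj ρ Q j hj z
      (SL_le Q σ (C_le_SL Q σ (hZ z hz))))
  have hjac : e ∘ₗ ctr ρ Q j ∘ₗ e ∈ jac ρ Q :=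
    jac_left ρ Q e _ he (jac_right ρ Q e _ he hjac0)
  have hEq0 : Eqv (res ρ Q) (res ρ Q) (ctr ρ Q j) := ctr_eqv ρ Q j (jac_eqv ρ Q j hj)
  have hEq1 : Eqv (res ρ Q) (res ρ Q) (ctr ρ Q j ∘ₗ e) := by
    intro q
    rw [LinearMap.comp_assoc, he q, ← LinearMap.comp_assoc, hEq0 q, LinearMap.comp_assoc]
  apply hyT
  refine mem_of_fixed ρ hρ Q σ h α β hα hβ htr e he hed _ hjac ?_ ?_
  · have h1 : e ∘ₗ (e ∘ₗ ctr ρ Q j ∘ₗ e) - e ∘ₗ ctr ρ Q j ∘ₗ e =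
        -((e - e ∘ₗ e) ∘ₗ (ctr ρ Q j ∘ₗ e)) := by
      rw [LinearMap.sub_comp]
      simp only [LinearMap.comp_assoc]
      abel
    rw [h1]
    exact Submodule.neg_mem _ (mem_trI_comp _ _ _ _ _ hEq1 hee)
  · intro g hg
    have h1 := hfix ⟨g, hg⟩
    rw [hτ] at h1
    exact h1

end

end Pool.Agent.KFE
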