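import Pool.Agent.KFE.Defs
import Pool.Agent.KFE.Fixp
import Pool.Agent.KFE.Trc
import Pool.Agent.KFE.Ctr
import Pool.Agent.KFE.Jac
import Pool.Agent.KFE.Ans

/-!
# KFE: the trace over the centraliser of an element of the Jacobson radical
-/

open Representation

namespace Pool.Agent.KFE

open Pool.Agent.KFV

section

variable {F : Type*} [Field F] {G V W : Type*} [Group G] [AddCommGroup V] [Module F V]
  [AddCommGroup W] [Module F W]

/-- The trace over the centraliser as a linear map. -/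
private noncomputable def ctrL [Finite G] (ρ : Representation F G V) (Q : Subgroup G) :
    (V →ₗ[F] V) →ₗ[F] (V →ₗ[F] V) where
  toFun := ctr ρ Q
  map_add' θ θ' := by
    unfold ctr
    exact relTr_add _ _ _ _ _
  map_smul' c θ := by
    unfold ctr
    exact relTr_smul _ _ _ _ _

private theorem centralizer_le_normalizer' (Q : Subgroup G) (z : G)
    (hz : z ∈ Subgroup.centralizer (Q : Set G)) : z ∈ Subgroup.normalizer (Q : Set G) := by
  rw [Subgroup.mem_normalizer_iff]
  intro h
  rw [Subgroup.mem_centralizer_iff] at hz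
  constructor
  · intro hh
    have h1 := hz h hh
    have h2 : z * h * z⁻¹ = h := by rw [← h1]; group
    rw [h2]; exact hh
  · intro hh
    have h1 := hz _ hh
    have h2 : z * h * z⁻¹ = h := by
      have h3 : z * h = z * (z * h * z⁻¹) := by rw [← h1]; group
      exact (mul_left_cancel h3).symm
    rw [h2] at hh; exact hh

private theorem K_normal (Q : Subgroup G) :
    ((Q ⊔ Subgroup.centralizer (Q : Set G)).subgroupOf
      (Subgroup.normalizer (Q : Set G))).Normal := by
  constructor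
  intro n hn g
  rw [Subgroup.mem_subgroupOf] at hn ⊢
  have hg : (g : G) ∈ Subgroup.normalizer (Q : Set G) := g.2
  have key : Q ⊔ Subgroup.centralizer (Q : Set G) ≤
      (Q ⊔ Subgroup.centralizer (Q : Set G)).comap (MulAut.conj (g : G)).toMonoidHom := by
    refine sup_le ?_ ?_
    · intro q hq
      rw [Subgroup.mem_comap]
      refine Subgroup.mem_sup_left ?_
      exact ((Subgroup.mem_normalizer_iff.1 hg) q).1 hq
    · intro z hz
      rw [Subgroup.mem_comap]
      refine Subgroup.mem_sup_right ?_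
      rw [Subgroup.mem_centralizer_iff] at hz ⊢
      intro q hq
      have h1 : (g : G)⁻¹ * q * (g : G) ∈ Q := by
        have h2 := ((Subgroup.mem_normalizer_iff.1 hg) ((g : G)⁻¹ * q * (g : G))).2
        apply h2
        have h3 : (g : G) * ((g : G)⁻¹ * q * (g : G)) * (g : G)⁻¹ = q := by group
        rw [h3]; exact hq
      have h2 := hz _ h1
      show q * ((g : G) * z * (g : G)⁻¹) = (g : G) * z * (g : G)⁻¹ * q
      calc q * ((g : G) * z * (g : G)⁻¹) = (g : G) * (((g : G)⁻¹ * q * (g : G)) * z) * (g : G)⁻¹ := by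
            group
        _ = (g : G) * (z * ((g : G)⁻¹ * q * (g : G))) * (g : G)⁻¹ := by rw [h2]
        _ = (g : G) * z * (g : G)⁻¹ * q := by group
  exact key hn

/-- The trace over the centraliser maps the Jacobson radical of the algebra of the
`Q`-endomorphisms into the relative traces from proper subgroups. -/
theorem ctr_mem [IsAlgClosed F] [FiniteDimensional F V] [Finite G] (p : ℕ) [Fact p.Prime]
    [CharP F p] (ρ : Representation F G V) (hρ : ρ.IsIrreducible) (Q : Subgroup G)
    (σ : Representation F Q W) (h : IsVertexSource ρ Q σ) (hE : PCond p Q) (x : V →ₗ[F] V)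
    (hx : x ∈ jac ρ Q) : ctr ρ Q x ∈ trI (res ρ Q) (res ρ Q) := by
  classical
  set S : Submodule F (V →ₗ[F] V) := (jac ρ Q).map (ctrL ρ Q) with hS
  by_contra hcon
  have hST : ¬ S ≤ trI (res ρ Q) (res ρ Q) := by
    intro hle
    exact hcon (hle ⟨x, hx, rfl⟩)
  have := K_normal Q
  let τ : Representation F (Subgroup.normalizer (Q : Set G)) (V →ₗ[F] V) :=
    (linHom ρ ρ).comp (Subgroup.normalizer (Q : Set G)).subtype
  have hτ : ∀ (n : Subgroup.normalizer (Q : Set G)) (θ : V →ₗ[F] V), τ n θ = cj ρ n θ := by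
    intro n θ
    rfl
  obtain ⟨y, hyS, hyT, hfix⟩ := exists_fixed_mod p τ
    ((Q ⊔ Subgroup.centralizer (Q : Set G)).subgroupOf (Subgroup.normalizer (Q : Set G)))
    (fun n => by
      obtain ⟨k, hk⟩ := hE n n.2
      exact ⟨k, by rw [Subgroup.mem_subgroupOf]; simpa using hk⟩)
    S (trI (res ρ Q) (res ρ Q))
    (by
      rintro n _ ⟨j, hj, rfl⟩
      rw [hτ]
      refine ⟨cj ρ n j, jac_cj ρ Q j hj n n.2, ?_⟩
      exact (ctr_cj ρ Q j (jac_eqv ρ Q j hj) n n.2).symm)
    (by
      intro n θ hθ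
      rw [hτ]
      exact trI_cj ρ Q n n.2 θ hθ)
    (by
      rintro c hc _ ⟨j, hj, rfl⟩
      rw [hτ]
      have h1 : cj ρ c (ctr ρ Q j) = ctr ρ Q j :=
        ctr_comm ρ Q j (jac_eqv ρ Q j hj) c (Subgroup.mem_subgroupOf.1 hc)
      show cj ρ c (ctr ρ Q j) - ctr ρ Q j ∈ _
      rw [h1, sub_self]
      exact Submodule.zero_mem _)
    hST
  obtain ⟨j, hj, rfl⟩ := hyS
  have hyc : ctrL ρ Q j = ctr ρ Q j := rfl
  rw [hyc] at hyT hfix
  have hEq : Eqv (res ρ Q) (res ρ Q) (ctr ρ Q j) := ctr_eqv ρ Q j (jac_eqv ρ Q j hj)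
  obtain ⟨c, hc⟩ := fixed_scalar ρ hρ Q σ h (ctr ρ Q j) hEq (fun g hg => by
    have := hfix ⟨g, hg⟩
    rw [hτ] at this
    exact this)
  have hjac : ctr ρ Q j ∈ jac ρ Q := by
    obtain ⟨Z, hZ, hZs⟩ := ctr_sum ρ Q
    rw [hZs]
    exact Submodule.sum_mem _ (fun z hz => jac_cj ρ Q j hj z
      (centralizer_le_normalizer' Q z (hZ z hz)))
  by_cases hc0 : c = 0
  · rw [hc0, zero_smul, sub_zero] at hc
    exact hyT hc
  · refine no_id ρ hρ Q σ h (-(c⁻¹ • (ctr ρ Q j - c • LinearMap.id))) (c⁻¹ • ctr ρ Q j)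
      (Submodule.neg_mem _ (Submodule.smul_mem _ _ hc)) (Submodule.smul_mem _ _ hjac) ?_
    rw [smul_sub, smul_smul, inv_mul_cancel₀ hc0, one_smul]
    abel

end

end Pool.Agent.KFE
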