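import Pool.Agent.KFE.Defs

/-!
# KFE, row SOC: an element of the socle outside the ideal of relative traces
-/

open Representation

namespace Pool.Agent.KFE

open Pool.Agent.KFV

section

variable {F : Type*} [Field F] {G V W : Type*} [Group G] [AddCommGroup V] [Module F V]
  [AddCommGroup W] [Module F W]

/-- The algebra of the equivariant endomorphisms. -/
private def socA {P L : Type*} [Group P] [AddCommGroup L] [Module F L]
    (σ : Representation F P L) : Subalgebra F (Module.End F L) :=
  Subalgebra.centralizer F (Set.range σ)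

private theorem mem_socA {P L : Type*} [Group P] [AddCommGroup L] [Module F L]
    (σ : Representation F P L) (c : Module.End F L) : c ∈ socA σ ↔ Eqv σ σ c := by
  unfold socA
  rw [Subalgebra.mem_centralizer_iff]
  constructor
  · intro h q
    exact (h _ ⟨q, rfl⟩).symm
  · rintro h _ ⟨q, rfl⟩
    exact (h q).symm

private theorem soc_nilp {P L : Type*} [Group P] [AddCommGroup L] [Module F L]
    [FiniteDimensional F L] (σ : Representation F P L) (h : Indec σ) :
    ∃ n : ℕ, ∀ l : List (Module.End F L), (∀ x ∈ l, Eqv σ σ x ∧ ¬ Function.Bijective x) →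
      n ≤ l.length → l.prod = 0 := by
  have hart : IsArtinianRing (socA σ) := by
    have : FiniteDimensional F (socA σ) :=
      FiniteDimensional.finiteDimensional_submodule (Subalgebra.toSubmodule (socA σ))
    exact IsArtinianRing.of_finite F (socA σ)
  obtain ⟨n, hn⟩ := IsArtinianRing.isNilpotent_jacobson_bot (R := socA σ)
  set J : Ideal (socA σ) := Ideal.jacobson (⊥ : Ideal (socA σ)) with hJ
  have hmemJ : ∀ x : socA σ, ¬ Function.Bijective (x : Module.End F L) → x ∈ J := by
    intro x hx
    refine mem_jacobson_of_nilpotent x fun y => ?_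
    have h1 : Eqv σ σ ((y * x : socA σ) : Module.End F L) := (mem_socA σ _).1 (y * x).2
    rcases h.bijective_or_nilpotent _ h1 with h2 | ⟨k, hk⟩
    · exfalso
      apply hx
      have h3 : Function.Injective (x : Module.End F L) := by
        have h4 : Function.Injective (((y : Module.End F L) : L → L) ∘
          ((x : Module.End F L) : L → L)) := h2.1
        exact h4.of_comp
      exact ⟨h3, LinearMap.surjective_of_injective h3⟩
    · exact ⟨k, Subtype.ext (by simpa using hk)⟩
  have hprod : ∀ l : List (socA σ), l ≠ [] → (∀ x ∈ l, x ∈ J) → l.prod ∈ J ^ l.length := by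
    intro l
    induction l using List.reverseRecOn with
    | nil => intro h0 _; exact absurd rfl h0
    | append_singleton l a ih =>
      intro _ hl
      have ha : a ∈ J := hl a (by simp)
      by_cases h0 : l = []
      · subst h0
        have e : J ^ (([] : List (socA σ)) ++ [a]).length = J := Submodule.pow_one J
        rw [e]
        simpa using ha
      · have h1 := ih h0 fun x hx => hl x (by simp [hx])
        rw [List.prod_append, List.prod_singleton, List.length_append, List.length_singleton,
          Submodule.pow_succ]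
        exact Submodule.mul_mem_mul h1 ha
  have hN : J ^ (n + 1) = ⊥ := by
    rw [Submodule.pow_succ, hn]
    exact Submodule.bot_mul J
  refine ⟨n + 1, fun l hl hnl => ?_⟩
  have hlift : ∀ l : List (Module.End F L), (∀ x ∈ l, Eqv σ σ x ∧ ¬ Function.Bijective x) →
      ∃ l' : List (socA σ), (∀ x ∈ l', x ∈ J) ∧ l'.length = l.length ∧
        (l'.prod : Module.End F L) = l.prod := by
    intro l
    induction l with
    | nil => intro _; exact ⟨[], by simp, rfl, by simp⟩
    | cons a l ih =>
      intro hl
      obtain ⟨l', h1, h2, h3⟩ := ih fun x hx => hl x (by simp [hx])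
      refine ⟨⟨a, (mem_socA σ a).2 (hl a (by simp)).1⟩ :: l', ?_, by simp [h2], ?_⟩
      · intro x hx
        rcases List.mem_cons.1 hx with rfl | hx
        · exact hmemJ _ (hl a (by simp)).2
        · exact h1 x hx
      · rw [List.prod_cons, List.prod_cons]
        change a * (l'.prod : Module.End F L) = a * l.prod
        rw [h3]
  have hlt : (l.take (n + 1)).prod = 0 := by
    obtain ⟨l', h1, h2, h3⟩ := hlift (l.take (n + 1)) fun x hx => hl x (List.mem_of_mem_take hx)
    have hlen : l'.length = n + 1 := by rw [h2, List.length_take]; omega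
    have h4 := hprod l' (by intro h; rw [h] at hlen; simp at hlen) h1
    rw [hlen, hN] at h4
    have h6 : l'.prod = 0 := h4
    rw [← h3, h6]
    rfl
  rw [← List.take_append_drop (n + 1) l, List.prod_append, hlt, zero_mul]

/-- ROW SOC (file Soc.lean). -/
theorem exists_socle {P L : Type*} [Group P] [Finite P] [AddCommGroup L] [Module F L]
    [FiniteDimensional F L] (σ : Representation F P L) (h : Indec σ)
    (hid : LinearMap.id ∉ trI σ σ) (j : L →ₗ[F] L) (hj : Eqv σ σ j)
    (hjb : ¬ Function.Bijective j) (hjt : j ∉ trI σ σ) :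
    ∃ u : L →ₗ[F] L, Eqv σ σ u ∧ ¬ Function.Bijective u ∧ u ∉ trI σ σ ∧
      ∀ e : L →ₗ[F] L, Eqv σ σ e → ¬ Function.Bijective e →
        u ∘ₗ e ∈ trI σ σ ∧ e ∘ₗ u ∈ trI σ σ := by
  obtain ⟨n, hn⟩ := soc_nilp σ h
  let Pr : ℕ → Prop := fun k => ∃ l : List (Module.End F L),
    (∀ x ∈ l, Eqv σ σ x ∧ ¬ Function.Bijective x) ∧ l.length = k ∧ l.prod ∉ trI σ σ
  have h1 : Pr 1 := ⟨[j], by simpa using ⟨hj, hjb⟩, rfl, by simpa using hjt⟩
  have h2 : ¬ Pr (n + 1) := by
    rintro ⟨l, hl, hc, hp⟩
    rw [hn l hl (by omega)] at hp
    exact hp (zero_mem _)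
  have h3 : ∃ k, 1 ≤ k ∧ Pr k ∧ ¬ Pr (k + 1) := by
    by_contra hcon
    push Not at hcon
    have h4 : ∀ k, 1 ≤ k → Pr k := by
      intro k hk
      induction k, hk using Nat.le_induction with
      | base => exact h1
      | succ k hk ih => exact hcon k hk ih
    exact h2 (h4 (n + 1) (by omega))
  obtain ⟨k, hk, ⟨l, hl, hlk, hlt⟩, hk1⟩ := h3
  have hlE : ∀ l : List (Module.End F L), (∀ x ∈ l, Eqv σ σ x ∧ ¬ Function.Bijective x) →
      Eqv σ σ l.prod := by
    intro l hl
    rw [← mem_socA]
    exact list_prod_mem fun x hx => (mem_socA σ x).2 (hl x hx).1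
  refine ⟨l.prod, hlE l hl, ?_, hlt, ?_⟩
  · intro hb
    cases l with
    | nil => simp at hlk; omega
    | cons a l =>
      apply (hl a (by simp)).2
      have hs : Function.Surjective a := by
        have h4 : Function.Surjective ((a : L → L) ∘ (l.prod : L → L)) := hb.2
        exact h4.of_comp
      exact ⟨LinearMap.injective_iff_surjective.2 hs, hs⟩
  · intro e he heb
    constructor
    · by_contra hcon
      apply hk1
      refine ⟨l ++ [e], ?_, by simp [hlk], ?_⟩
      · intro x hx
        rcases List.mem_append.1 hx with hx | hx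
        · exact hl x hx
        · rw [List.mem_singleton] at hx
          subst hx
          exact ⟨he, heb⟩
      · rw [List.prod_append, List.prod_singleton]
        exact hcon
    · by_contra hcon
      apply hk1
      refine ⟨e :: l, ?_, by simp [hlk], ?_⟩
      · intro x hx
        rcases List.mem_cons.1 hx with rfl | hx
        · exact ⟨he, heb⟩
        · exact hl x hx
      · rw [List.prod_cons]
        exact hcon

end

end Pool.Agent.KFE
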