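import Pool.Agent.KFE.Defs
import Pool.Agent.KFE.Ctr

/-! ROW TERM: the terms of the decomposition of the identity are not invertible. -/

open Representation

namespace Pool.Agent.KFE

open Pool.Agent.KFV

section

variable {F : Type*} [Field F] {G V W : Type*} [Group G] [AddCommGroup V] [Module F V]
  [AddCommGroup W] [Module F W]

private theorem term_cj_mul (ρ : Representation F G V) (a b : G) (θ : V →ₗ[F] V) :
    cj ρ a (cj ρ b θ) = cj ρ (a * b) θ := by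
  unfold cj
  ext v
  simp only [LinearMap.comp_apply, mul_inv_rev, map_mul, Module.End.mul_apply]

private theorem term_eigen [IsAlgClosed F] [FiniteDimensional F W] [Nontrivial W]
    {Q : Type*} [Group Q] (σ : Representation F Q W) (a : W →ₗ[F] W) (ha : Eqv σ σ a) :
    ∃ (c : F) (e : W →ₗ[F] W), a = c • LinearMap.id + e ∧ Eqv σ σ e ∧ ¬ Function.Bijective e := by
  obtain ⟨c, hc⟩ := Module.End.exists_eigenvalue a
  refine ⟨c, a - c • LinearMap.id, by abel, ?_, ?_⟩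
  · intro q
    ext w
    have h := LinearMap.congr_fun (ha q) w
    simp only [LinearMap.comp_apply] at h
    simp only [LinearMap.comp_apply, LinearMap.sub_apply, LinearMap.smul_apply,
      LinearMap.id_apply, map_sub, map_smul, h]
  · rintro ⟨hi, -⟩
    obtain ⟨w, hw⟩ := hc.exists_hasEigenvector
    apply hw.2
    apply hi
    have h1 := Module.End.mem_eigenspace_iff.1 hw.1
    simp only [LinearMap.sub_apply, LinearMap.smul_apply, LinearMap.id_apply, map_zero]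
    rw [h1, sub_self]

private theorem term_bij_of_comp [FiniteDimensional F W] (a b : W →ₗ[F] W)
    (h : Function.Bijective (a ∘ₗ b)) : Function.Bijective a ∧ Function.Bijective b := by
  have hb : Function.Injective b := by
    have := h.1
    rw [LinearMap.coe_comp] at this
    exact this.of_comp
  have ha : Function.Surjective a := by
    have := h.2
    rw [LinearMap.coe_comp] at this
    exact this.of_comp
  exact ⟨⟨LinearMap.injective_iff_surjective.2 ha, ha⟩,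
    ⟨hb, LinearMap.injective_iff_surjective.1 hb⟩⟩

private theorem term_cent_eqv (ρ : Representation F G V) (Q : Subgroup G) (z : G)
    (hz : z ∈ Subgroup.centralizer (Q : Set G)) : Eqv (res ρ Q) (res ρ Q) (ρ z) := by
  intro q
  have h1 : (q : G) * z = z * q := Subgroup.mem_centralizer_iff.1 hz q q.2
  change (ρ z : Module.End F V) * ρ (q : G) = ρ (q : G) * ρ z
  rw [← map_mul, ← map_mul, h1]

theorem term_mem [IsAlgClosed F] [FiniteDimensional F V] [FiniteDimensional F W] [Finite G]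
    (ρ : Representation F G V) (Q : Subgroup G) (σ : Representation F Q W) (hσ : Indec σ)
    (hid : LinearMap.id ∉ trI σ σ)
    (hctr : ∀ (α : W →ₗ[F] V) (β : V →ₗ[F] W) (u : W →ₗ[F] W), Eqv σ (res ρ Q) α →
      Eqv (res ρ Q) σ β → Eqv σ σ u → ¬ Function.Bijective u →
      ctr ρ Q (α ∘ₗ u ∘ₗ β) ∈ trI (res ρ Q) (res ρ Q))
    (u : W →ₗ[F] W) (hu : Eqv σ σ u) (hub : ¬ Function.Bijective u) (hut : u ∉ trI σ σ)
    (hus : ∀ e : W →ₗ[F] W, Eqv σ σ e → ¬ Function.Bijective e →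
      u ∘ₗ e ∈ trI σ σ ∧ e ∘ₗ u ∈ trI σ σ)
    (α α₁ : W →ₗ[F] V) (β β₁ : V →ₗ[F] W) (hα : Eqv σ (res ρ Q) α) (hα₁ : Eqv σ (res ρ Q) α₁)
    (hβ : Eqv (res ρ Q) σ β) (hβ₁ : Eqv (res ρ Q) σ β₁) (N : Submodule F (W →ₗ[F] W))
    (hN : ∀ θ, θ ∈ N ↔ Eqv σ σ θ ∧ ¬ Function.Bijective θ) (g : G)
    (hg : g ∈ Subgroup.normalizer (Q : Set G)) :
    β₁ ∘ₗ ctr ρ Q (cj ρ g (α ∘ₗ β)) ∘ₗ α₁ ∈ N := by
  classical
  have := hσ.1
  obtain ⟨Z, hZ, hsum⟩ := ctr_sum ρ Q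
  have hcn : ∀ z ∈ Subgroup.centralizer (Q : Set G), z ∈ Subgroup.normalizer (Q : Set G) := by
    intro z hz
    rw [Subgroup.mem_normalizer_iff]
    intro h
    constructor
    · intro hh
      have h1 : h * z = z * h := Subgroup.mem_centralizer_iff.1 hz h hh
      rw [← h1, mul_assoc, mul_inv_cancel, mul_one]
      exact hh
    · intro hh
      have h1 : (z * h * z⁻¹) * z = z * (z * h * z⁻¹) :=
        Subgroup.mem_centralizer_iff.1 hz _ hh
      have h2 : h = z * h * z⁻¹ := by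
        have h3 : z * h = z * (z * h * z⁻¹) := by
          rw [← h1]; group
        exact mul_left_cancel h3
      rw [h2]
      exact hh
  have hX : Eqv (res ρ Q) (res ρ Q) (α ∘ₗ β) := hα.comp hβ
  -- the terms
  have hterm : ∀ z ∈ Z, Eqv σ σ (β₁ ∘ₗ cj ρ (z * g) (α ∘ₗ β) ∘ₗ α₁) := by
    intro z hz
    have h1 : Eqv (res ρ Q) (res ρ Q) (cj ρ (z * g) (α ∘ₗ β)) :=
      cj_eqv ρ Q (z * g) (Subgroup.mul_mem _ (hcn z (hZ z hz)) hg) _ hX
    exact hβ₁.comp (h1.comp hα₁)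
  have hexp : β₁ ∘ₗ ctr ρ Q (cj ρ g (α ∘ₗ β)) ∘ₗ α₁ =
      ∑ z ∈ Z, β₁ ∘ₗ cj ρ (z * g) (α ∘ₗ β) ∘ₗ α₁ := by
    rw [hsum]
    ext w
    simp only [LinearMap.comp_apply, LinearMap.sum_apply, map_sum, term_cj_mul]
  by_cases hall : ∀ z ∈ Z, ¬ Function.Bijective (β₁ ∘ₗ cj ρ (z * g) (α ∘ₗ β) ∘ₗ α₁)
  · rw [hexp]
    exact Submodule.sum_mem _ fun z hz => (hN _).2 ⟨hterm z hz, hall z hz⟩
  push Not at hall
  obtain ⟨z₀, hz₀, hbij⟩ := hall
  set g' : G := z₀ * g with hg'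
  have hg'N : g' ∈ Subgroup.normalizer (Q : Set G) :=
    Subgroup.mul_mem _ (hcn z₀ (hZ z₀ hz₀)) hg
  set θ : W →ₗ[F] W := β ∘ₗ ρ g'⁻¹ ∘ₗ α₁ with hθ
  have hθbij : Function.Bijective θ := by
    have h1 : β₁ ∘ₗ cj ρ g' (α ∘ₗ β) ∘ₗ α₁ = (β₁ ∘ₗ ρ g' ∘ₗ α) ∘ₗ θ := by
      unfold cj
      rw [hθ]
      ext w
      simp only [LinearMap.comp_apply]
    rw [h1] at hbij
    exact (term_bij_of_comp _ _ hbij).2
  set E := LinearEquiv.ofBijective θ hθbij with hE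
  have hEθ : ∀ w, E w = θ w := fun w => rfl
  have hβq : ∀ (q : Q) (v : V), β (ρ (q : G) v) = σ q (β v) := fun q v =>
    LinearMap.congr_fun (hβ q) v
  have hα₁q : ∀ (q : Q) (w : W), α₁ (σ q w) = ρ (q : G) (α₁ w) := fun q w =>
    LinearMap.congr_fun (hα₁ q) w
  -- conjugation by the inverse of `g'`
  have hconj : ∀ q : Q, g'⁻¹ * (q : G) * g' ∈ Q := by
    intro q
    have h1 := (Subgroup.mem_normalizer_iff.1 (Subgroup.inv_mem _ hg'N) (q : G)).1 q.2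
    simpa using h1
  have hρc : ∀ (q : Q) (v : V), ρ g'⁻¹ (ρ (q : G) v) =
      ρ ((⟨g'⁻¹ * (q : G) * g', hconj q⟩ : Q) : G) (ρ g'⁻¹ v) := by
    intro q v
    have h1 : (ρ g'⁻¹ : Module.End F V) * ρ (q : G) =
        ρ ((⟨g'⁻¹ * (q : G) * g', hconj q⟩ : Q) : G) * ρ g'⁻¹ := by
      rw [← map_mul, ← map_mul]
      congr 1
      simp [mul_assoc]
    exact LinearMap.congr_fun h1 v
  have hθq : ∀ (q : Q) (w : W), θ (σ q w) = σ ⟨g'⁻¹ * (q : G) * g', hconj q⟩ (θ w) := by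
    intro q w
    rw [hθ]
    simp only [LinearMap.comp_apply]
    rw [hα₁q, hρc, hβq]
  have hEs : ∀ (q : Q) (w : W), E.symm (σ ⟨g'⁻¹ * (q : G) * g', hconj q⟩ w) =
      σ q (E.symm w) := by
    intro q w
    apply E.injective
    rw [E.apply_symm_apply, hEθ, hθq, ← hEθ, E.apply_symm_apply]
  set α' : W →ₗ[F] V := cj ρ g' (α ∘ₗ β) ∘ₗ α₁ with hα'
  set β' : V →ₗ[F] W := E.symm.toLinearMap ∘ₗ β ∘ₗ ρ g'⁻¹ with hβ'
  have hα'e : Eqv σ (res ρ Q) α' := (cj_eqv ρ Q g' hg'N _ hX).comp hα₁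
  have hβ'e : Eqv (res ρ Q) σ β' := by
    intro q
    ext v
    change E.symm (β (ρ g'⁻¹ (ρ (q : G) v))) = σ q (E.symm (β (ρ g'⁻¹ v)))
    rw [hρc, hβq, hEs]
  have hαβ' : α' ∘ₗ β' = cj ρ g' (α ∘ₗ β) := by
    ext v
    rw [hα', hβ']
    simp only [LinearMap.comp_apply, LinearEquiv.coe_coe, cj]
    have h1 : β (ρ g'⁻¹ (α₁ (E.symm (β (ρ g'⁻¹ v))))) = θ (E.symm (β (ρ g'⁻¹ v))) := rfl
    rw [h1, ← hEθ, E.apply_symm_apply]
  -- the traces agree
  have hctreq : ctr ρ Q (cj ρ g (α ∘ₗ β)) = ctr ρ Q (α' ∘ₗ β') := by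
    have hY : Eqv (res ρ Q) (res ρ Q) (cj ρ g (α ∘ₗ β)) := cj_eqv ρ Q g hg _ hX
    rw [hαβ', hg', ← term_cj_mul, ← ctr_cj ρ Q _ hY z₀ (hcn z₀ (hZ z₀ hz₀)),
      ctr_comm ρ Q _ hY z₀ (Subgroup.mem_sup_right (hZ z₀ hz₀))]
  -- the entries
  have hza : ∀ z ∈ Z, Eqv σ σ (β₁ ∘ₗ ρ z ∘ₗ α') := fun z hz =>
    hβ₁.comp ((term_cent_eqv ρ Q z (hZ z hz)).comp hα'e)
  have hzb : ∀ z ∈ Z, Eqv σ σ (β' ∘ₗ ρ z⁻¹ ∘ₗ α₁) := fun z hz =>
    hβ'e.comp ((term_cent_eqv ρ Q z⁻¹ (Subgroup.inv_mem _ (hZ z hz))).comp hα₁)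
  choose! lam e hlam he heb using fun z (hz : z ∈ Z) =>
    term_eigen σ (β₁ ∘ₗ ρ z ∘ₗ α') (hza z hz)
  choose! mu f hmu hf hfb using fun z (hz : z ∈ Z) =>
    term_eigen σ (β' ∘ₗ ρ z⁻¹ ∘ₗ α₁) (hzb z hz)
  have hexp2 : ∀ c : W →ₗ[F] W, β₁ ∘ₗ ctr ρ Q (α' ∘ₗ c ∘ₗ β') ∘ₗ α₁ =
      ∑ z ∈ Z, (lam z • LinearMap.id + e z) ∘ₗ c ∘ₗ (mu z • LinearMap.id + f z) := by
    intro c
    rw [hsum]
    have h1 : ∀ z ∈ Z, (lam z • LinearMap.id + e z) ∘ₗ c ∘ₗ (mu z • LinearMap.id + f z) =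
        (β₁ ∘ₗ ρ z ∘ₗ α') ∘ₗ c ∘ₗ (β' ∘ₗ ρ z⁻¹ ∘ₗ α₁) := fun z hz => by
      rw [← hlam z hz, ← hmu z hz]
    rw [Finset.sum_congr rfl h1]
    ext w
    simp only [LinearMap.comp_apply, LinearMap.sum_apply, map_sum, cj]
  -- the scalar is zero
  have hzero : ∑ z ∈ Z, lam z * mu z = 0 := by
    by_contra hne
    apply hut
    have h1 := hctr α' β' u hα'e hβ'e hu hub
    have h2 : β₁ ∘ₗ ctr ρ Q (α' ∘ₗ u ∘ₗ β') ∘ₗ α₁ ∈ trI σ σ :=
      comp_mem_trI _ _ _ _ _ hβ₁ (mem_trI_comp _ _ _ _ _ hα₁ h1)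
    rw [hexp2 u] at h2
    have h3 : ∑ z ∈ Z, ((lam z • LinearMap.id + e z) ∘ₗ u ∘ₗ (mu z • LinearMap.id + f z) -
        (lam z * mu z) • u) ∈ trI σ σ := by
      refine Submodule.sum_mem _ fun z hz => ?_
      have h4 : (lam z • LinearMap.id + e z) ∘ₗ u ∘ₗ (mu z • LinearMap.id + f z) -
          (lam z * mu z) • u = lam z • (u ∘ₗ f z) +
            (e z ∘ₗ u) ∘ₗ (mu z • LinearMap.id + f z) := by
        ext w
        simp only [LinearMap.comp_apply, LinearMap.sub_apply, LinearMap.add_apply,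
          LinearMap.smul_apply, LinearMap.id_apply, map_add, map_smul, smul_add, smul_smul]
        rw [mul_comm (lam z) (mu z)]
        abel
      rw [h4]
      have h5 : Eqv σ σ (mu z • LinearMap.id + f z) := by
        rw [← hmu z hz]; exact hzb z hz
      exact Submodule.add_mem _ (Submodule.smul_mem _ _ (hus (f z) (hf z hz) (hfb z hz)).1)
        (mem_trI_comp _ _ _ _ _ h5 (hus (e z) (he z hz) (heb z hz)).2)
    have h6 : (∑ z ∈ Z, lam z * mu z) • u ∈ trI σ σ := by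
      have h7 := Submodule.sub_mem _ h2 h3
      rw [← Finset.sum_sub_distrib] at h7
      simp only [sub_sub_cancel] at h7
      rwa [← Finset.sum_smul] at h7
    have h8 := Submodule.smul_mem (trI σ σ) (∑ z ∈ Z, lam z * mu z)⁻¹ h6
    rwa [smul_smul, inv_mul_cancel₀ hne, one_smul] at h8
  -- the end
  have hfin : β₁ ∘ₗ ctr ρ Q (cj ρ g (α ∘ₗ β)) ∘ₗ α₁ =
      ∑ z ∈ Z, (lam z • f z + e z ∘ₗ (mu z • LinearMap.id + f z)) := by
    rw [hctreq]
    have h1 := hexp2 LinearMap.id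
    rw [LinearMap.id_comp] at h1
    rw [h1]
    have h2 : ∀ z ∈ Z, (lam z • LinearMap.id + e z) ∘ₗ LinearMap.id ∘ₗ
        (mu z • LinearMap.id + f z) = (lam z * mu z) • (LinearMap.id : W →ₗ[F] W) +
          (lam z • f z + e z ∘ₗ (mu z • LinearMap.id + f z)) := by
      intro z _
      ext w
      simp only [LinearMap.comp_apply, LinearMap.add_apply,
        LinearMap.smul_apply, LinearMap.id_apply, map_add, map_smul, smul_add, smul_smul]
      rw [mul_comm (lam z) (mu z)]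
      abel
    rw [Finset.sum_congr rfl h2, Finset.sum_add_distrib, ← Finset.sum_smul, hzero, zero_smul,
      zero_add]
  rw [hfin]
  refine Submodule.sum_mem _ fun z hz => Submodule.add_mem _
    (Submodule.smul_mem _ _ ((hN _).2 ⟨hf z hz, hfb z hz⟩)) ((hN _).2 ⟨?_, ?_⟩)
  · have h5 : Eqv σ σ (mu z • LinearMap.id + f z) := by
      rw [← hmu z hz]; exact hzb z hz
    exact (he z hz).comp h5
  · intro hb
    exact heb z hz (term_bij_of_comp _ _ hb).1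

end

end Pool.Agent.KFE
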