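import Pool.Agent.KFE.Defs
import Pool.Agent.KFE.Jac
import Pool.Agent.KFE.Dec
import Pool.Agent.KFE.Jtr
import Pool.Agent.KFE.Soc
import Pool.Agent.KFE.Term

/-!
# KFE, row MAIN: endomorphisms of a source are scalars modulo relative traces
-/

open Representation

namespace Pool.Agent.KFE

open Pool.Agent.KFV

section

variable {F : Type*} [Field F] {G V W : Type*} [Group G] [AddCommGroup V] [Module F V]
  [AddCommGroup W] [Module F W]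

theorem Main_not_bijective {P : Type*} [Group P] [Finite P] (σ : Representation F P W)
    (hid : LinearMap.id ∉ trI σ σ) (θ : W →ₗ[F] W) (hθ : θ ∈ trI σ σ) :
    ¬ Function.Bijective θ := by
  intro hb
  have hE : Eqv σ σ θ := eqv_of_mem_trI σ σ θ hθ
  let e := LinearEquiv.ofBijective θ hb
  have he : Eqv σ σ e.toLinearMap := hE
  have h1 := comp_mem_trI σ σ σ θ e.symm.toLinearMap (fit_symm e he) hθ
  apply hid
  have h2 : e.symm.toLinearMap ∘ₗ θ = LinearMap.id := by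
    ext v
    exact e.symm_apply_apply v
  rwa [h2] at h1

theorem local_end [IsAlgClosed F] [FiniteDimensional F V] [FiniteDimensional F W] [Finite G]
    (p : ℕ) [Fact p.Prime] [CharP F p] (ρ : Representation F G V) (hρ : ρ.IsIrreducible)
    (Q : Subgroup G) (σ : Representation F Q W) (h : IsVertexSource ρ Q σ) (hE : PCond p Q)
    (θ : W →ₗ[F] W) (hθ : Eqv σ σ θ) : ∃ c : F, θ - c • LinearMap.id ∈ trI σ σ := by
  have hid := source_not_mem ρ hρ Q σ h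
  haveI := h.indec.1
  obtain ⟨c, hc⟩ := Module.End.exists_eigenvalue (K := F) θ
  refine ⟨c, ?_⟩
  by_contra hjt
  have hj : Eqv σ σ (θ - c • LinearMap.id) := by
    intro q
    rw [LinearMap.sub_comp, LinearMap.comp_sub, hθ q, LinearMap.smul_comp, LinearMap.comp_smul,
      LinearMap.id_comp, LinearMap.comp_id]
  have hjb : ¬ Function.Bijective (θ - c • LinearMap.id : W →ₗ[F] W) := by
    intro hb
    obtain ⟨v, hv⟩ := hc.exists_hasEigenvector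
    apply hv.2
    apply hb.1
    rw [map_zero, LinearMap.sub_apply, LinearMap.smul_apply, LinearMap.id_apply,
      hv.apply_eq_smul, sub_self]
  obtain ⟨u, hu, hub, hut, hus⟩ := exists_socle σ h.indec hid _ hj hjb hjt
  have hctr : ∀ (α : W →ₗ[F] V) (β : V →ₗ[F] W) (u : W →ₗ[F] W), Eqv σ (res ρ Q) α →
      Eqv (res ρ Q) σ β → Eqv σ σ u → ¬ Function.Bijective u →
      ctr ρ Q (α ∘ₗ u ∘ₗ β) ∈ trI (res ρ Q) (res ρ Q) := by
    intro α β u hα hβ hu hub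
    exact ctr_mem p ρ hρ Q σ h hE _ (mem_jac ρ Q σ h.indec α β u hα hβ hu hub)
  obtain ⟨α, β, hα, hβ, htr⟩ := source_data ρ Q σ h
  obtain ⟨α₁, β₁, hα₁, hβ₁, hsp⟩ := source_split ρ hρ Q σ h
  obtain ⟨N, hN⟩ := h.indec.exists_nonunits
  obtain ⟨Y, hY, hdec⟩ := dec ρ Q (α ∘ₗ β) (hα.comp hβ) htr
  have h1 : β₁ ∘ₗ (LinearMap.id - ∑ y ∈ Y, ctr ρ Q (cj ρ y (α ∘ₗ β))) ∘ₗ α₁ ∈ trI σ σ :=
    comp_mem_trI σ (res ρ Q) σ _ β₁ hβ₁ (mem_trI_comp σ (res ρ Q) (res ρ Q) _ α₁ hα₁ hdec)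
  have h2 : β₁ ∘ₗ (LinearMap.id - ∑ y ∈ Y, ctr ρ Q (cj ρ y (α ∘ₗ β))) ∘ₗ α₁ ∈ N :=
    (hN _).2 ⟨eqv_of_mem_trI σ σ _ h1, Main_not_bijective σ hid _ h1⟩
  have h3 : ∑ y ∈ Y, β₁ ∘ₗ ctr ρ Q (cj ρ y (α ∘ₗ β)) ∘ₗ α₁ ∈ N := by
    refine Submodule.sum_mem _ fun y hy => ?_
    exact term_mem ρ Q σ h.indec hid hctr u hu hub hut hus α α₁ β β₁ hα hα₁ hβ hβ₁ N hN y (hY y hy)
  have h4 : (LinearMap.id : W →ₗ[F] W) =
      β₁ ∘ₗ (LinearMap.id - ∑ y ∈ Y, ctr ρ Q (cj ρ y (α ∘ₗ β))) ∘ₗ α₁ +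
        ∑ y ∈ Y, β₁ ∘ₗ ctr ρ Q (cj ρ y (α ∘ₗ β)) ∘ₗ α₁ := by
    rw [LinearMap.sub_comp, LinearMap.comp_sub, LinearMap.id_comp, hsp]
    have h5 : β₁ ∘ₗ (∑ y ∈ Y, ctr ρ Q (cj ρ y (α ∘ₗ β))) ∘ₗ α₁ =
        ∑ y ∈ Y, β₁ ∘ₗ ctr ρ Q (cj ρ y (α ∘ₗ β)) ∘ₗ α₁ := by
      ext w
      simp only [LinearMap.comp_apply, LinearMap.sum_apply, map_sum]
    rw [h5, sub_add_cancel]
  have h6 : (LinearMap.id : W →ₗ[F] W) ∈ N := by
    rw [h4]
    exact N.add_mem h2 h3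
  exact ((hN _).1 h6).2 Function.bijective_id

end

end Pool.Agent.KFE
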