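import Pool.Agent.KFE.Defs2
import Pool.Agent.KFE.Jac
import Pool.Agent.KFE.Dec
import Pool.Agent.KFE.Soc
import Pool.Agent.KFE.Edat
import Pool.Agent.KFE.Jtb
import Pool.Agent.KFE.Termb

/-!
# KFE, row MAINB: endomorphisms of a source are scalars modulo relative traces, if the stabiliser
of the source is a `p`-group modulo `Q C(Q)`
-/

open Representation

namespace Pool.Agent.KFE

open Pool.Agent.KFV

section

variable {F : Type*} [Field F] {G V W : Type*} [Group G] [AddCommGroup V] [Module F V]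
  [AddCommGroup W] [Module F W]

theorem Mainb_not_bijective {P : Type*} [Group P] [Finite P] (σ : Representation F P W)
    (hid : LinearMap.id ∉ trI σ σ) (θ : W →ₗ[F] W) (hθ : θ ∈ trI σ σ) :
    ¬ Function.Bijective θ := by
  intro hb
  have hE : Eqv σ σ θ := eqv_of_mem_trI σ σ θ hθ
  let e := LinearEquiv.ofBijective θ hb
  have he : Eqv σ σ e.toLinearMap := hE
  have h1 := comp_mem_trI σ σ σ θ e.symm.toLinearMap (fit_symm e he) hθ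
  apply hid
  have h2 : e.symm.toLinearMap ∘ₗ θ = LinearMap.id := by
    ext v
    exact e.symm_apply_apply v
  rwa [h2] at h1

theorem local_end_stab [IsAlgClosed F] [FiniteDimensional F V] [FiniteDimensional F W]
    [Finite G] (p : ℕ) [Fact p.Prime] [CharP F p] (ρ : Representation F G V)
    (hρ : ρ.IsIrreducible) (Q : Subgroup G) (σ : Representation F Q W)
    (h : IsVertexSource ρ Q σ) (hE : PStab p Q σ) (θ : W →ₗ[F] W) (hθ : Eqv σ σ θ) :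
    ∃ c : F, θ - c • LinearMap.id ∈ trI σ σ := by
  have hid := source_not_mem ρ hρ Q σ h
  have hW := h.indec.1
  obtain ⟨c, hc⟩ := Module.End.exists_eigenvalue (K := F) θ
  refine ⟨c, ?_⟩
  by_contra hjt
  have hj : Eqv σ σ (θ - c • LinearMap.id) := by
    intro q
    rw [LinearMap.sub_comp, LinearMap.comp_sub, hθ q, LinearMap.smul_comp, LinearMap.comp_smul,
      LinearMap.id_comp, LinearMap.comp_id]
  have hjb : ¬ Function.Bijective (θ - c • LinearMap.id : W →ₗ[F] W) := by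
    intro hb
    obtain ⟨v, hv⟩ := hc.exists_hasEigenvector
    apply hv.2
    apply hb.1
    rw [map_zero, LinearMap.sub_apply, LinearMap.smul_apply, LinearMap.id_apply,
      hv.apply_eq_smul, sub_self]
  obtain ⟨u, hu, hub, hut, hus⟩ := exists_socle σ h.indec hid _ hj hjb hjt
  obtain ⟨α, β, hα, hβ, htr⟩ := source_data ρ Q σ h
  obtain ⟨α₁, β₁, hα₁, hβ₁, hsp⟩ := source_split ρ hρ Q σ h
  obtain ⟨N, hN⟩ := h.indec.exists_nonunits
  obtain ⟨e, he, hee, hed, hec, heN⟩ := exists_e ρ Q σ h.indec hid α β hα hβ htr N hN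
  have hctr : ∀ (α' : W →ₗ[F] V) (β' : V →ₗ[F] W) (u : W →ₗ[F] W), Eqv σ (res ρ Q) α' →
      Eqv (res ρ Q) σ β' → Eqv σ σ u → ¬ Function.Bijective u →
      e ∘ₗ ctr ρ Q (α' ∘ₗ u ∘ₗ β') ∘ₗ e ∈ trI (res ρ Q) (res ρ Q) := by
    intro α' β' u hα' hβ' hu hub
    exact ctr_mem_stab p ρ hρ Q σ h hE α β hα hβ htr e he hee hed hec _
      (mem_jac ρ Q σ h.indec α' β' u hα' hβ' hu hub)
  obtain ⟨Y, hY, hdec⟩ := dec ρ Q (α ∘ₗ β) (hα.comp hβ) htr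
  have h1 : β₁ ∘ₗ (LinearMap.id - ∑ y ∈ Y, ctr ρ Q (cj ρ y (α ∘ₗ β))) ∘ₗ α₁ ∈ trI σ σ :=
    comp_mem_trI σ (res ρ Q) σ _ β₁ hβ₁ (mem_trI_comp σ (res ρ Q) (res ρ Q) _ α₁ hα₁ hdec)
  have h2 : β₁ ∘ₗ (LinearMap.id - ∑ y ∈ Y, ctr ρ Q (cj ρ y (α ∘ₗ β))) ∘ₗ α₁ ∈ N :=
    (hN _).2 ⟨eqv_of_mem_trI σ σ _ h1, Mainb_not_bijective σ hid _ h1⟩
  have h3 : ∑ y ∈ Y, β₁ ∘ₗ ctr ρ Q (cj ρ y (α ∘ₗ β)) ∘ₗ α₁ ∈ N := by
    refine Submodule.sum_mem _ fun y hy => ?_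
    exact term_mem_e ρ Q σ h.indec hid e he N hN heN hctr u hu hub hut hus α α₁ β β₁ hα hα₁ hβ hβ₁
      y (hY y hy)
  have h4 : (LinearMap.id : W →ₗ[F] W) =
      β₁ ∘ₗ (LinearMap.id - ∑ y ∈ Y, ctr ρ Q (cj ρ y (α ∘ₗ β))) ∘ₗ α₁ +
        ∑ y ∈ Y, β₁ ∘ₗ ctr ρ Q (cj ρ y (α ∘ₗ β)) ∘ₗ α₁ := by
    rw [LinearMap.sub_comp, LinearMap.comp_sub, LinearMap.id_comp, hsp]
    have h5 : β₁ ∘ₗ (∑ y ∈ Y, ctr ρ Q (cj ρ y (α ∘ₗ β))) ∘ₗ α₁ =
        ∑ y ∈ Y, β₁ ∘ₗ ctr ρ Q (cj ρ y (α ∘ₗ β)) ∘ₗ α₁ := by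
      ext w
      simp only [LinearMap.comp_apply, LinearMap.sum_apply, map_sum]
    rw [h5, sub_add_cancel]
  have h6 : (LinearMap.id : W →ₗ[F] W) ∈ N := by
    rw [h4]
    exact N.add_mem h2 h3
  exact ((hN _).1 h6).2 Function.bijective_id

end

end Pool.Agent.KFE
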